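import Pool.Agent.Helper693.Tri.Algo
import Pool.Agent.Helper693.Tri.TG1
import Pool.Agent.Helper693.Tri.TG2
import Pool.Agent.Helper693.Tri.TG4
import Pool.Agent.Helper693.Tri.TG6

set_option autoImplicit false
open scoped BigOperators Polynomial
open Polynomial
namespace Pool.Agent.TridiagGap

/-- list of entries of the block `[s, s+k)` -/
def els (a : ℕ → ℕ → ℂ) (s k : ℕ) : List Ent :=
  (List.range k).map fun i => (a (s + i) (s + i), a (s + i) (s + i + 1), a (s + i + 1) (s + i))

theorem els_zero (a : ℕ → ℕ → ℂ) (s : ℕ) : els a s 0 = [] := rfl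

theorem els_succ (a : ℕ → ℕ → ℂ) (s k : ℕ) :
    els a s (k + 1) = (a s s, a s (s + 1), a (s + 1) s) :: els a (s + 1) k := by
  simp only [els, List.range_succ_eq_map, List.map_cons, List.map_map, add_zero]
  congr 1
  apply List.map_congr_left
  intro i _
  simp only [Function.comp]
  have h1 : s + i.succ = s + 1 + i := by omega
  rw [h1]

theorem els_length (a : ℕ → ℕ → ℂ) (s k : ℕ) : (els a s k).length = k := by simp [els]

theorem iter_fix {α : Type} (f : α → α) (x : α) (h : f x = x) (n : ℕ) : f^[n] x = x := by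
  exact Function.iterate_fixed h n

theorem rev_iter {β : Type} (x : List β) : ∀ (w : List β) (n : ℕ), x.length ≤ n →
    revBody^[n] (x, w) = ([], x.reverse ++ w) := by
  induction x with
  | nil =>
    intro w n _
    rw [iter_fix]
    · simp
    · rfl
  | cons b x ih =>
    intro w n hn
    cases n with
    | zero => simp at hn
    | succ n =>
      rw [Function.iterate_succ_apply]
      show revBody^[n] (x, b :: w) = _
      rw [ih (b :: w) n (by simpa using hn)]
      simp

theorem ax_iter (c : ℂ) (v : List ℂ) : ∀ (u acc : List ℂ) (n : ℕ), v.length ≤ n → v.length ≤ u.length →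
    ∃ x r, (axBody c)^[n] (v, u, acc) = ([], r, x.reverse ++ acc) ∧ x.length = v.length ∧ x ++ r = axpy c v u := by
  induction v with
  | nil =>
    intro u acc n _ _
    refine ⟨[], u, ?_, rfl, by simp [axpy]⟩
    rw [iter_fix]
    · simp
    · rfl
  | cons b v ih =>
    intro u acc n hn hu
    cases u with
    | nil => simp at hu
    | cons a u =>
      cases n with
      | zero => simp at hn
      | succ n =>
        obtain ⟨x, r, h1, h2, h3⟩ := ih u ((a + c * b) :: acc) n (by simpa using hn) (by simpa using hu)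
        refine ⟨(a + c * b) :: x, r, ?_, by simp [h2], ?_⟩
        · rw [Function.iterate_succ_apply]
          show (axBody c)^[n] (v, u, (a + c * b) :: acc) = _
          rw [h1]; simp
        · simp [axpy, h3]

theorem axLoop_eq (n : ℕ) (c : ℂ) (v u : List ℂ) (hn : v.length ≤ n) (hu : v.length ≤ u.length) :
    axLoop n c v u = axpy c v u := by
  obtain ⟨x, r, h1, h2, h3⟩ := ax_iter c v u [] n hn hu
  rw [axLoop, h1]
  simp only [List.append_nil]
  rw [rev_iter _ _ _ (by simp [h2, hn])]
  simp [h3]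

theorem natC_eq (n : ℕ) : natC n = (n : ℂ) := by
  unfold natC
  induction n with
  | zero => simp
  | succ n ih => rw [Function.iterate_succ_apply', ih]; push_cast; rfl

theorem sh_iter (a : ℕ → ℕ → ℂ) (z : ℂ) (k : ℕ) : ∀ (s : ℕ) (acc : List Ent) (n : ℕ), k ≤ n →
    (shBody z)^[n] (els a s k, (s : ℂ), acc) = ([], ((s + k : ℕ) : ℂ), (els (pert a z) s k).reverse ++ acc) := by
  induction k with
  | zero =>
    intro s acc n _
    rw [iter_fix]
    · simp [els_zero]
    · rfl
  | succ k ih =>
    intro s acc n hn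
    cases n with
    | zero => simp at hn
    | succ n =>
      rw [Function.iterate_succ_apply, els_succ]
      show (shBody z)^[n] (els a (s + 1) k, (s : ℂ) + 1,
        (a s s + z * ((s : ℂ) + 1), (a s (s + 1), a (s + 1) s)) :: acc) = _
      have := ih (s + 1) ((a s s + z * ((s : ℂ) + 1), (a s (s + 1), a (s + 1) s)) :: acc) n (by omega)
      push_cast at this ⊢
      rw [this, els_succ]
      have e1 : pert a z s s = a s s + z * ((s : ℂ) + 1) := by simp [pert]
      have e2 : pert a z s (s + 1) = a s (s + 1) := by simp [pert]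
      have e3 : pert a z (s + 1) s = a (s + 1) s := by simp [pert]
      rw [e1, e2, e3]
      simp
      ring

theorem shift_eq (a : ℕ → ℕ → ℂ) (z : ℂ) (n : ℕ) : shift n z (els a 0 n) = els (pert a z) 0 n := by
  have h := sh_iter a z n 0 [] n le_rfl
  rw [shift]
  have h0 : ((0 : ℕ) : ℂ) = 0 := by simp
  rw [h0] at h
  rw [h]
  simp only [List.append_nil]
  rw [rev_iter _ _ _ (by simp [els_length])]
  simp

theorem nsq_eq (x : ℂ) : nsq x = ((‖x‖ ^ 2 : ℝ) : ℂ) := by
  rw [nsq]
  have h : ((x.re : ℂ) + (x.re : ℂ)) - x = (starRingEnd ℂ) x := by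
    apply Complex.ext <;> simp
  rw [h, Complex.mul_conj, Complex.normSq_eq_norm_sq]

theorem nsq_zero_iff (b : ℂ) : 0 ≤ (-(nsq b)).re ↔ b = 0 := by
  rw [nsq_eq, Complex.neg_re, Complex.ofReal_re]
  constructor
  · intro h
    have h1 : ‖b‖ ^ 2 ≤ 0 := by linarith
    have h2 : ‖b‖ = 0 := by nlinarith [norm_nonneg b]
    exact norm_eq_zero.mp h2
  · rintro rfl; simp

/-- invariant of the three term recurrence after `j` sites of the block starting at `s` -/
def CPI (b : ℕ → ℕ → ℂ) (s j : ℕ) (P : PS) : Prop :=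
  P.1.length = j + 1 ∧ toPoly P.1 = (blk b s j).charpoly ∧
    (j = 0 → P.2.1 = []) ∧
    (∀ i, j = i + 1 → P.2.1.length = i + 1 ∧ toPoly P.2.1 = (blk b s i).charpoly ∧
      P.2.2 = b (s + i) (s + i + 1) * b (s + i + 1) (s + i))

theorem CPI_init (b : ℕ → ℕ → ℂ) (s : ℕ) (w : ℂ) : CPI b s 0 ([1], [], w) := by
  refine ⟨rfl, ?_, fun _ => rfl, fun i hi => by omega⟩
  simp [toPoly, Matrix.charpoly]

theorem charpoly_one (b : ℕ → ℕ → ℂ) (s : ℕ) : (blk b s 1).charpoly = X - C (b s s) := by
  rw [Matrix.charpoly, Matrix.det_fin_one]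
  simp [Matrix.charmatrix, blk]

theorem cpStep_inv (b : ℕ → ℕ → ℂ) (h1 : ∀ i j, i + 1 < j → b i j = 0) (h2 : ∀ i j, j + 1 < i → b i j = 0)
    (s j n : ℕ) (hj : j + 1 ≤ n) (P : PS) (hP : CPI b s j P) :
    CPI b s (j + 1) (cpStep n P (b (s + j) (s + j), b (s + j) (s + j + 1), b (s + j + 1) (s + j))) := by
  obtain ⟨p, p', w⟩ := P
  obtain ⟨hl, hp, h0, hS⟩ := hP
  simp only at hl hp h0 hS
  have e1 : axLoop n (-(b (s + j) (s + j))) p (0 :: p) = axpy (-(b (s + j) (s + j))) p (0 :: p) :=
    axLoop_eq _ _ _ _ (by omega) (by simp)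
  have e2 := toPoly_axpy (-(b (s + j) (s + j))) p (0 :: p) (by simp)
  have hp'l : p'.length ≤ j := by
    cases j with
    | zero => simp [h0 rfl]
    | succ i => exact (hS i rfl).1.le
  have e3 : axLoop n (-w) p' (axLoop n (-(b (s + j) (s + j))) p (0 :: p)) =
      axpy (-w) p' (axpy (-(b (s + j) (s + j))) p (0 :: p)) := by
    rw [e1]
    apply axLoop_eq _ _ _ _ (by omega)
    rw [e2.2]; simp; omega
  have e4 := toPoly_axpy (-w) p' (axpy (-(b (s + j) (s + j))) p (0 :: p)) (by rw [e2.2]; simp; omega)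
  refine ⟨?_, ?_, fun h => by omega, ?_⟩
  · show (axLoop n (-w) p' (axLoop n (-(b (s + j) (s + j))) p (0 :: p))).length = _
    rw [e3, e4.2, e2.2]; simp [hl]
  · show toPoly (axLoop n (-w) p' (axLoop n (-(b (s + j) (s + j))) p (0 :: p))) = _
    rw [e3, e4.1, e2.1]
    cases j with
    | zero =>
      rw [h0 rfl]
      have h11 : (blk b s (0 + 1)).charpoly = X - C (b s s) := charpoly_one b s
      rw [h11]
      simp only [toPoly, hp]
      have : (blk b s 0).charpoly = 1 := by simp [Matrix.charpoly]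
      rw [this]
      simp
      ring
    | succ i =>
      obtain ⟨-, hS2, hS3⟩ := hS i rfl
      rw [charpoly_blk_succ_succ b h1 h2, hS2, hS3]
      simp only [toPoly, hp]
      simp only [map_neg, map_mul, map_zero]
      have a1 : s + (i + 1) = s + i + 1 := by omega
      rw [a1]
      ring
  · intro i hi
    obtain rfl : i = j := by omega
    exact ⟨hl, hp, rfl⟩

theorem cp_iter (b : ℕ → ℕ → ℂ) (h1 : ∀ i j, i + 1 < j → b i j = 0) (h2 : ∀ i j, j + 1 < i → b i j = 0)
    (s n r : ℕ) : ∀ (j m : ℕ) (P : PS), CPI b s j P → j + r ≤ n → r ≤ m →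
      CPI b s (j + r) ((cpBody n)^[m] (els b (s + j) r, P)).2 := by
  induction r with
  | zero =>
    intro j m P hP _ _
    rw [iter_fix]
    · exact hP
    · rfl
  | succ r ih =>
    intro j m P hP hj hm
    cases m with
    | zero => simp at hm
    | succ m =>
      rw [Function.iterate_succ_apply, els_succ]
      show CPI b s (j + (r + 1)) ((cpBody n)^[m] (els b (s + j + 1) r,
        cpStep n P (b (s + j) (s + j), b (s + j) (s + j + 1), b (s + j + 1) (s + j)))).2
      have := ih (j + 1) m _ (cpStep_inv b h1 h2 s j n (by omega) P hP) (by omega) (by omega)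
      have a1 : j + (r + 1) = j + 1 + r := by omega
      have a2 : s + j + 1 = s + (j + 1) := by omega
      rw [a1, a2]
      exact this

theorem cpAll_spec (b : ℕ → ℕ → ℂ) (h1 : ∀ i j, i + 1 < j → b i j = 0) (h2 : ∀ i j, j + 1 < i → b i j = 0)
    (s n k : ℕ) (hk : k ≤ n) :
    (cpAll n (els b s k)).length = k + 1 ∧ toPoly (cpAll n (els b s k)) = (blk b s k).charpoly := by
  have := cp_iter b h1 h2 s n k 0 n ([1], [], 0) (CPI_init b s 0) (by omega) hk
  rw [zero_add] at this
  exact ⟨this.1, this.2.1⟩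

/-- simulation of the Euclidean step -/
def sim (s : List ℂ × List ℂ × ℂ) : List ℂ × List ℂ × ℂ × ℂ × ℂ :=
  (s.1, s.2.1, (s.1.length : ℂ) - 1, (s.2.1.length : ℂ) - 1, s.2.2)

theorem euRed_sim (n : ℕ) (f g : List ℂ) (acc : ℂ) (hg : g.length ≤ n + 1) (hfg : g.length ≤ f.length) :
    euRed n (sim (f, g, acc)) = sim (redStep (f, g, acc)) := by
  cases f with
  | nil => rfl
  | cons a fs =>
    cases g with
    | nil => rfl
    | cons b gs =>
      show (if 0 ≤ (-(nsq b)).re then _ else _) = _
      by_cases hb : b = 0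
      · rw [if_pos ((nsq_zero_iff b).mpr hb)]
        simp only [redStep, if_pos hb, sim]
        simp
      · rw [if_neg (fun h => hb ((nsq_zero_iff b).mp h))]
        simp only [redStep, if_neg hb, sim]
        have e1 : axLoop n (-(a / b)) gs fs = axpy (-(a / b)) gs fs :=
          axLoop_eq _ _ _ _ (by simpa using hg) (by simpa using hfg)
        have e2 := (toPoly_axpy (-(a / b)) gs fs (by simpa using hfg)).2
        rw [e1, e2]
        simp

theorem euBody_sim (n : ℕ) (f g : List ℂ) (acc : ℂ) (hf : f.length ≤ n + 1) (hg : g.length ≤ n + 1) :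
    euBody n (sim (f, g, acc)) = sim (euStep (f, g, acc)) := by
  have hcond : (0 ≤ (((f.length : ℂ) - 1) - ((g.length : ℂ) - 1)).re) ↔ g.length ≤ f.length := by
    have : (((f.length : ℂ) - 1) - ((g.length : ℂ) - 1)).re = (f.length : ℝ) - g.length := by
      simp
    rw [this, sub_nonneg]
    exact_mod_cast Iff.rfl
  simp only [euBody, euSwap, sim, euStep]
  by_cases h : g.length ≤ f.length
  · rw [if_pos (hcond.mpr h), if_pos h]
    exact euRed_sim n f g acc hg h
  · rw [if_neg (fun hc => h (hcond.mp hc)), if_neg h]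
    exact euRed_sim n g f acc hf (by omega)

theorem euStep_len (n : ℕ) (s : List ℂ × List ℂ × ℂ) (hf : s.1.length ≤ n + 1) (hg : s.2.1.length ≤ n + 1) :
    (euStep s).1.length ≤ n + 1 ∧ (euStep s).2.1.length ≤ n + 1 := by
  have hred : ∀ f g : List ℂ, ∀ acc : ℂ, f.length ≤ n + 1 → g.length ≤ n + 1 → g.length ≤ f.length →
      (redStep (f, g, acc)).1.length ≤ n + 1 ∧ (redStep (f, g, acc)).2.1.length ≤ n + 1 := by
    intro f g acc hf hg hfg
    cases f with
    | nil => exact ⟨hf, hg⟩
    | cons a fs =>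
      cases g with
      | nil => exact ⟨hf, hg⟩
      | cons b gs =>
        simp only [redStep]
        by_cases hb : b = 0
        · rw [if_pos hb]
          simp only [List.length_cons] at *
          omega
        · rw [if_neg hb]
          have e2 := (toPoly_axpy (-(a / b)) gs fs (by simpa using hfg)).2
          simp only [List.length_cons] at *
          rw [e2]
          omega
  obtain ⟨f, g, acc⟩ := s
  simp only at hf hg
  simp only [euStep]
  by_cases h : g.length ≤ f.length
  · rw [if_pos h]; exact hred f g acc hf hg h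
  · rw [if_neg h]; exact hred g f acc hg hf (by omega)

theorem eu_iter (n : ℕ) (m : ℕ) : ∀ s : List ℂ × List ℂ × ℂ, s.1.length ≤ n + 1 → s.2.1.length ≤ n + 1 →
    (euBody n)^[m] (sim s) = sim (euStep^[m] s) := by
  induction m with
  | zero => intro s _ _; rfl
  | succ m ih =>
    intro s hf hg
    rw [Function.iterate_succ_apply, Function.iterate_succ_apply]
    obtain ⟨f, g, acc⟩ := s
    rw [euBody_sim n f g acc hf hg]
    have := euStep_len n (f, g, acc) hf hg
    exact ih _ this.1 this.2

theorem eu_spec (n m k : ℕ) (hmk : m + k = n) (f g : List ℂ) (hf : f.length = m + 1) (hg : g.length = k + 1)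
    (hne : resultant (toPoly f) (toPoly g) m k ≠ 0) :
    ‖eu n f g m k‖ = ‖resultant (toPoly f) (toPoly g) m k‖ := by
  have h1 : (f, g, (m : ℂ), (k : ℂ), (1 : ℂ)) = sim (f, g, 1) := by
    simp [sim, hf, hg]
  rw [eu, h1, eu_iter n n (f, g, 1) (by simp; omega) (by simp; omega)]
  show ‖(euStep^[n] (f, g, 1)).2.2‖ = _
  subst hmk
  exact euclid_resultant f g m k hf hg hne

theorem sp_iter (a : ℕ → ℕ → ℂ) (z : ℂ) (h1 : ∀ i j, i + 1 < j → pert a z i j = 0)
    (h2 : ∀ i j, j + 1 < i → pert a z i j = 0) (n : ℕ)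
    (hne : ∀ k, 1 ≤ k → k < n → (syl a n k z).det ≠ 0) (r : ℕ) :
    ∀ (j m : ℕ) (P : PS) (acc : ℂ), CPI (pert a z) 0 j P → j + r = n → r ≤ m →
      ((spBody n (n : ℂ))^[m] (els (pert a z) j r, P, (j : ℂ), acc)).2.2.2 =
        acc * ∏ k ∈ Finset.Ico (j + 1) n, ((‖(syl a n k z).det‖ ^ 2 : ℝ) : ℂ) := by
  induction r with
  | zero =>
    intro j m P acc hP hj _
    rw [iter_fix]
    · rw [Finset.Ico_eq_empty (by omega)]; simp
    · rfl
  | succ r ih =>
    intro j m P acc hP hj hm
    cases m with
    | zero => simp at hm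
    | succ m =>
      have hstep := cpStep_inv (pert a z) h1 h2 0 j n (by omega) P hP
      rw [zero_add] at hstep
      rw [Function.iterate_succ_apply, els_succ]
      cases r with
      | zero =>
        have e0 : els (pert a z) (j + 1) 0 = [] := rfl
        rw [e0]
        show ((spBody n (n : ℂ))^[m] ([], cpStep n P _, (j : ℂ) + 1, acc)).2.2.2 = _
        rw [iter_fix]
        · rw [Finset.Ico_eq_empty (by omega)]; simp
        · rfl
      | succ r =>
        have hshow : spBody n (n : ℂ) ((pert a z j j, pert a z j (j + 1), pert a z (j + 1) j) ::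
            els (pert a z) (j + 1) (r + 1), P, (j : ℂ), acc) =
            (els (pert a z) (j + 1) (r + 1),
              cpStep n P (pert a z j j, pert a z j (j + 1), pert a z (j + 1) j), (j : ℂ) + 1,
              acc * nsq (eu n (cpStep n P (pert a z j j, pert a z j (j + 1), pert a z (j + 1) j)).1
                (cpAll n (els (pert a z) (j + 1) (r + 1))) ((j : ℂ) + 1) ((n : ℂ) - ((j : ℂ) + 1)))) := by
          rw [els_succ]; rfl
        rw [hshow]
        have hk1 : 1 ≤ j + 1 := by omega
        have hkn : j + 1 < n := by omega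
        have hdet := hne (j + 1) hk1 hkn
        have hns := norm_det_syl (j + 1) (n - (j + 1)) (blk (pert a z) 0 (j + 1)) (blk (pert a z) (j + 1) (n - (j + 1)))
        have hr : r + 1 = n - (j + 1) := by omega
        obtain ⟨hc1, hc2⟩ := cpAll_spec (pert a z) h1 h2 (j + 1) n (r + 1) (by omega)
        obtain ⟨hp1, hp2, -⟩ := hstep
        rw [hr] at hc1 hc2
        have hres : resultant (toPoly (cpStep n P (pert a z j j, pert a z j (j + 1), pert a z (j + 1) j)).1)
            (toPoly (cpAll n (els (pert a z) (j + 1) (n - (j + 1))))) (j + 1) (n - (j + 1)) ≠ 0 := by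
          rw [hp2, hc2]
          intro h0
          apply hdet
          rw [h0, norm_zero] at hns
          exact norm_eq_zero.mp hns
        have hes := eu_spec n (j + 1) (n - (j + 1)) (by omega) _ _ hp1 hc1 hres
        rw [hp2, hc2, ← hns] at hes
        have hcast1 : (j : ℂ) + 1 = ((j + 1 : ℕ) : ℂ) := by push_cast; ring
        have hcast2 : (n : ℂ) - ((j : ℂ) + 1) = ((n - (j + 1) : ℕ) : ℂ) := by
          rw [Nat.cast_sub (by omega)]; push_cast; ring
        have hstep' := cpStep_inv (pert a z) h1 h2 0 j n (by omega) P hP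
        rw [zero_add] at hstep'
        have := ih (j + 1) m _ (acc * nsq (eu n (cpStep n P (pert a z j j, pert a z j (j + 1), pert a z (j + 1) j)).1
                (cpAll n (els (pert a z) (j + 1) (r + 1))) ((j : ℂ) + 1) ((n : ℂ) - ((j : ℂ) + 1)))) hstep' (by omega) (by omega)
        rw [← hcast1] at this
        rw [this, Finset.prod_eq_prod_Ico_succ_bot (by omega : j + 1 < n), nsq_eq, hcast2, hcast1, hr, hes]
        rw [mul_assoc]
        rfl

theorem bigF_eq (a : ℕ → ℕ → ℂ) (z : ℂ) (h1 : ∀ i j, i + 1 < j → pert a z i j = 0)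
    (h2 : ∀ i j, j + 1 < i → pert a z i j = 0) (n : ℕ)
    (hne : ∀ k, 1 ≤ k → k < n → (syl a n k z).det ≠ 0) :
    bigF n (n : ℂ) (els (pert a z) 0 n) = ((∏ k ∈ Finset.Ico 1 n, ‖(syl a n k z).det‖ ^ 2 : ℝ) : ℂ) := by
  rw [bigF]
  have := sp_iter a z h1 h2 n hne n 0 n ([1], [], 0) 1 (CPI_init _ _ _) (by omega) le_rfl
  simp only [Nat.cast_zero, zero_add, one_mul] at this
  rw [this]
  push_cast
  rfl

theorem fz_eq (a : ℕ → ℕ → ℂ) (ha : HT a) (n : ℕ) (t y : ℝ) (hy : 0 < y) :
    fz n (natC n) (els a 0 n) ((t : ℂ) + y * Complex.I) =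
      ((∏ k ∈ Finset.Ico 1 n, ‖(syl a n k ((t : ℂ) + y * Complex.I)).det‖ ^ 2 : ℝ) : ℂ) := by
  have hlow : ∀ i j, j + 1 < i → a i j = 0 := by
    intro i j hij
    rw [ha.herm j i, ha.tri j i hij, map_zero]
  rw [fz, natC_eq, shift_eq]
  apply bigF_eq
  · intro i j hij
    simp only [pert]
    rw [ha.tri i j hij, if_neg (by omega), add_zero]
  · intro i j hij
    simp only [pert]
    rw [hlow i j hij, if_neg (by omega), add_zero]
  · intro k _ _ h0
    obtain ⟨τ, c, hc, h3, -⟩ := syl_roots a ha n k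
    have h4 := h3 t y
    rw [h0, norm_zero] at h4
    have h5 : 0 < c * ∏ r, ((t - τ r) ^ 2 + y ^ 2) := by
      apply mul_pos hc
      apply Finset.prod_pos
      intro r _
      positivity
    rw [← h4] at h5
    simp at h5

end Pool.Agent.TridiagGap
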