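import Pool.Agent.Helper872.RayI

open MeasureTheory Metric Set Filter Topology
open scoped InnerProductSpace ENNReal NNReal Pointwise

set_option linter.unusedSectionVars false

namespace Pool.Agent.Helper872

theorem cl_sum (M : ℕ) (y : ℝ) :
    ∑ j ∈ Finset.range M, cl (y - j) = min (max y 0) M := by
  induction M with
  | zero =>
    simp
  | succ n ih =>
    rw [Finset.sum_range_succ, ih]
    push_cast
    have hn : (0 : ℝ) ≤ n := Nat.cast_nonneg n
    rcases le_total y n with h | h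
    · rw [cl_of_nonpos (by linarith), add_zero]
      have h1 : max y 0 ≤ n := max_le h hn
      rw [min_eq_left h1, min_eq_left (by linarith)]
    · have h0 : max y 0 = y := max_eq_left (by linarith)
      rw [h0, min_eq_right h]
      rcases le_total y (n + 1) with h2 | h2
      · rw [cl_of_mem (by linarith) (by linarith), min_eq_left h2]; ring
      · rw [cl_of_one_le (by linarith), min_eq_right h2]

theorem cl_sum_of_mem {M : ℕ} {y : ℝ} (h0 : 0 ≤ y) (h1 : y ≤ M) :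
    ∑ j ∈ Finset.range M, cl (y - j) = y := by
  rw [cl_sum, max_eq_left h0, min_eq_left h1]

open Classical in
theorem count_sum {M : ℕ} {y : ℝ} (h0 : 0 ≤ y) (h1 : y ≤ M) :
    ∑ j ∈ Finset.range M, (if ((j : ℝ) + 1 ≤ y) then (1 : ℝ) else 0) = ⌊y⌋₊ := by
  rw [← Finset.sum_filter, Finset.sum_const, nsmul_eq_mul, mul_one]
  congr 1
  have : (Finset.range M).filter (fun j : ℕ => (j : ℝ) + 1 ≤ y) = Finset.range ⌊y⌋₊ := by
    ext j
    simp only [Finset.mem_filter, Finset.mem_range]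
    have h2 : ⌊y⌋₊ ≤ M := by
      have := Nat.floor_le_floor h1
      simpa using this
    constructor
    · rintro ⟨_, h⟩
      have : (j + 1 : ℕ) ≤ ⌊y⌋₊ := Nat.le_floor (by push_cast; exact h)
      omega
    · intro h
      refine ⟨by omega, ?_⟩
      have := Nat.floor_le h0
      have h3 : ((j + 1 : ℕ) : ℝ) ≤ (⌊y⌋₊ : ℝ) := by exact_mod_cast (by omega : j + 1 ≤ ⌊y⌋₊)
      push_cast at h3
      linarith
  rw [this, Finset.card_range]

open Classical in
theorem count_sum' {M : ℕ} {y : ℝ} (h0 : 0 ≤ y) (h1 : y ≤ M) :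
    ∑ t ∈ Finset.range (M + 1), (if ((t : ℝ) ≤ y) then (1 : ℝ) else 0) = ⌊y⌋₊ + 1 := by
  rw [Finset.sum_range_succ']
  have : ∑ k ∈ Finset.range M, (if (((k + 1 : ℕ) : ℝ) ≤ y) then (1 : ℝ) else 0) = ⌊y⌋₊ := by
    rw [← count_sum h0 h1]
    apply Finset.sum_congr rfl
    intro k _
    push_cast
    rfl
  rw [this]
  simp [h0]

open Classical in
theorem count_sum_refl {M : ℕ} {y : ℝ} (h0 : 0 ≤ y) (h1 : y ≤ M) :
    ∑ t ∈ Finset.range (M + 1), (if ((M : ℝ) - t ≤ y) then (1 : ℝ) else 0) = ⌊y⌋₊ + 1 := by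
  rw [← count_sum' h0 h1, ← Finset.sum_range_reflect]
  apply Finset.sum_congr rfl
  intro k hk
  rw [Finset.mem_range] at hk
  have : ((M + 1 - 1 - k : ℕ) : ℝ) = M - k := by
    have : k ≤ M := by omega
    rw [Nat.add_sub_cancel, Nat.cast_sub this]
  rw [this]
  have e : (M : ℝ) - (M - k) = k := by ring
  rw [e]

open Classical in
theorem count_section {M : ℕ} {z w : ℝ} (hz0 : 0 ≤ z) (hzM : z ≤ M) (hw0 : 0 ≤ w) (hwM : w ≤ M)
    (hzw : M ≤ z + w) :
    ∑ t ∈ Finset.range (M + 1), (if ((t : ℝ) ≤ z ∧ (M : ℝ) - t ≤ w) then (1 : ℝ) else 0) =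
      ⌊z⌋₊ + ⌊w⌋₊ - M + 1 := by
  have h : ∀ t ∈ Finset.range (M + 1), (if ((t : ℝ) ≤ z ∧ (M : ℝ) - t ≤ w) then (1 : ℝ) else 0) =
      (if ((t : ℝ) ≤ z) then (1 : ℝ) else 0) + (if ((M : ℝ) - t ≤ w) then (1 : ℝ) else 0) - 1 := by
    intro t _
    by_cases h1 : (t : ℝ) ≤ z <;> by_cases h2 : (M : ℝ) - t ≤ w
    · simp [h1, h2]
    · simp [h1, h2]
    · simp [h1, h2]
    · exfalso; push Not at h1 h2; linarith
  rw [Finset.sum_congr rfl h, Finset.sum_sub_distrib, Finset.sum_add_distrib,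
    count_sum' hz0 hzM, count_sum_refl hw0 hwM]
  simp
  ring

open Classical in
noncomputable def term (ρ z zρ : ℝ) (j : ℕ) : ℝ :=
  if (j : ℝ) + 1 ≤ z then 0 else
    if (j : ℝ) ≤ z then 2 * ρ * cl (z - j) + max 0 (cl (zρ - j) - cl (z - j) - ρ)
    else cl (zρ - j)

theorem term_nonneg {ρ : ℝ} (hρ : 0 ≤ ρ) (z zρ : ℝ) (j : ℕ) : 0 ≤ term ρ z zρ j := by
  unfold term
  have := cl_nonneg (z - j)
  have := cl_nonneg (zρ - j)
  split_ifs
  · exact le_rfl
  · positivity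
  · assumption

theorem term_sum {ρ : ℝ} (hρ : 0 ≤ ρ) {M : ℕ} {z zρ : ℝ} (hz0 : 0 ≤ z) (hzz : z ≤ zρ)
    (hzM : zρ ≤ M) :
    ∑ j ∈ Finset.range M, term ρ z zρ j ≤
      2 * ρ * (z - ⌊z⌋₊) + max 0 (zρ - z - ρ) + ρ * (⌊zρ⌋₊ - ⌊z⌋₊) := by
  classical
  set k := ⌊z⌋₊ with hk
  have hk1 : (k : ℝ) ≤ z := Nat.floor_le hz0
  have hk2 : z < k + 1 := Nat.lt_floor_add_one z
  set b : ℝ := 2 * ρ * (z - k) - min (cl (zρ - k) - (z - k)) ρ with hb
  have hclz : cl (z - k) = z - k := cl_of_mem (by linarith) (by linarith)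
  have hterm : ∀ j ∈ Finset.range M,
      term ρ z zρ j ≤ (cl (zρ - j) - cl (z - j)) + (if j = k then b else 0) := by
    intro j _
    rcases lt_trichotomy j k with h | h | h
    · have h1 : (j : ℝ) + 1 ≤ z := by
        have : ((j + 1 : ℕ) : ℝ) ≤ k := by exact_mod_cast h
        push_cast at this; linarith
      unfold term
      rw [if_pos h1, if_neg (by omega)]
      have := cl_mono (show z - (j : ℝ) ≤ zρ - j by linarith)
      linarith
    · subst h
      unfold term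
      rw [if_neg (by linarith), if_pos hk1, if_pos rfl, hclz, hb]
      have : max 0 (cl (zρ - k) - (z - k) - ρ) =
          cl (zρ - k) - (z - k) - min (cl (zρ - k) - (z - k)) ρ := by
        rcases le_total (cl (zρ - k) - (z - k)) ρ with h | h
        · rw [min_eq_left h, max_eq_left (by linarith)]; ring
        · rw [min_eq_right h, max_eq_right (by linarith)]
      rw [this]
      linarith
    · have h1 : z < j := by
        have : ((k + 1 : ℕ) : ℝ) ≤ j := by exact_mod_cast h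
        push_cast at this; linarith
      unfold term
      rw [if_neg (by linarith), if_neg (by linarith), if_neg (by omega)]
      rw [cl_of_nonpos (show z - (j : ℝ) ≤ 0 by linarith)]
      linarith
  have hsum := Finset.sum_le_sum hterm
  rw [Finset.sum_add_distrib, Finset.sum_sub_distrib, cl_sum_of_mem (by linarith) hzM,
    cl_sum_of_mem hz0 (by linarith), Finset.sum_ite_eq'] at hsum
  have hkρ : k ≤ ⌊zρ⌋₊ := Nat.floor_le_floor hzz
  have hkρ' : (k : ℝ) ≤ (⌊zρ⌋₊ : ℝ) := by exact_mod_cast hkρ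
  by_cases hkM : k ∈ Finset.range M
  · rw [if_pos hkM] at hsum
    refine hsum.trans ?_
    rcases lt_or_ge zρ (k + 1) with h | h
    · have hcl : cl (zρ - k) = zρ - k := cl_of_mem (by linarith) (by linarith)
      rw [hb, hcl]
      have e : zρ - (k : ℝ) - (z - k) = zρ - z := by ring
      rw [e]
      have h3 : 0 ≤ ρ * ((⌊zρ⌋₊ : ℝ) - k) := mul_nonneg hρ (by linarith)
      rcases le_total (zρ - z) ρ with h | h
      · rw [min_eq_left h, max_eq_left (by linarith)]; linarith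
      · rw [min_eq_right h, max_eq_right (by linarith)]; linarith
    · have h1 : (k + 1 : ℕ) ≤ ⌊zρ⌋₊ := Nat.le_floor (by push_cast; exact h)
      have h2 : (k : ℝ) + 1 ≤ (⌊zρ⌋₊ : ℝ) := by exact_mod_cast h1
      have h3 : ρ ≤ ρ * ((⌊zρ⌋₊ : ℝ) - k) := by nlinarith
      have h4 : 0 ≤ min (cl (zρ - k) - (z - k)) ρ := by
        apply le_min _ hρ
        have := cl_mono (show z - (k : ℝ) ≤ zρ - k by linarith)
        rw [hclz] at this
        linarith
      have h5 := le_max_right 0 (zρ - z - ρ)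
      rw [hb]
      linarith
  · rw [if_neg hkM] at hsum
    rw [Finset.mem_range, not_lt] at hkM
    have h1 : (M : ℝ) ≤ k := by exact_mod_cast hkM
    have h2 : 0 ≤ ρ * ((⌊zρ⌋₊ : ℝ) - k) := mul_nonneg hρ (by linarith)
    have h3 : 0 ≤ 2 * ρ * (z - k) := mul_nonneg (by linarith) (by linarith)
    have h4 := le_max_left 0 (zρ - z - ρ)
    linarith

/-- the pointwise identity over points of the base -/
theorem pointwise_base {ρ : ℝ} (hρ : 0 ≤ ρ) {M : ℕ} {z zρ w wρ : ℝ} (hz0 : 0 ≤ z) (hzz : z ≤ zρ)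
    (hzM : zρ ≤ M) (hw0 : 0 ≤ w) (hww : w ≤ wρ) (hwM : wρ ≤ M) :
    2 * ρ * ((⌊z⌋₊ : ℝ) + ⌊w⌋₊ - M + 1) + ((⌊zρ⌋₊ : ℝ) + ⌊wρ⌋₊ - M + 1) + (z + w - M) + 1
      + ∑ j ∈ Finset.range M, term ρ z zρ j + ∑ j ∈ Finset.range M, term ρ w wρ j ≤
    2 * ρ * (z + w - M) + (max (z + ρ) zρ + max (w + ρ) wρ - M) + 1
      + ((⌊z⌋₊ : ℝ) + ⌊w⌋₊ - M + 1)
      + (1 + ρ) * (((⌊zρ⌋₊ : ℝ) - ⌊z⌋₊) + ((⌊wρ⌋₊ : ℝ) - ⌊w⌋₊)) := by
  have h1 := term_sum hρ hz0 hzz hzM
  have h2 := term_sum hρ hw0 hww hwM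
  have e1 : max (z + ρ) zρ = z + ρ + max 0 (zρ - z - ρ) := by
    rcases le_total (z + ρ) zρ with h | h
    · rw [max_eq_right h, max_eq_right (by linarith)]; ring
    · rw [max_eq_left h, max_eq_left (by linarith)]; ring
  have e2 : max (w + ρ) wρ = w + ρ + max 0 (wρ - w - ρ) := by
    rcases le_total (w + ρ) wρ with h | h
    · rw [max_eq_right h, max_eq_right (by linarith)]; ring
    · rw [max_eq_left h, max_eq_left (by linarith)]; ring
  rw [e1, e2]
  linarith

end Pool.Agent.Helper872
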