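import Pool.Agent.Helper872.Limit

open MeasureTheory Metric Set Filter Topology
open scoped InnerProductSpace ENNReal NNReal Pointwise

set_option linter.unusedSectionVars false

namespace Pool.Agent.Helper872

/-- distance from `x` to the interval `[u, v]` -/
noncomputable def offd (u v x : ℝ) : ℝ := max (x - v) 0 + max (u - x) 0

theorem offd_measurable (u v : ℝ) : Measurable (offd u v) := by
  unfold offd; fun_prop

theorem offd_nonneg (u v x : ℝ) : 0 ≤ offd u v x := by
  unfold offd; positivity

/-- squared-distance sublevel volume for a box -/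
noncomputable def AA (n : ℕ) (u v : Fin n → ℝ) (s : ℝ) : ℝ≥0∞ :=
  volume {x : EuclideanSpace ℝ (Fin n) | ∑ i, offd (u i) (v i) (x i) ^ 2 ≤ s}

theorem AA_mono (n : ℕ) (u v : Fin n → ℝ) : Monotone (AA n u v) := by
  intro s t hst
  exact measure_mono fun x hx => le_trans hx hst

theorem AA_measurable (n : ℕ) (u v : Fin n → ℝ) : Measurable (AA n u v) :=
  (AA_mono n u v).measurable

theorem AA_set_meas (n : ℕ) (u v : Fin n → ℝ) (s : ℝ) :
    MeasurableSet {x : EuclideanSpace ℝ (Fin n) | ∑ i, offd (u i) (v i) (x i) ^ 2 ≤ s} := by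
  apply measurableSet_le _ measurable_const
  apply Finset.measurable_sum
  intro i _
  have h := offd_measurable (u i) (v i)
  have h2 : Measurable fun x : EuclideanSpace ℝ (Fin n) => x i :=
    (by fun_prop : Continuous fun x : EuclideanSpace ℝ (Fin n) => x i).measurable
  exact (h.comp h2).pow_const 2

theorem AA_fubini (n : ℕ) (u v : Fin (n + 1) → ℝ) (s : ℝ) :
    AA (n + 1) u v s = ∫⁻ t : ℝ, AA n (fun i => u i.succ) (fun i => v i.succ)
      (s - offd (u 0) (v 0) t ^ 2) := by
  have hm := AA_set_meas (n + 1) u v s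
  unfold AA
  rw [← (psi_measurePreserving n 0).measure_preimage hm.nullMeasurableSet,
    Measure.prod_apply_symm (hm.preimage (psi_continuous n 0).measurable)]
  apply lintegral_congr
  intro t
  congr 1
  ext x
  simp only [mem_preimage, mem_setOf_eq, Fin.sum_univ_succ, psi_zero, psi_succ, add_zero]
  constructor <;> intro h <;> linarith

theorem AA_split (n : ℕ) (u v : Fin n → ℝ) (s : ℝ) {a b : ℝ} (hab : a ≤ b) :
    ∫⁻ t : ℝ, AA n u v (s - offd a b t ^ 2) =
      ENNReal.ofReal (b - a) * AA n u v s + ∫⁻ w : ℝ, AA n u v (s - w ^ 2) := by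
  have hU : (univ : Set ℝ) = Iio a ∪ (Icc a b ∪ Ioi b) := by
    ext t
    simp only [mem_univ, mem_union, mem_Iio, mem_Icc, mem_Ioi, true_iff]
    rcases lt_or_ge t a with h | h
    · left; exact h
    · right
      rcases le_or_gt t b with h' | h'
      · left; exact ⟨h, h'⟩
      · right; exact h'
  have hd1 : Disjoint (Iio a) (Icc a b ∪ Ioi b) := by
    rw [Set.disjoint_left]
    rintro t h1 (h2 | h2)
    · exact absurd h1 (not_lt.2 h2.1)
    · exact absurd (lt_of_lt_of_le h1 hab) (not_lt.2 (le_of_lt h2))
  have hd2 : Disjoint (Icc a b) (Ioi b) := by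
    rw [Set.disjoint_left]
    intro t h1 h2
    exact absurd h1.2 (not_le.2 h2)
  have e1 : ∫⁻ t in Icc a b, AA n u v (s - offd a b t ^ 2) = ENNReal.ofReal (b - a) * AA n u v s := by
    have : ∫⁻ t in Icc a b, AA n u v (s - offd a b t ^ 2) = ∫⁻ t in Icc a b, AA n u v s := by
      apply setLIntegral_congr_fun measurableSet_Icc
      intro t ht
      have h0 : offd a b t = 0 := by
        unfold offd
        rw [max_eq_right (by linarith [ht.2]), max_eq_right (by linarith [ht.1])]
        ring
      simp [h0]
    rw [this, setLIntegral_const, Real.volume_Icc, mul_comm]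
  have e2 : ∫⁻ t in Ioi b, AA n u v (s - offd a b t ^ 2) = ∫⁻ w in Ioi (0 : ℝ), AA n u v (s - w ^ 2) := by
    have h1 : ∫⁻ t in Ioi b, AA n u v (s - offd a b t ^ 2) =
        ∫⁻ t in Ioi b, AA n u v (s - (t - b) ^ 2) := by
      apply setLIntegral_congr_fun measurableSet_Ioi
      intro t ht
      have ht' : b < t := ht
      have h0 : offd a b t = t - b := by
        unfold offd
        rw [max_eq_left (by linarith), max_eq_right (by linarith)]
        ring
      simp [h0]
    rw [h1, ← lintegral_indicator measurableSet_Ioi, ← lintegral_indicator measurableSet_Ioi]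
    rw [← lintegral_sub_right_eq_self (μ := (volume : Measure ℝ))
      ((Ioi (0 : ℝ)).indicator fun w => AA n u v (s - w ^ 2)) b]
    apply lintegral_congr
    intro t
    by_cases h : b < t
    · have h' : t - b ∈ Ioi (0 : ℝ) := by rw [mem_Ioi]; linarith
      rw [indicator_of_mem (show t ∈ Ioi b from h), indicator_of_mem h']
    · have h' : t - b ∉ Ioi (0 : ℝ) := by rw [mem_Ioi]; linarith
      rw [indicator_of_notMem (show t ∉ Ioi b from h), indicator_of_notMem h']
  have e3 : ∫⁻ t in Iio a, AA n u v (s - offd a b t ^ 2) = ∫⁻ w in Iio (0 : ℝ), AA n u v (s - w ^ 2) := by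
    have h1 : ∫⁻ t in Iio a, AA n u v (s - offd a b t ^ 2) =
        ∫⁻ t in Iio a, AA n u v (s - (t - a) ^ 2) := by
      apply setLIntegral_congr_fun measurableSet_Iio
      intro t ht
      have ht' : t < a := ht
      have h0 : offd a b t = a - t := by
        unfold offd
        rw [max_eq_right (by linarith), max_eq_left (by linarith)]
        ring
      have h2 : (a - t) ^ 2 = (t - a) ^ 2 := by ring
      simp [h0, h2]
    rw [h1, ← lintegral_indicator measurableSet_Iio, ← lintegral_indicator measurableSet_Iio]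
    rw [← lintegral_sub_right_eq_self (μ := (volume : Measure ℝ))
      ((Iio (0 : ℝ)).indicator fun w => AA n u v (s - w ^ 2)) a]
    apply lintegral_congr
    intro t
    by_cases h : t < a
    · have h' : t - a ∈ Iio (0 : ℝ) := by rw [mem_Iio]; linarith
      rw [indicator_of_mem (show t ∈ Iio a from h), indicator_of_mem h']
    · have h' : t - a ∉ Iio (0 : ℝ) := by rw [mem_Iio]; linarith
      rw [indicator_of_notMem (show t ∉ Iio a from h), indicator_of_notMem h']
  rw [← setLIntegral_univ, hU, lintegral_union (measurableSet_Icc.union measurableSet_Ioi) hd1,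
    lintegral_union measurableSet_Ioi hd2, e1, e2, e3]
  have hd3 : Disjoint (Iio (0 : ℝ)) (Ici 0) := by
    rw [Set.disjoint_left]
    intro t h1 h2
    have h1' : t < 0 := h1
    have h2' : 0 ≤ t := h2
    linarith
  have e4 : ∫⁻ w : ℝ, AA n u v (s - w ^ 2) =
      (∫⁻ w in Iio (0 : ℝ), AA n u v (s - w ^ 2)) + (∫⁻ w in Ioi (0 : ℝ), AA n u v (s - w ^ 2)) := by
    rw [← setLIntegral_univ, ← Iio_union_Ici (a := (0 : ℝ)),
      lintegral_union measurableSet_Ici hd3,
      setLIntegral_congr (Ioi_ae_eq_Ici (a := (0 : ℝ))).symm]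
  rw [e4]
  ring

theorem AA_succ (n : ℕ) (u v : Fin (n + 1) → ℝ) (s : ℝ) (h : u 0 ≤ v 0) :
    AA (n + 1) u v s = ENNReal.ofReal (v 0 - u 0) *
      AA n (fun i => u i.succ) (fun i => v i.succ) s +
      ∫⁻ w : ℝ, AA n (fun i => u i.succ) (fun i => v i.succ) (s - w ^ 2) := by
  rw [AA_fubini, AA_split _ _ _ _ h]

/-- volume of a Euclidean ball of squared radius `s` -/
noncomputable def bb (n : ℕ) (s : ℝ) : ℝ≥0∞ := AA n 0 0 s

theorem bb_succ (n : ℕ) (s : ℝ) : bb (n + 1) s = ∫⁻ w : ℝ, bb n (s - w ^ 2) := by
  unfold bb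
  rw [AA_succ _ _ _ _ (by simp)]
  simp only [Pi.zero_apply, sub_self, ENNReal.ofReal_zero, zero_mul, zero_add]
  rfl

open Polynomial in
theorem AA_formula : ∀ (n : ℕ) (u v : Fin n → ℝ), (∀ i, u i ≤ v i) → ∀ s : ℝ,
    AA n u v s = ∑ k ∈ Finset.range (n + 1),
      ENNReal.ofReal ((∏ i, (X + C (v i - u i)) : ℝ[X]).coeff k) * bb k s := by
  intro n
  induction n with
  | zero =>
    intro u v _ s
    simp only [zero_add, Finset.range_one, Finset.sum_singleton, Finset.univ_eq_empty,
      Finset.prod_empty, coeff_one_zero, ENNReal.ofReal_one, one_mul]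
    unfold bb AA
    simp
  | succ n ih =>
    intro u v huv s
    set P : ℝ[X] := ∏ i : Fin n, (X + C (v i.succ - u i.succ)) with hP
    have hPnn : ∀ k, 0 ≤ P.coeff k := by
      intro k
      have : ∀ (m : ℕ) (w : Fin m → ℝ), (∀ i, 0 ≤ w i) → ∀ k,
          0 ≤ ((∏ i, (X + C (w i)) : ℝ[X])).coeff k := by
        intro m
        induction m with
        | zero =>
          intro w _ k
          simp only [Finset.univ_eq_empty, Finset.prod_empty, coeff_one]
          split_ifs <;> norm_num
        | succ m ihm =>
          intro w hw k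
          rw [Fin.prod_univ_succ, add_mul, coeff_add, coeff_C_mul]
          have h1 := ihm (fun i => w i.succ) (fun i => hw _) k
          have h2 : 0 ≤ (X * ∏ i : Fin m, (X + C (w i.succ)) : ℝ[X]).coeff k := by
            rcases k with _ | k
            · simp
            · rw [coeff_X_mul]
              exact ihm (fun i => w i.succ) (fun i => hw _) k
          have h3 := mul_nonneg (hw 0) h1
          linarith
      exact this n _ (fun i => by linarith [huv i.succ]) k
    have hPtop : P.coeff (n + 1) = 0 := by
      apply coeff_eq_zero_of_natDegree_lt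
      have : P.natDegree = n := by
        rw [hP, natDegree_prod_of_monic _ _ (fun i _ => monic_X_add_C _)]
        simp only [natDegree_X_add_C, Finset.sum_const, Finset.card_univ, Fintype.card_fin,
          smul_eq_mul, mul_one]
      omega
    rw [AA_succ _ _ _ _ (huv 0), ih _ _ (fun i => huv _) s]
    have hint : ∫⁻ w : ℝ, AA n (fun i => u i.succ) (fun i => v i.succ) (s - w ^ 2) =
        ∑ k ∈ Finset.range (n + 1), ENNReal.ofReal (P.coeff k) * bb (k + 1) s := by
      have hmk : ∀ k, Measurable fun w : ℝ => bb k (s - w ^ 2) := by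
        intro k
        exact (AA_measurable k 0 0).comp (by fun_prop)
      have : ∀ w : ℝ, AA n (fun i => u i.succ) (fun i => v i.succ) (s - w ^ 2) =
          ∑ k ∈ Finset.range (n + 1), ENNReal.ofReal (P.coeff k) * bb k (s - w ^ 2) := by
        intro w
        exact ih _ _ (fun i => huv _) (s - w ^ 2)
      simp only [this]
      rw [lintegral_finsetSum' _ (fun k _ => ((hmk k).const_mul _).aemeasurable)]
      apply Finset.sum_congr rfl
      intro k _
      rw [lintegral_const_mul _ (hmk k), bb_succ]
    rw [hint]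
    have hm0 : 0 ≤ v 0 - u 0 := by linarith [huv 0]
    have hc : ∀ k, (∏ i : Fin (n + 1), (X + C (v i - u i)) : ℝ[X]).coeff k =
        (X * P).coeff k + (v 0 - u 0) * P.coeff k := by
      intro k
      rw [Fin.prod_univ_succ, add_mul, coeff_add, coeff_C_mul]
    simp only [hc]
    rw [Finset.sum_range_succ' _ (n + 1)]
    simp only [coeff_X_mul, mul_coeff_zero, coeff_X_zero, zero_mul, zero_add]
    have e1 : ∀ k ∈ Finset.range (n + 1),
        ENNReal.ofReal (P.coeff k + (v 0 - u 0) * P.coeff (k + 1)) * bb (k + 1) s =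
        ENNReal.ofReal (P.coeff k) * bb (k + 1) s +
          ENNReal.ofReal (v 0 - u 0) * (ENNReal.ofReal (P.coeff (k + 1)) * bb (k + 1) s) := by
      intro k _
      rw [ENNReal.ofReal_add (hPnn k) (mul_nonneg hm0 (hPnn _)), ENNReal.ofReal_mul hm0]
      ring
    rw [Finset.sum_congr rfl e1, Finset.sum_add_distrib, ← Finset.mul_sum]
    have e2 : ∑ k ∈ Finset.range (n + 1), ENNReal.ofReal (P.coeff k) * bb k s =
        ∑ k ∈ Finset.range (n + 1), ENNReal.ofReal (P.coeff (k + 1)) * bb (k + 1) s +
          ENNReal.ofReal (P.coeff 0) * bb 0 s := by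
      rw [← Finset.sum_range_succ' (fun k => ENNReal.ofReal (P.coeff k) * bb k s),
        Finset.sum_range_succ _ (n + 1), hPtop]
      simp
    rw [e2, ENNReal.ofReal_mul hm0]
    ring

theorem thick_rbox {n : ℕ} {u v : Fin n → ℝ} (huv : ∀ i, u i ≤ v i) {ρ : ℝ} (hρ : 0 ≤ ρ) :
    thick ρ {x : EuclideanSpace ℝ (Fin n) | ∀ i, u i ≤ x i ∧ x i ≤ v i} =
      {x : EuclideanSpace ℝ (Fin n) | ∑ i, offd (u i) (v i) (x i) ^ 2 ≤ ρ ^ 2} := by
  ext x
  constructor
  · rintro ⟨y, hy, hxy⟩
    have h1 : ‖x - y‖ ^ 2 ≤ ρ ^ 2 := by gcongr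
    rw [EuclideanSpace.real_norm_sq_eq] at h1
    refine le_trans (Finset.sum_le_sum fun i _ => ?_) h1
    have hyi := hy i
    rw [PiLp.sub_apply]
    unfold offd
    rcases le_total (x i - v i) 0 with h2 | h2
    · rcases le_total (u i - x i) 0 with h3 | h3
      · rw [max_eq_right h2, max_eq_right h3]
        nlinarith [sq_nonneg (x i - y i)]
      · rw [max_eq_right h2, max_eq_left h3]
        nlinarith [hyi.1]
    · rcases le_total (u i - x i) 0 with h3 | h3
      · rw [max_eq_left h2, max_eq_right h3]
        nlinarith [hyi.2]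
      · have := huv i
        have e1 : x i - v i = 0 := by linarith
        have e2 : u i - x i = 0 := by linarith
        rw [e1, e2]
        simp only [max_self]
        nlinarith [sq_nonneg (x i - y i)]
  · intro hx
    have hx' : ∑ i, offd (u i) (v i) (x i) ^ 2 ≤ ρ ^ 2 := hx
    refine ⟨WithLp.toLp 2 (fun i => max (u i) (min (x i) (v i))), ?_, ?_⟩
    · intro i
      exact ⟨le_max_left _ _, max_le (huv i) (min_le_right _ _)⟩
    · have h1 : ‖x - WithLp.toLp 2 (fun i => max (u i) (min (x i) (v i)))‖ ^ 2 ≤ ρ ^ 2 := by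
        rw [EuclideanSpace.real_norm_sq_eq]
        refine le_trans (le_of_eq ?_) hx'
        apply Finset.sum_congr rfl
        intro i _
        rw [PiLp.sub_apply]
        simp only
        unfold offd
        have := huv i
        rcases le_total (x i - v i) 0 with h2 | h2
        · rcases le_total (u i - x i) 0 with h3 | h3
          · rw [max_eq_right h2, max_eq_right h3, min_eq_left (by linarith),
              max_eq_right (by linarith)]
            ring
          · rw [max_eq_right h2, max_eq_left h3, min_eq_left (by linarith),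
              max_eq_left (by linarith)]
            ring
        · rcases le_total (u i - x i) 0 with h3 | h3
          · rw [max_eq_left h2, max_eq_right h3, min_eq_right (by linarith),
              max_eq_right (by linarith)]
            ring
          · have e1 : x i = v i := by linarith
            have e2 : u i = x i := by linarith
            rw [e2, ← e1]
            simp
      exact le_of_sq_le_sq h1 hρ

theorem bb_sq (k : ℕ) {ρ : ℝ} (hρ : 0 ≤ ρ) :
    bb k (ρ ^ 2) = ENNReal.ofReal (ρ ^ k) * volume (closedBall (0 : EuclideanSpace ℝ (Fin k)) 1) := by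
  have h : bb k (ρ ^ 2) = volume (closedBall (0 : EuclideanSpace ℝ (Fin k)) ρ) := by
    unfold bb AA
    congr 1
    ext x
    have e : ∀ y : ℝ, offd 0 0 y ^ 2 = y ^ 2 := by
      intro y
      unfold offd
      rcases le_total y 0 with h | h
      · rw [max_eq_right (by linarith), max_eq_left (by linarith)]; ring
      · rw [max_eq_left (by linarith), max_eq_right (by linarith)]; ring
    simp only [Pi.zero_apply, e, mem_setOf_eq, mem_closedBall, dist_zero_right]
    rw [← EuclideanSpace.real_norm_sq_eq]
    constructor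
    · intro h; exact le_of_sq_le_sq h hρ
    · intro h; gcongr
  rw [h, Measure.addHaar_closedBall' _ _ hρ]
  simp

end Pool.Agent.Helper872
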