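import Pool.Agent.Helper872.Arith

open MeasureTheory Metric Set Filter Topology
open scoped InnerProductSpace ENNReal NNReal Pointwise

set_option linter.unusedSectionVars false

namespace Pool.Agent.Helper872

section Core

variable {E : Type*} [NormedAddCommGroup E] [InnerProductSpace ℝ E] [FiniteDimensional ℝ E]
  [MeasurableSpace E] [BorelSpace E]

variable {K : Set (E × ℝ)}

open Classical in
theorem ind_eq (S : Set E) (x : E) :
    (S.indicator (1 : E → ℝ≥0∞) x) = ENNReal.ofReal (if x ∈ S then 1 else 0) := by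
  by_cases h : x ∈ S
  · simp [h]
  · simp [h]

theorem fiber_eq_Icc (hK : IsCompact K) (hconv : Convex ℝ K) (M : ℝ) {x : E}
    (hx : x ∈ base K) :
    Prod.mk x ⁻¹' K = Icc (M - topf (flip M K) x) (topf K x) := by
  have hf := flip_compact hK M
  have hxf : x ∈ base (flip M K) := by rw [base_flip]; exact hx
  have h1 : (x, topf K x) ∈ K := topf_mem hK hx
  have h2 : (x, M - topf (flip M K) x) ∈ K := topf_mem hf hxf
  ext s
  constructor
  · intro hs
    have hs' : (x, s) ∈ K := hs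
    refine ⟨?_, le_topf hK hs'⟩
    have h3 : (x, M - s) ∈ flip M K := by
      change (x, M - (M - s)) ∈ K
      have : M - (M - s) = s := by ring
      rw [this]; exact hs'
    have := le_topf hf h3
    linarith
  · rintro ⟨ha, hb⟩
    change (x, s) ∈ K
    have hseg := hconv.segment_subset h2 h1
    apply hseg
    rw [segment_eq_image]
    rcases eq_or_lt_of_le (ha.trans hb) with he | hlt
    · refine ⟨0, by simp, ?_⟩
      have : s = M - topf (flip M K) x := le_antisymm (by linarith) ha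
      simp [this]
    · set u := (s - (M - topf (flip M K) x)) / (topf K x - (M - topf (flip M K) x)) with hu
      have hd : 0 < topf K x - (M - topf (flip M K) x) := by linarith
      refine ⟨u, ⟨div_nonneg (by linarith) hd.le, (div_le_one hd).2 (by linarith)⟩, ?_⟩
      ext
      · simp only [Prod.smul_mk, Prod.mk_add_mk]
        rw [← add_smul]; simp
      · simp only [Prod.smul_mk, Prod.mk_add_mk, smul_eq_mul]
        have : u * (topf K x - (M - topf (flip M K) x)) = s - (M - topf (flip M K) x) := by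
          rw [hu]; field_simp
        linarith

theorem fiber_empty {x : E} (hx : x ∉ base K) : Prod.mk x ⁻¹' K = ∅ := by
  ext s
  simp only [mem_preimage, mem_empty_iff_false, iff_false]
  intro h; exact hx ⟨s, h⟩

/-- the upper shells -/
def ush (ρ : ℝ) (K : Set (E × ℝ)) (j : ℕ) : Set E := thick ρ (up K (j + 1)) \ up K (j + 1)

theorem measurableSet_ush (hK : IsCompact K) (ρ : ℝ) (j : ℕ) : MeasurableSet (ush ρ K j) :=
  (isCompact_thick (up_compact hK _) ρ).isClosed.measurableSet.diff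
    (up_compact hK _).isClosed.measurableSet

theorem topf_le_topf_hthick (hK : IsCompact K) {ρ : ℝ} (hρ : 0 ≤ ρ) {x : E} (hx : x ∈ base K) :
    topf K x ≤ topf (hthick ρ K) x := by
  apply le_topf (hthick_compact hK ρ)
  exact ⟨x, by simpa using hρ, topf_mem hK hx⟩

theorem bounds_hthick {M ρ : ℝ} (hKM : ∀ q ∈ K, 0 ≤ q.2 ∧ q.2 ≤ M) :
    ∀ q ∈ hthick ρ K, 0 ≤ q.2 ∧ q.2 ≤ M := by
  rintro q ⟨x', _, h⟩
  exact hKM (x', q.2) h

theorem bounds_flip {M : ℝ} (hKM : ∀ q ∈ K, 0 ≤ q.2 ∧ q.2 ≤ M) :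
    ∀ q ∈ flip M K, 0 ≤ q.2 ∧ q.2 ≤ M := by
  intro q h
  have := hKM _ h
  simp only at this
  constructor <;> linarith [this.1, this.2]

open Classical in
/-- value of the upper ray functional over the base -/
theorem g_base (hK : IsCompact K) {ρ : ℝ} (hρ : 0 ≤ ρ) (M : ℕ) {x : E} (hx : x ∈ base K) :
    ∑ j ∈ Finset.range M, ((up K (j + 1))ᶜ).indicator (rayI K ρ j) x =
      ENNReal.ofReal (∑ j ∈ Finset.range M, term ρ (topf K x) (topf (hthick ρ K) x) j) := by
  rw [ENNReal.ofReal_sum_of_nonneg fun j _ => term_nonneg hρ _ _ j]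
  apply Finset.sum_congr rfl
  intro j _
  unfold term
  by_cases h : x ∈ up K (j + 1)
  · have h1 := ((mem_up_iff hK).1 h).2
    rw [indicator_of_notMem (by simpa using h), if_pos h1]; simp
  · have h1 : ¬ ((j : ℝ) + 1 ≤ topf K x) := fun h2 => h ((mem_up_iff hK).2 ⟨hx, h2⟩)
    rw [indicator_of_mem (by simpa using h), if_neg h1]
    unfold rayI
    by_cases h3 : x ∈ up K j
    · rw [if_pos h3, if_pos ((mem_up_iff hK).1 h3).2]
    · have h4 : ¬ ((j : ℝ) ≤ topf K x) := fun h2 => h3 ((mem_up_iff hK).2 ⟨hx, h2⟩)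
      rw [if_neg h3, if_neg h4, if_pos (subset_thick hρ _ hx)]

open Classical in
/-- value of the upper ray functional outside the base -/
theorem g_out (hK : IsCompact K) {ρ : ℝ} {M : ℕ} (hKM : ∀ q ∈ K, 0 ≤ q.2 ∧ q.2 ≤ (M : ℝ))
    {x : E} (hx : x ∉ base K) (hx' : x ∈ thick ρ (base K)) :
    ∑ j ∈ Finset.range M, ((up K (j + 1))ᶜ).indicator (rayI K ρ j) x =
      ENNReal.ofReal (topf (hthick ρ K) x) := by
  have hmem : (x, topf (hthick ρ K) x) ∈ hthick ρ K :=
    topf_mem (hthick_compact hK ρ) (by rw [base_hthick]; exact hx')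
  have hb := bounds_hthick hKM _ hmem
  simp only at hb
  rw [← cl_sum_of_mem hb.1 hb.2, ENNReal.ofReal_sum_of_nonneg fun j _ => cl_nonneg _]
  apply Finset.sum_congr rfl
  intro j _
  have h : ∀ t, x ∉ up K t := fun t h2 => hx ((mem_up_iff hK).1 h2).1
  rw [indicator_of_mem (by simpa using h _)]
  unfold rayI
  rw [if_neg (h _), if_pos hx']

theorem g_zero (hK : IsCompact K) {ρ : ℝ} (hρ : 0 ≤ ρ) (M : ℕ) {x : E}
    (hx' : x ∉ thick ρ (base K)) :
    ∑ j ∈ Finset.range M, ((up K (j + 1))ᶜ).indicator (rayI K ρ j) x = 0 := by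
  apply Finset.sum_eq_zero
  intro j _
  have hx : x ∉ base K := fun h => hx' (subset_thick hρ _ h)
  have h : ∀ t, x ∉ up K t := fun t h2 => hx ((mem_up_iff hK).1 h2).1
  rw [indicator_of_mem (by simpa using h _)]
  unfold rayI
  rw [if_neg (h _), if_neg hx']

open Classical in
theorem s_val (hK : IsCompact K) {ρ : ℝ} (hρ : 0 ≤ ρ) {M : ℕ}
    (hKM : ∀ q ∈ K, 0 ≤ q.2 ∧ q.2 ≤ (M : ℝ)) {x : E} (hx' : x ∈ thick ρ (base K)) :
    ∑ j ∈ Finset.range M, (ush ρ K j).indicator 1 x =
      ENNReal.ofReal ((⌊topf (hthick ρ K) x⌋₊ : ℝ) - (if x ∈ base K then (⌊topf K x⌋₊ : ℝ) else 0)) := by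
  have hmem : (x, topf (hthick ρ K) x) ∈ hthick ρ K :=
    topf_mem (hthick_compact hK ρ) (by rw [base_hthick]; exact hx')
  have hb := bounds_hthick hKM _ hmem
  simp only at hb
  have h1 : ∀ j ∈ Finset.range M, (ush ρ K j).indicator (1 : E → ℝ≥0∞) x =
      ENNReal.ofReal ((if ((j : ℝ) + 1 ≤ topf (hthick ρ K) x) then (1 : ℝ) else 0) -
        (if x ∈ base K then (if ((j : ℝ) + 1 ≤ topf K x) then (1 : ℝ) else 0) else 0)) := by
    intro j _
    have e1 : x ∈ thick ρ (up K (j + 1)) ↔ (j : ℝ) + 1 ≤ topf (hthick ρ K) x := by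
      rw [← up_hthick, mem_up_iff (hthick_compact hK ρ), base_hthick]
      simp [hx']
    have e2 : x ∈ up K (j + 1) ↔ x ∈ base K ∧ (j : ℝ) + 1 ≤ topf K x := mem_up_iff hK
    rw [ind_eq]
    unfold ush
    congr 1
    by_cases hxb : x ∈ base K
    · have h2 := topf_le_topf_hthick hK hρ hxb
      by_cases h3 : (j : ℝ) + 1 ≤ topf K x
      · have h4 : (j : ℝ) + 1 ≤ topf (hthick ρ K) x := h3.trans h2
        simp [e1, e2, hxb, h3, h4]
      · by_cases h4 : (j : ℝ) + 1 ≤ topf (hthick ρ K) x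
        · simp [e1, e2, hxb, h3, h4]
        · simp [e1, e2, hxb, h3, h4]
    · by_cases h4 : (j : ℝ) + 1 ≤ topf (hthick ρ K) x
      · simp [e1, e2, hxb, h4]
      · simp [e1, e2, hxb, h4]
  rw [Finset.sum_congr rfl h1, ← ENNReal.ofReal_sum_of_nonneg, Finset.sum_sub_distrib,
    count_sum hb.1 hb.2]
  · congr 2
    by_cases hxb : x ∈ base K
    · simp only [hxb, if_true]
      have hb' := hKM _ (topf_mem hK hxb)
      exact count_sum hb'.1 hb'.2
    · simp [hxb]
  · intro j _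
    by_cases hxb : x ∈ base K
    · have h2 := topf_le_topf_hthick hK hρ hxb
      simp only [hxb, if_true]
      split_ifs <;> linarith
    · simp only [hxb, if_false]
      split_ifs <;> norm_num

theorem s_zero (hK : IsCompact K) {ρ : ℝ} {M : ℕ} {x : E} (hx' : x ∉ thick ρ (base K)) :
    ∑ j ∈ Finset.range M, (ush ρ K j).indicator (1 : E → ℝ≥0∞) x = 0 := by
  apply Finset.sum_eq_zero
  intro j _
  apply indicator_of_notMem
  rintro ⟨h, -⟩
  apply hx'
  refine thick_mono ρ ?_ h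
  intro y hy
  exact ((mem_up_iff hK).1 hy).1

open Classical in
theorem sec_count (hK : IsCompact K) (hconv : Convex ℝ K) {M : ℕ}
    (hKM : ∀ q ∈ K, 0 ≤ q.2 ∧ q.2 ≤ (M : ℝ)) {x : E} (hx : x ∈ base K) :
    ∑ t ∈ Finset.range (M + 1), (sec K t).indicator (1 : E → ℝ≥0∞) x =
      ENNReal.ofReal ((⌊topf K x⌋₊ : ℝ) + ⌊topf (flip M K) x⌋₊ - M + 1) := by
  have hf := flip_compact hK (M : ℝ)
  have hxf : x ∈ base (flip (M : ℝ) K) := by rw [base_flip]; exact hx
  have hb1 := hKM _ (topf_mem hK hx)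
  have hb2 := bounds_flip hKM _ (topf_mem hf hxf)
  simp only at hb1 hb2
  have hI := fiber_eq_Icc hK hconv (M : ℝ) hx
  have hle : (M : ℝ) ≤ topf K x + topf (flip (M : ℝ) K) x := by
    have : (topf K x) ∈ Prod.mk x ⁻¹' K := topf_mem hK hx
    rw [hI] at this
    linarith [this.1]
  rw [← count_section hb1.1 hb1.2 hb2.1 hb2.2 hle, ENNReal.ofReal_sum_of_nonneg]
  · apply Finset.sum_congr rfl
    intro t _
    rw [ind_eq]
    congr 1
    have : x ∈ sec K t ↔ ((t : ℝ) ≤ topf K x ∧ (M : ℝ) - t ≤ topf (flip (M : ℝ) K) x) := by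
      have : x ∈ sec K t ↔ (t : ℝ) ∈ Prod.mk x ⁻¹' K := Iff.rfl
      rw [this, hI, mem_Icc]
      constructor
      · rintro ⟨h1, h2⟩; exact ⟨h2, by linarith⟩
      · rintro ⟨h1, h2⟩; exact ⟨by linarith, h1⟩
    simp only [this]
  · intro t _
    split_ifs <;> norm_num


/-- lower bound for the fibre of the enlarged body -/
theorem fiber_big (hK : IsCompact K) {ρ : ℝ} {M : ℕ}
    (T : Set (E × ℝ)) (hTconv : ∀ x, Convex ℝ (Prod.mk x ⁻¹' T))
    (hT1 : ∀ x x' s, (x', s) ∈ K → ‖x - x'‖ ≤ ρ → (x, s) ∈ T)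
    (hT2 : ∀ x s s', (x, s) ∈ K → |s' - s| ≤ ρ → (x, s') ∈ T) (hρ : 0 ≤ ρ) {x : E}
    (hx : x ∈ base K) :
    ENNReal.ofReal (max (topf K x + ρ) (topf (hthick ρ K) x) +
      max (topf (flip M K) x + ρ) (topf (hthick ρ (flip M K)) x) - M) ≤
      volume (Prod.mk x ⁻¹' T) := by
  have hf := flip_compact hK (M : ℝ)
  have hxf : x ∈ base (flip (M : ℝ) K) := by rw [base_flip]; exact hx
  have hxρ : x ∈ base (hthick ρ K) := by rw [base_hthick]; exact subset_thick hρ _ hx
  have hxfρ : x ∈ base (hthick ρ (flip (M : ℝ) K)) := by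
    rw [base_hthick]; exact subset_thick hρ _ hxf
  set A := max (topf K x + ρ) (topf (hthick ρ K) x) with hA
  set B := max (topf (flip M K) x + ρ) (topf (hthick ρ (flip M K)) x) with hB
  have hAT : A ∈ Prod.mk x ⁻¹' T := by
    change (x, A) ∈ T
    rcases max_choice (topf K x + ρ) (topf (hthick ρ K) x) with h | h
    · rw [hA, h]
      exact hT2 x _ _ (topf_mem hK hx) (by simp [abs_of_nonneg hρ])
    · rw [hA, h]
      obtain ⟨x', h1, h2⟩ := topf_mem (hthick_compact hK ρ) hxρ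
      exact hT1 x x' _ h2 h1
  have hBT : (M : ℝ) - B ∈ Prod.mk x ⁻¹' T := by
    change (x, (M : ℝ) - B) ∈ T
    rcases max_choice (topf (flip M K) x + ρ) (topf (hthick ρ (flip M K)) x) with h | h
    · rw [hB, h]
      refine hT2 x ((M : ℝ) - topf (flip M K) x) _ (topf_mem hf hxf) ?_
      have : (M : ℝ) - (topf (flip M K) x + ρ) - (M - topf (flip M K) x) = -ρ := by ring
      rw [this, abs_neg, abs_of_nonneg hρ]
    · rw [hB, h]
      obtain ⟨x', h1, h2⟩ := topf_mem (hthick_compact hf ρ) hxfρ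
      exact hT1 x x' _ h2 h1
  have hsub : Icc ((M : ℝ) - B) A ⊆ Prod.mk x ⁻¹' T := (hTconv x).ordConnected.out hBT hAT
  calc ENNReal.ofReal (A + B - M) = volume (Icc ((M : ℝ) - B) A) := by
        rw [Real.volume_Icc]; congr 1; ring
    _ ≤ volume (Prod.mk x ⁻¹' T) := measure_mono hsub

/-- lower bound for the fibre of the enlarged body outside the base -/
theorem fiber_big_out (hK : IsCompact K) {ρ : ℝ} {M : ℕ}
    (T : Set (E × ℝ)) (hTconv : ∀ x, Convex ℝ (Prod.mk x ⁻¹' T))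
    (hT1 : ∀ x x' s, (x', s) ∈ K → ‖x - x'‖ ≤ ρ → (x, s) ∈ T) {x : E}
    (hx : x ∈ thick ρ (base K)) :
    ENNReal.ofReal (topf (hthick ρ K) x + topf (hthick ρ (flip M K)) x - M) ≤
      volume (Prod.mk x ⁻¹' T) := by
  have hf := flip_compact hK (M : ℝ)
  have hxρ : x ∈ base (hthick ρ K) := by rw [base_hthick]; exact hx
  have hxfρ : x ∈ base (hthick ρ (flip (M : ℝ) K)) := by
    rw [base_hthick, base_flip]; exact hx
  set A := topf (hthick ρ K) x with hA
  set B := topf (hthick ρ (flip M K)) x with hB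
  have hAT : A ∈ Prod.mk x ⁻¹' T := by
    obtain ⟨x', h1, h2⟩ := topf_mem (hthick_compact hK ρ) hxρ
    exact hT1 x x' _ h2 h1
  have hBT : (M : ℝ) - B ∈ Prod.mk x ⁻¹' T := by
    obtain ⟨x', h1, h2⟩ := topf_mem (hthick_compact hf ρ) hxfρ
    exact hT1 x x' _ h2 h1
  have hsub : Icc ((M : ℝ) - B) A ⊆ Prod.mk x ⁻¹' T := (hTconv x).ordConnected.out hBT hAT
  calc ENNReal.ofReal (A + B - M) = volume (Icc ((M : ℝ) - B) A) := by
        rw [Real.volume_Icc]; congr 1; ring
    _ ≤ volume (Prod.mk x ⁻¹' T) := measure_mono hsub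

/-- left-hand functional -/
noncomputable def FL (K : Set (E × ℝ)) (ρ : ℝ) (M : ℕ) (x : E) : ℝ≥0∞ :=
  ENNReal.ofReal (2 * ρ) * ∑ t ∈ Finset.range (M + 1), (sec K t).indicator 1 x
    + ∑ t ∈ Finset.range (M + 1), (thick ρ (sec K t)).indicator 1 x
    + volume (Prod.mk x ⁻¹' K) + (base K).indicator 1 x

/-- right-hand functional -/
noncomputable def FR (K T : Set (E × ℝ)) (ρ : ℝ) (M : ℕ) (x : E) : ℝ≥0∞ :=
  ENNReal.ofReal (2 * ρ) * volume (Prod.mk x ⁻¹' K) + volume (Prod.mk x ⁻¹' T)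
    + (thick ρ (base K)).indicator 1 x + ∑ t ∈ Finset.range (M + 1), (sec K t).indicator 1 x

theorem pointwise (hK : IsCompact K) (hconv : Convex ℝ K) {ρ : ℝ} {M : ℕ}
    (hKM : ∀ q ∈ K, 0 ≤ q.2 ∧ q.2 ≤ (M : ℝ))
    (T : Set (E × ℝ)) (hTconv : ∀ x, Convex ℝ (Prod.mk x ⁻¹' T))
    (hT1 : ∀ x x' s, (x', s) ∈ K → ‖x - x'‖ ≤ ρ → (x, s) ∈ T)
    (hT2 : ∀ x s s', (x, s) ∈ K → |s' - s| ≤ ρ → (x, s') ∈ T) (hρ : 0 ≤ ρ) (x : E) :
    FL K ρ M x + ∑ j ∈ Finset.range M, ((up K (j + 1))ᶜ).indicator (rayI K ρ j) x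
      + ∑ j ∈ Finset.range M,
        ((up (flip M K) (j + 1))ᶜ).indicator (rayI (flip (M : ℝ) K) ρ j) x ≤
    FR K T ρ M x + ENNReal.ofReal (1 + ρ) * (∑ j ∈ Finset.range M, (ush ρ K j).indicator 1 x
      + ∑ j ∈ Finset.range M, (ush ρ (flip (M : ℝ) K) j).indicator 1 x) := by
  classical
  have hf := flip_compact hK (M : ℝ)
  have hfconv := flip_convex hconv (M : ℝ)
  have hfM := bounds_flip hKM
  have hKρ := hthick_compact hK ρ
  have hKρconv : Convex ℝ (hthick ρ K) := by
    rw [hthick_eq_add]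
    exact hconv.add ((convex_closedBall 0 ρ).prod (convex_singleton 0))
  have hKρM := bounds_hthick (ρ := ρ) hKM
  have hfff : topf (flip (M : ℝ) (hthick ρ K)) x = topf (hthick ρ (flip (M : ℝ) K)) x := by
    rw [hthick_flip]
  by_cases hx : x ∈ base K
  · have hxt : x ∈ thick ρ (base K) := subset_thick hρ _ hx
    have hxf : x ∈ base (flip (M : ℝ) K) := by rw [base_flip]; exact hx
    have hxft : x ∈ thick ρ (base (flip (M : ℝ) K)) := by rw [base_flip]; exact hxt
    have hxρ : x ∈ base (hthick ρ K) := by rw [base_hthick]; exact hxt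
    have hxfρ : x ∈ base (hthick ρ (flip (M : ℝ) K)) := by rw [base_hthick]; exact hxft
    -- real numbers
    have hz := hKM _ (topf_mem hK hx)
    have hw := hfM _ (topf_mem hf hxf)
    have hzρ := hKρM _ (topf_mem hKρ hxρ)
    have hwρ := bounds_hthick (ρ := ρ) hfM _ (topf_mem (hthick_compact hf ρ) hxfρ)
    simp only at hz hw hzρ hwρ
    have hzz := topf_le_topf_hthick hK hρ hx
    have hww := topf_le_topf_hthick hf hρ hxf
    have hIcc := fiber_eq_Icc hK hconv (M : ℝ) hx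
    have hle : (M : ℝ) ≤ topf K x + topf (flip (M : ℝ) K) x := by
      have : (topf K x) ∈ Prod.mk x ⁻¹' K := topf_mem hK hx
      rw [hIcc] at this
      linarith [this.1]
    have hlen : volume (Prod.mk x ⁻¹' K) =
        ENNReal.ofReal (topf K x + topf (flip (M : ℝ) K) x - M) := by
      rw [hIcc, Real.volume_Icc]; congr 1; ring
    have hN := sec_count hK hconv hKM hx
    have hNρ := sec_count hKρ hKρconv hKρM hxρ
    simp only [sec_hthick] at hNρ
    rw [hfff] at hNρ
    have hS1 := s_val hK hρ hKM hxt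
    have hS2 := s_val hf hρ hfM hxft
    rw [if_pos hx] at hS1
    rw [if_pos hxf] at hS2
    have hG1 := g_base hK hρ M hx
    have hG2 := g_base hf hρ M hxf
    have hbig := fiber_big (M := M) hK T hTconv hT1 hT2 hρ hx
    have hreal := pointwise_base hρ hz.1 hzz hzρ.2 hw.1 hww hwρ.2
    -- nonnegativity facts
    have hNnn : 0 ≤ (⌊topf K x⌋₊ : ℝ) + ⌊topf (flip (M : ℝ) K) x⌋₊ - M + 1 := by
      rw [← count_section hz.1 hz.2 hw.1 hw.2 hle]
      apply Finset.sum_nonneg; intro t _; split_ifs <;> norm_num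
    have hNρnn : 0 ≤ (⌊topf (hthick ρ K) x⌋₊ : ℝ) + ⌊topf (hthick ρ (flip (M : ℝ) K)) x⌋₊ - M + 1 := by
      have h1 : (⌊topf K x⌋₊ : ℝ) ≤ ⌊topf (hthick ρ K) x⌋₊ := by
        exact_mod_cast Nat.floor_le_floor hzz
      have h2 : (⌊topf (flip (M : ℝ) K) x⌋₊ : ℝ) ≤ ⌊topf (hthick ρ (flip (M : ℝ) K)) x⌋₊ := by
        exact_mod_cast Nat.floor_le_floor hww
      linarith
    have ht1 : 0 ≤ ∑ j ∈ Finset.range M, term ρ (topf K x) (topf (hthick ρ K) x) j :=
      Finset.sum_nonneg fun j _ => term_nonneg hρ _ _ j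
    have ht2 : 0 ≤ ∑ j ∈ Finset.range M,
        term ρ (topf (flip (M : ℝ) K) x) (topf (hthick ρ (flip (M : ℝ) K)) x) j :=
      Finset.sum_nonneg fun j _ => term_nonneg hρ _ _ j
    have hs1 : 0 ≤ (⌊topf (hthick ρ K) x⌋₊ : ℝ) - ⌊topf K x⌋₊ := by
      have h1 : (⌊topf K x⌋₊ : ℝ) ≤ ⌊topf (hthick ρ K) x⌋₊ := by
        exact_mod_cast Nat.floor_le_floor hzz
      linarith
    have hs2 : 0 ≤ (⌊topf (hthick ρ (flip (M : ℝ) K)) x⌋₊ : ℝ) - ⌊topf (flip (M : ℝ) K) x⌋₊ := by
      have h2 : (⌊topf (flip (M : ℝ) K) x⌋₊ : ℝ) ≤ ⌊topf (hthick ρ (flip (M : ℝ) K)) x⌋₊ := by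
        exact_mod_cast Nat.floor_le_floor hww
      linarith
    have hbignn : 0 ≤ max (topf K x + ρ) (topf (hthick ρ K) x) +
      max (topf (flip M K) x + ρ) (topf (hthick ρ (flip M K)) x) - M := by
      have h1 := le_max_left (topf K x + ρ) (topf (hthick ρ K) x)
      have h2 := le_max_left (topf (flip (M : ℝ) K) x + ρ) (topf (hthick ρ (flip (M : ℝ) K)) x)
      linarith
    unfold FL FR
    rw [hN, hNρ, hlen, hG1, hG2, hS1, hS2, indicator_of_mem hx, indicator_of_mem hxt]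
    simp only [Pi.one_apply]
    have one : (1 : ℝ≥0∞) = ENNReal.ofReal 1 := by simp
    calc _ = ENNReal.ofReal (2 * ρ * ((⌊topf K x⌋₊ : ℝ) + ⌊topf (flip (M : ℝ) K) x⌋₊ - M + 1)
              + ((⌊topf (hthick ρ K) x⌋₊ : ℝ) + ⌊topf (hthick ρ (flip (M : ℝ) K)) x⌋₊ - M + 1)
              + (topf K x + topf (flip (M : ℝ) K) x - M) + 1
              + ∑ j ∈ Finset.range M, term ρ (topf K x) (topf (hthick ρ K) x) j
              + ∑ j ∈ Finset.range M,
                term ρ (topf (flip (M : ℝ) K) x) (topf (hthick ρ (flip (M : ℝ) K)) x) j) := by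
          have hl : 0 ≤ topf K x + topf (flip (M : ℝ) K) x - M := by linarith
          rw [one, ← ENNReal.ofReal_mul (by positivity), ← ENNReal.ofReal_add (by positivity) hNρnn,
            ← ENNReal.ofReal_add (by positivity) hl, ← ENNReal.ofReal_add (by positivity) zero_le_one,
            ← ENNReal.ofReal_add (by positivity) ht1, ← ENNReal.ofReal_add (by positivity) ht2]
      _ ≤ ENNReal.ofReal (2 * ρ * (topf K x + topf (flip (M : ℝ) K) x - M)
              + (max (topf K x + ρ) (topf (hthick ρ K) x) +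
                max (topf (flip M K) x + ρ) (topf (hthick ρ (flip M K)) x) - M) + 1
              + ((⌊topf K x⌋₊ : ℝ) + ⌊topf (flip (M : ℝ) K) x⌋₊ - M + 1)
              + (1 + ρ) * (((⌊topf (hthick ρ K) x⌋₊ : ℝ) - ⌊topf K x⌋₊)
                + ((⌊topf (hthick ρ (flip (M : ℝ) K)) x⌋₊ : ℝ) - ⌊topf (flip (M : ℝ) K) x⌋₊))) :=
          ENNReal.ofReal_le_ofReal hreal
      _ = ENNReal.ofReal (2 * ρ) * ENNReal.ofReal (topf K x + topf (flip (M : ℝ) K) x - M)
              + ENNReal.ofReal (max (topf K x + ρ) (topf (hthick ρ K) x) +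
                max (topf (flip M K) x + ρ) (topf (hthick ρ (flip M K)) x) - M) + 1
              + ENNReal.ofReal ((⌊topf K x⌋₊ : ℝ) + ⌊topf (flip (M : ℝ) K) x⌋₊ - M + 1)
              + ENNReal.ofReal (1 + ρ) * (ENNReal.ofReal ((⌊topf (hthick ρ K) x⌋₊ : ℝ) - ⌊topf K x⌋₊)
                + ENNReal.ofReal ((⌊topf (hthick ρ (flip (M : ℝ) K)) x⌋₊ : ℝ)
                  - ⌊topf (flip (M : ℝ) K) x⌋₊)) := by
          have hl : 0 ≤ topf K x + topf (flip (M : ℝ) K) x - M := by linarith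
          rw [one, ← ENNReal.ofReal_mul (by positivity), ← ENNReal.ofReal_add (by positivity) hbignn,
            ← ENNReal.ofReal_add (by positivity) zero_le_one,
            ← ENNReal.ofReal_add (by positivity) hNnn, ← ENNReal.ofReal_add hs1 hs2,
            ← ENNReal.ofReal_mul (by positivity), ← ENNReal.ofReal_add (by positivity) (by positivity)]
      _ ≤ _ := by gcongr
  · by_cases hxt : x ∈ thick ρ (base K)
    · have hxf : x ∉ base (flip (M : ℝ) K) := by rw [base_flip]; exact hx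
      have hxft : x ∈ thick ρ (base (flip (M : ℝ) K)) := by rw [base_flip]; exact hxt
      have hxρ : x ∈ base (hthick ρ K) := by rw [base_hthick]; exact hxt
      have hxfρ : x ∈ base (hthick ρ (flip (M : ℝ) K)) := by rw [base_hthick]; exact hxft
      have hzρ := hKρM _ (topf_mem hKρ hxρ)
      have hwρ := bounds_hthick (ρ := ρ) hfM _ (topf_mem (hthick_compact hf ρ) hxfρ)
      simp only at hzρ hwρ
      have hIccρ := fiber_eq_Icc hKρ hKρconv (M : ℝ) hxρ
      rw [hfff] at hIccρ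
      have hleρ : (M : ℝ) ≤ topf (hthick ρ K) x + topf (hthick ρ (flip (M : ℝ) K)) x := by
        have : (topf (hthick ρ K) x) ∈ Prod.mk x ⁻¹' (hthick ρ K) := topf_mem hKρ hxρ
        rw [hIccρ] at this
        linarith [this.1]
      have hNρ := sec_count hKρ hKρconv hKρM hxρ
      simp only [sec_hthick] at hNρ
      rw [hfff] at hNρ
      have hS1 := s_val hK hρ hKM hxt
      have hS2 := s_val hf hρ hfM hxft
      rw [if_neg hx, sub_zero] at hS1
      rw [if_neg hxf, sub_zero] at hS2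
      have hG1 := g_out hK hKM hx hxt
      have hG2 := g_out hf hfM hxf hxft
      have hbig := fiber_big_out (M := M) hK T hTconv hT1 hxt
      have hNρnn : 0 ≤ (⌊topf (hthick ρ K) x⌋₊ : ℝ) + ⌊topf (hthick ρ (flip (M : ℝ) K)) x⌋₊ - M + 1 := by
        rw [← count_section hzρ.1 hzρ.2 hwρ.1 hwρ.2 hleρ]
        apply Finset.sum_nonneg; intro t _; split_ifs <;> norm_num
      have hsec : ∑ t ∈ Finset.range (M + 1), (sec K t).indicator (1 : E → ℝ≥0∞) x = 0 := by
        apply Finset.sum_eq_zero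
        intro t _
        apply indicator_of_notMem
        intro h; exact hx ⟨_, h⟩
      unfold FL FR
      rw [hsec, hNρ, fiber_empty hx, hG1, hG2, hS1, hS2, indicator_of_notMem hx,
        indicator_of_mem hxt]
      simp only [Pi.one_apply, mul_zero, zero_add, measure_empty, add_zero]
      have one : (1 : ℝ≥0∞) = ENNReal.ofReal 1 := by simp
      calc _ = ENNReal.ofReal (((⌊topf (hthick ρ K) x⌋₊ : ℝ) +
                ⌊topf (hthick ρ (flip (M : ℝ) K)) x⌋₊ - M + 1) + topf (hthick ρ K) x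
                + topf (hthick ρ (flip (M : ℝ) K)) x) := by
            rw [← ENNReal.ofReal_add hNρnn hzρ.1, ← ENNReal.ofReal_add (by linarith [hzρ.1]) hwρ.1]
        _ ≤ ENNReal.ofReal ((topf (hthick ρ K) x + topf (hthick ρ (flip (M : ℝ) K)) x - M) + 1
              + (1 + ρ) * ((⌊topf (hthick ρ K) x⌋₊ : ℝ)
                + (⌊topf (hthick ρ (flip (M : ℝ) K)) x⌋₊ : ℝ))) := by
            apply ENNReal.ofReal_le_ofReal
            have h1 : 0 ≤ (⌊topf (hthick ρ K) x⌋₊ : ℝ) := Nat.cast_nonneg _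
            have h2 : 0 ≤ (⌊topf (hthick ρ (flip (M : ℝ) K)) x⌋₊ : ℝ) := Nat.cast_nonneg _
            nlinarith
        _ = ENNReal.ofReal (topf (hthick ρ K) x + topf (hthick ρ (flip (M : ℝ) K)) x - M) + 1
              + ENNReal.ofReal (1 + ρ) * (ENNReal.ofReal (⌊topf (hthick ρ K) x⌋₊ : ℝ)
                + ENNReal.ofReal (⌊topf (hthick ρ (flip (M : ℝ) K)) x⌋₊ : ℝ)) := by
            rw [one, ← ENNReal.ofReal_add (by linarith) zero_le_one,
              ← ENNReal.ofReal_add (by positivity) (by positivity),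
              ← ENNReal.ofReal_mul (by positivity), ← ENNReal.ofReal_add (by linarith) (by positivity)]
        _ ≤ _ := by gcongr
    · have hxft : x ∉ thick ρ (base (flip (M : ℝ) K)) := by rw [base_flip]; exact hxt
      have hx' : x ∉ base K := fun h => hxt (subset_thick hρ _ h)
      rw [g_zero hK hρ M hxt, g_zero hf hρ M hxft]
      unfold FL
      have h1 : ∀ t : ℕ, (sec K t).indicator (1 : E → ℝ≥0∞) x = 0 := by
        intro t
        apply indicator_of_notMem
        intro h; exact hx' ⟨_, h⟩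
      have h2 : ∀ t : ℕ, (thick ρ (sec K t)).indicator (1 : E → ℝ≥0∞) x = 0 := by
        intro t
        apply indicator_of_notMem
        intro h; exact hxt (thick_mono ρ (show sec K t ⊆ base K from fun y hy => ⟨_, hy⟩) h)
      simp only [h1, h2, fiber_empty hx', indicator_of_notMem hx', Finset.sum_const_zero, mul_zero,
        measure_empty, add_zero]
      exact zero_le


theorem sum_ind_meas {ι : Type*} (s : Finset ι) (S : ι → Set E)
    (hS : ∀ i ∈ s, MeasurableSet (S i)) :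
    Measurable fun x => ∑ i ∈ s, (S i).indicator (1 : E → ℝ≥0∞) x := by
  apply Finset.measurable_sum
  intro i hi
  exact measurable_one.indicator (hS i hi)

theorem sum_ind_integral {ι : Type*} (s : Finset ι) (S : ι → Set E)
    (hS : ∀ i ∈ s, MeasurableSet (S i)) (μ : Measure E) :
    ∫⁻ x, ∑ i ∈ s, (S i).indicator (1 : E → ℝ≥0∞) x ∂μ = ∑ i ∈ s, μ (S i) := by
  rw [lintegral_finsetSum' _ fun i hi => (measurable_one.indicator (hS i hi)).aemeasurable]
  apply Finset.sum_congr rfl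
  intro i hi
  exact lintegral_indicator_one (hS i hi)

/-- the integrated inequality -/
theorem core (hK : IsCompact K) (hconv : Convex ℝ K) {ρ : ℝ} {M : ℕ}
    (hKM : ∀ q ∈ K, 0 ≤ q.2 ∧ q.2 ≤ (M : ℝ))
    (T : Set (E × ℝ)) (hTm : MeasurableSet T) (hTconv : ∀ x, Convex ℝ (Prod.mk x ⁻¹' T))
    (hT1 : ∀ x x' s, (x', s) ∈ K → ‖x - x'‖ ≤ ρ → (x, s) ∈ T)
    (hT2 : ∀ x s s', (x, s) ∈ K → |s' - s| ≤ ρ → (x, s') ∈ T) (hρ : 0 < ρ) (hρ1 : ρ ≤ 1)
    (μ : Measure E) [μ.IsAddHaarMeasure] :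
    ENNReal.ofReal (2 * ρ) * ∑ t ∈ Finset.range (M + 1), μ (sec K t)
      + ∑ t ∈ Finset.range (M + 1), μ (thick ρ (sec K t)) + (μ.prod volume) K + μ (base K) ≤
    ENNReal.ofReal (2 * ρ) * (μ.prod volume) K + (μ.prod volume) T + μ (thick ρ (base K))
      + ∑ t ∈ Finset.range (M + 1), μ (sec K t)
      + ENNReal.ofReal (2 * ρ) * (∑ j ∈ Finset.range M, μ (ush ρ K j)
        + ∑ j ∈ Finset.range M, μ (ush ρ (flip (M : ℝ) K) j)) := by
  have hf := flip_compact hK (M : ℝ)
  have hfconv := flip_convex hconv (M : ℝ)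
  have hKm : MeasurableSet K := hK.isClosed.measurableSet
  have hsecm : ∀ t ∈ Finset.range (M + 1), MeasurableSet (sec K (t : ℝ)) := fun t _ =>
    (sec_compact hK _).isClosed.measurableSet
  have hsecρm : ∀ t ∈ Finset.range (M + 1), MeasurableSet (thick ρ (sec K (t : ℝ))) := fun t _ =>
    (isCompact_thick (sec_compact hK _) ρ).isClosed.measurableSet
  have hbm : MeasurableSet (base K) := (base_compact hK).isClosed.measurableSet
  have hbρm : MeasurableSet (thick ρ (base K)) :=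
    (isCompact_thick (base_compact hK) ρ).isClosed.measurableSet
  have hush : ∀ j ∈ Finset.range M, MeasurableSet (ush ρ K j) := fun j _ =>
    measurableSet_ush hK ρ j
  have hushf : ∀ j ∈ Finset.range M, MeasurableSet (ush ρ (flip (M : ℝ) K) j) := fun j _ =>
    measurableSet_ush hf ρ j
  have hvK : Measurable fun x => (volume : Measure ℝ) (Prod.mk x ⁻¹' K) :=
    measurable_measure_prodMk_left hKm
  have hvT : Measurable fun x => (volume : Measure ℝ) (Prod.mk x ⁻¹' T) :=
    measurable_measure_prodMk_left hTm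
  have hg : ∀ j ∈ Finset.range M, Measurable (((up K (j + 1))ᶜ).indicator (rayI K ρ j)) := fun j _ =>
    (rayI_measurable hK ρ j).indicator (up_compact hK _).isClosed.measurableSet.compl
  have hgf : ∀ j ∈ Finset.range M,
      Measurable (((up (flip (M : ℝ) K) (j + 1))ᶜ).indicator (rayI (flip (M : ℝ) K) ρ j)) := fun j _ =>
    (rayI_measurable hf ρ j).indicator (up_compact hf _).isClosed.measurableSet.compl
  have m1 := sum_ind_meas _ _ hsecm
  have m2 := sum_ind_meas _ _ hsecρm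
  have m3 := sum_ind_meas _ _ hush
  have m4 := sum_ind_meas _ _ hushf
  have m5 : Measurable ((base K).indicator (1 : E → ℝ≥0∞)) := measurable_one.indicator hbm
  have m6 : Measurable ((thick ρ (base K)).indicator (1 : E → ℝ≥0∞)) :=
    measurable_one.indicator hbρm
  have m7 : Measurable fun x => ∑ j ∈ Finset.range M, ((up K (j + 1))ᶜ).indicator (rayI K ρ j) x :=
    Finset.measurable_sum _ hg
  have m8 : Measurable fun x => ∑ j ∈ Finset.range M,
      ((up (flip (M : ℝ) K) (j + 1))ᶜ).indicator (rayI (flip (M : ℝ) K) ρ j) x :=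
    Finset.measurable_sum _ hgf
  have hFL : ∫⁻ x, FL K ρ M x ∂μ =
      ENNReal.ofReal (2 * ρ) * ∑ t ∈ Finset.range (M + 1), μ (sec K t)
      + ∑ t ∈ Finset.range (M + 1), μ (thick ρ (sec K t)) + (μ.prod volume) K + μ (base K) := by
    unfold FL
    rw [lintegral_add_right _ m5, lintegral_add_right _ hvK, lintegral_add_right _ m2,
      lintegral_const_mul _ m1, sum_ind_integral _ _ hsecm, sum_ind_integral _ _ hsecρm,
      Measure.prod_apply hKm, lintegral_indicator_one hbm]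
  have hFR : ∫⁻ x, FR K T ρ M x ∂μ =
      ENNReal.ofReal (2 * ρ) * (μ.prod volume) K + (μ.prod volume) T + μ (thick ρ (base K))
      + ∑ t ∈ Finset.range (M + 1), μ (sec K t) := by
    unfold FR
    rw [lintegral_add_right _ m1, lintegral_add_right _ m6, lintegral_add_right _ hvT,
      lintegral_const_mul _ hvK, sum_ind_integral _ _ hsecm,
      Measure.prod_apply hKm, Measure.prod_apply hTm, lintegral_indicator_one hbρm]
  have hG1 : ENNReal.ofReal (1 - ρ) * ∑ j ∈ Finset.range M, μ (ush ρ K j) ≤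
      ∫⁻ x, ∑ j ∈ Finset.range M, ((up K (j + 1))ᶜ).indicator (rayI K ρ j) x ∂μ := by
    rw [lintegral_finsetSum' _ fun j hj => (hg j hj).aemeasurable, Finset.mul_sum]
    apply Finset.sum_le_sum
    intro j _
    rw [lintegral_indicator (up_compact hK _).isClosed.measurableSet.compl]
    exact rayI_integral hK hconv hρ j μ
  have hG2 : ENNReal.ofReal (1 - ρ) * ∑ j ∈ Finset.range M, μ (ush ρ (flip (M : ℝ) K) j) ≤
      ∫⁻ x, ∑ j ∈ Finset.range M,
        ((up (flip (M : ℝ) K) (j + 1))ᶜ).indicator (rayI (flip (M : ℝ) K) ρ j) x ∂μ := by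
    rw [lintegral_finsetSum' _ fun j hj => (hgf j hj).aemeasurable, Finset.mul_sum]
    apply Finset.sum_le_sum
    intro j _
    rw [lintegral_indicator (up_compact hf _).isClosed.measurableSet.compl]
    exact rayI_integral hf hfconv hρ j μ
  have hpt := lintegral_mono (μ := μ) (pointwise hK hconv hKM T hTconv hT1 hT2 hρ.le)
  rw [lintegral_add_right _ m8, lintegral_add_right _ m7] at hpt
  have m9 : Measurable fun x => ∑ j ∈ Finset.range M, (ush ρ K j).indicator (1 : E → ℝ≥0∞) x +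
      ∑ j ∈ Finset.range M, (ush ρ (flip (M : ℝ) K) j).indicator (1 : E → ℝ≥0∞) x := m3.add m4
  have m10 : Measurable fun x => ENNReal.ofReal (1 + ρ) *
      (∑ j ∈ Finset.range M, (ush ρ K j).indicator (1 : E → ℝ≥0∞) x +
      ∑ j ∈ Finset.range M, (ush ρ (flip (M : ℝ) K) j).indicator (1 : E → ℝ≥0∞) x) :=
    m9.const_mul _
  rw [lintegral_add_right _ m10, lintegral_const_mul _ m9] at hpt
  rw [lintegral_add_right _ m4] at hpt
  rw [sum_ind_integral _ _ hush, sum_ind_integral _ _ hushf, hFL, hFR] at hpt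
  set S := ∑ j ∈ Finset.range M, μ (ush ρ K j) + ∑ j ∈ Finset.range M, μ (ush ρ (flip (M : ℝ) K) j)
    with hS
  have hSfin : S ≠ ⊤ := by
    have h1 : ∀ j ∈ Finset.range M, μ (ush ρ K j) ≠ ⊤ := fun j _ =>
      ((measure_mono diff_subset).trans_lt
        (isCompact_thick (up_compact hK _) ρ).measure_lt_top).ne
    have h2 : ∀ j ∈ Finset.range M, μ (ush ρ (flip (M : ℝ) K) j) ≠ ⊤ := fun j _ =>
      ((measure_mono diff_subset).trans_lt
        (isCompact_thick (up_compact hf _) ρ).measure_lt_top).ne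
    rw [hS]
    exact ENNReal.add_ne_top.2 ⟨ENNReal.sum_ne_top.2 h1, ENNReal.sum_ne_top.2 h2⟩
  set X := ENNReal.ofReal (2 * ρ) * ∑ t ∈ Finset.range (M + 1), μ (sec K t)
      + ∑ t ∈ Finset.range (M + 1), μ (thick ρ (sec K t)) + (μ.prod volume) K + μ (base K) with hX
  set Y := ENNReal.ofReal (2 * ρ) * (μ.prod volume) K + (μ.prod volume) T + μ (thick ρ (base K))
      + ∑ t ∈ Finset.range (M + 1), μ (sec K t) with hY
  have hsum : X + ENNReal.ofReal (1 - ρ) * S ≤ Y + ENNReal.ofReal (1 + ρ) * S := by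
    refine le_trans ?_ hpt
    rw [hS, mul_add, ← add_assoc]
    gcongr
  have e : ENNReal.ofReal (1 + ρ) * S = ENNReal.ofReal (2 * ρ) * S + ENNReal.ofReal (1 - ρ) * S := by
    rw [← add_mul, ← ENNReal.ofReal_add (by positivity) (by linarith)]
    congr 2; ring
  rw [e, ← add_assoc] at hsum
  exact (ENNReal.add_le_add_iff_right (ENNReal.mul_ne_top ENNReal.ofReal_ne_top hSfin)).1 hsum

end Core

end Pool.Agent.Helper872
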