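import Pool.Agent.Helper872.Psi

open MeasureTheory Metric Set Filter Topology
open scoped InnerProductSpace ENNReal NNReal Pointwise

set_option linter.unusedSectionVars false

namespace Pool.Agent.Helper872

/-- lattice points of `K` -/
def latPts {n : ℕ} (K : Set (EuclideanSpace ℝ (Fin n))) : Set (Fin n → ℤ) :=
  {z | WithLp.toLp 2 (fun i => (z i : ℝ)) ∈ K}

/-- integer box -/
def box {n : ℕ} (a b : Fin n → ℤ) : Set (EuclideanSpace ℝ (Fin n)) :=
  {x | ∀ i, (a i : ℝ) ≤ x i ∧ x i ≤ b i}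

noncomputable def DD {n : ℕ} (m : Fin n → ℝ) : ℝ := ∑ j, ∏ i, (if i = j then 1 else m i)

noncomputable def LL {n : ℕ} (m : Fin n → ℝ) : ℝ := ∏ i, (1 + m i) - ∏ i, m i - DD m

theorem DD_succ {n : ℕ} (m : Fin (n + 1) → ℝ) :
    DD m = ∏ i : Fin n, m i.succ + m 0 * DD (fun i : Fin n => m i.succ) := by
  unfold DD
  rw [Fin.sum_univ_succ, Finset.mul_sum]
  congr 1
  · rw [Fin.prod_univ_succ]
    simp [Fin.succ_ne_zero]
  · apply Finset.sum_congr rfl
    intro j _
    rw [Fin.prod_univ_succ]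
    simp [Fin.succ_inj, (Fin.succ_ne_zero j).symm]

theorem LL_succ {n : ℕ} (m : Fin (n + 1) → ℝ) :
    LL m = DD (fun i : Fin n => m i.succ) + (1 + m 0) * LL (fun i : Fin n => m i.succ) := by
  unfold LL
  rw [DD_succ, Fin.prod_univ_succ, Fin.prod_univ_succ]
  ring

theorem DD_nonneg {n : ℕ} {m : Fin n → ℝ} (hm : ∀ i, 0 ≤ m i) : 0 ≤ DD m := by
  unfold DD
  apply Finset.sum_nonneg
  intro j _
  apply Finset.prod_nonneg
  intro i _
  split_ifs
  · norm_num
  · exact hm i

theorem LL_nonneg : ∀ {n : ℕ} {m : Fin n → ℝ}, (∀ i, 0 ≤ m i) → 0 ≤ LL m := by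
  intro n
  induction n with
  | zero => intro m _; simp [LL, DD]
  | succ n ih =>
    intro m hm
    rw [LL_succ]
    have h1 := DD_nonneg (m := fun i : Fin n => m i.succ) (fun i => hm _)
    have h2 := ih (m := fun i : Fin n => m i.succ) (fun i => hm _)
    have h3 := hm 0
    positivity

theorem box_eq {n : ℕ} (u v : Fin n → ℝ) :
    {x : EuclideanSpace ℝ (Fin n) | ∀ i, u i ≤ x i ∧ x i ≤ v i} =
      (@WithLp.ofLp 2 (Fin n → ℝ)) ⁻¹' (Icc u v) := by
  ext x
  simp only [mem_setOf_eq, mem_preimage, mem_Icc, Pi.le_def]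
  constructor
  · intro h; exact ⟨fun i => (h i).1, fun i => (h i).2⟩
  · rintro ⟨h1, h2⟩ i; exact ⟨h1 i, h2 i⟩

theorem volume_rbox {n : ℕ} (u v : Fin n → ℝ) :
    volume {x : EuclideanSpace ℝ (Fin n) | ∀ i, u i ≤ x i ∧ x i ≤ v i} =
      ∏ i, ENNReal.ofReal (v i - u i) := by
  rw [box_eq, (PiLp.volume_preserving_ofLp (Fin n)).measure_preimage
    measurableSet_Icc.nullMeasurableSet, Real.volume_Icc_pi]

theorem real_volume_rbox {n : ℕ} {u v : Fin n → ℝ} (h : ∀ i, u i ≤ v i) :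
    volume.real {x : EuclideanSpace ℝ (Fin n) | ∀ i, u i ≤ x i ∧ x i ≤ v i} =
      ∏ i, (v i - u i) := by
  rw [Measure.real, volume_rbox, ENNReal.toReal_prod]
  apply Finset.prod_congr rfl
  intro i _
  rw [ENNReal.toReal_ofReal (by linarith [h i])]

theorem isCompact_rbox {n : ℕ} (u v : Fin n → ℝ) :
    IsCompact {x : EuclideanSpace ℝ (Fin n) | ∀ i, u i ≤ x i ∧ x i ≤ v i} := by
  have : {x : EuclideanSpace ℝ (Fin n) | ∀ i, u i ≤ x i ∧ x i ≤ v i} =
      (@WithLp.toLp 2 (Fin n → ℝ)) '' (Icc u v) := by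
    rw [box_eq]
    ext x
    constructor
    · intro h; exact ⟨WithLp.ofLp x, h, rfl⟩
    · rintro ⟨y, hy, rfl⟩; exact hy
  rw [this]
  exact isCompact_Icc.image (PiLp.continuous_toLp 2 _)

theorem isCompact_box {n : ℕ} (a b : Fin n → ℤ) : IsCompact (box a b) :=
  isCompact_rbox (fun i => (a i : ℝ)) (fun i => (b i : ℝ))

theorem shell_real {n : ℕ} {A : Set (EuclideanSpace ℝ (Fin n))} (hA : IsCompact A) {ρ : ℝ}
    (hρ : 0 ≤ ρ) : volume.real (thick ρ A \ A) = volume.real (thick ρ A) - volume.real A :=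
  measureReal_diff (subset_thick hρ A) hA.isClosed.measurableSet
    (isCompact_thick hA ρ).measure_lt_top.ne

theorem shell_box_bound {n : ℕ} {A : Set (EuclideanSpace ℝ (Fin n))} (hA : IsCompact A)
    (hne : A.Nonempty) (hconv : Convex ℝ A) {a b : Fin n → ℤ} (hab : ∀ i, a i ≤ b i)
    (hAb : A ⊆ box a b) {ρ : ℝ} (hρ : 0 < ρ) :
    volume.real (thick ρ A) - volume.real A ≤
      ∏ i, (((b i : ℝ) - a i) + 2 * ρ) - ∏ i, ((b i : ℝ) - a i) := by
  have h1 := shell_mono hne hA.isClosed hconv (isCompact_box a b) hAb volume hρ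
  have hfin : volume (thick ρ (box a b) \ box a b) ≠ ⊤ :=
    ((measure_mono diff_subset).trans_lt (isCompact_thick (isCompact_box a b) ρ).measure_lt_top).ne
  have h2 : volume.real (thick ρ A \ A) ≤ volume.real (thick ρ (box a b) \ box a b) :=
    ENNReal.toReal_mono hfin h1
  rw [shell_real hA hρ.le, shell_real (isCompact_box a b) hρ.le] at h2
  refine h2.trans ?_
  have hab' : ∀ i, (a i : ℝ) ≤ b i := fun i => by exact_mod_cast hab i
  have e1 : volume.real (box a b) = ∏ i, ((b i : ℝ) - a i) :=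
    real_volume_rbox (u := fun i => (a i : ℝ)) (v := fun i => (b i : ℝ)) hab'
  have e2 : volume.real (thick ρ (box a b)) ≤ ∏ i, (((b i : ℝ) - a i) + 2 * ρ) := by
    have hsub : thick ρ (box a b) ⊆ {x : EuclideanSpace ℝ (Fin n) |
        ∀ i, (a i : ℝ) - ρ ≤ x i ∧ x i ≤ (b i : ℝ) + ρ} := by
      rintro x ⟨y, hy, hxy⟩ i
      have h3 : |x i - y i| ≤ ρ := by
        have := PiLp.norm_apply_le (x - y) i
        rw [Real.norm_eq_abs] at this
        exact this.trans hxy
      rw [abs_le] at h3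
      have := hy i
      constructor <;> linarith [this.1, this.2, h3.1, h3.2]
    have e3 := real_volume_rbox (n := n) (u := fun i => (a i : ℝ) - ρ)
      (v := fun i => (b i : ℝ) + ρ) (fun i => by linarith [hab' i])
    have e4 : ∏ i, (((b i : ℝ) - a i) + 2 * ρ) = ∏ i, ((b i : ℝ) + ρ - (a i - ρ)) := by
      apply Finset.prod_congr rfl; intro i _; ring
    rw [e4, ← e3]
    exact measureReal_mono hsub (isCompact_rbox _ _).measure_lt_top.ne
  rw [e1]
  linarith

theorem prod_deriv {n : ℕ} (m : Fin n → ℝ) :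
    Tendsto (fun ρ : ℝ => (∏ i, (m i + 2 * ρ) - ∏ i, m i) / (2 * ρ)) (𝓝[>] 0) (𝓝 (DD m)) := by
  have h1 : HasDerivAt (fun ρ : ℝ => ∏ i, (m i + 2 * ρ)) (2 * DD m) 0 := by
    have h2 : ∀ i ∈ (Finset.univ : Finset (Fin n)),
        HasDerivAt (fun ρ : ℝ => m i + 2 * ρ) 2 0 := by
      intro i _
      simpa using ((hasDerivAt_id (0 : ℝ)).const_mul 2).const_add (m i)
    have h3 := HasDerivAt.fun_finsetProd h2
    have e : ∑ i ∈ (Finset.univ : Finset (Fin n)),
        (∏ j ∈ Finset.univ.erase i, (m j + 2 * (0 : ℝ))) • (2 : ℝ) = 2 * DD m := by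
      unfold DD
      rw [Finset.mul_sum]
      apply Finset.sum_congr rfl
      intro i _
      rw [smul_eq_mul, mul_comm]
      congr 1
      rw [← Finset.mul_prod_erase Finset.univ _ (Finset.mem_univ i), if_pos rfl, one_mul]
      apply Finset.prod_congr rfl
      intro j hj
      rw [if_neg (Finset.ne_of_mem_erase hj)]
      ring
    rw [e] at h3
    exact h3
  have h4 := h1.tendsto_slope_zero_right
  have h5 := h4.div_const 2
  have e : 2 * DD m / 2 = DD m := by ring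
  rw [e] at h5
  refine h5.congr' ?_
  filter_upwards [self_mem_nhdsWithin] with ρ hρ
  have hρ' : (ρ : ℝ) ≠ 0 := ne_of_gt hρ
  simp only [zero_add, mul_zero, add_zero, smul_eq_mul]
  field_simp

theorem shell_tendsto {n : ℕ} {A : Set (EuclideanSpace ℝ (Fin n))} (hA : IsCompact A) :
    Tendsto (fun ρ : ℝ => volume.real (thick ρ A) - volume.real A) (𝓝[>] 0) (𝓝 0) := by
  have h1 : Tendsto (fun ρ : ℝ => volume (cthickening ρ A)) (𝓝 0) (𝓝 (volume A)) := 
    tendsto_measure_cthickening_of_isCompact hA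
  have h2 : Tendsto (fun ρ : ℝ => volume.real (cthickening ρ A)) (𝓝[>] 0) (𝓝 (volume.real A)) :=
    ((ENNReal.tendsto_toReal hA.measure_lt_top.ne).comp h1).mono_left nhdsWithin_le_nhds
  have h3 : Tendsto (fun ρ : ℝ => volume.real (cthickening ρ A) - volume.real A) (𝓝[>] 0)
      (𝓝 (volume.real A - volume.real A)) := h2.sub_const _
  rw [sub_self] at h3
  refine h3.congr' ?_
  filter_upwards [self_mem_nhdsWithin] with ρ hρ
  rw [thick_eq_cthickening hA (le_of_lt hρ)]

end Pool.Agent.Helper872
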