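import Pool.Agent.Helper872.Main

open MeasureTheory Metric Set Filter Topology
open scoped InnerProductSpace ENNReal NNReal Pointwise

set_option linter.unusedSectionVars false

namespace Pool.Agent.Helper872

/-- a superadditive nonnegative function has a right slope at `0` -/
theorem superadd_slope {φ : ℝ → ℝ} (h0 : ∀ t, 0 < t → 0 ≤ φ t)
    (hsup : ∀ s t, 0 < s → 0 < t → φ s + φ t ≤ φ (s + t)) :
    ∃ L : ℝ, Tendsto (fun t => φ t / t) (𝓝[>] 0) (𝓝 L) := by
  have hmono : ∀ s t, 0 < s → s ≤ t → φ s ≤ φ t := by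
    intro s t hs hst
    rcases eq_or_lt_of_le hst with h | h
    · rw [h]
    · have h1 := hsup s (t - s) hs (by linarith)
      have h2 := h0 (t - s) (by linarith)
      have e : s + (t - s) = t := by ring
      rw [e] at h1
      linarith
  have hmul : ∀ n : ℕ, ∀ t, 0 < t → (n + 1) * φ t ≤ φ ((n + 1) * t) := by
    intro n t ht
    induction n with
    | zero => simp
    | succ n ih =>
      have h1 := hsup (((n : ℝ) + 1) * t) t (by positivity) ht
      have e : ((n : ℝ) + 1) * t + t = (((n + 1 : ℕ) : ℝ) + 1) * t := by push_cast; ring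
      rw [e] at h1
      have e2 : (((n + 1 : ℕ) : ℝ) + 1) * φ t = (n + 1) * φ t + φ t := by push_cast; ring
      rw [e2]
      linarith
  set S : Set ℝ := (fun t => φ t / t) '' Ioi 0 with hS
  have hSne : S.Nonempty := ⟨φ 1 / 1, 1, by simp, rfl⟩
  have hSb : BddBelow S := by
    refine ⟨0, ?_⟩
    rintro _ ⟨t, ht, rfl⟩
    exact div_nonneg (h0 t ht) (le_of_lt ht)
  refine ⟨sInf S, ?_⟩
  rw [tendsto_order]
  constructor
  · intro a ha
    filter_upwards [self_mem_nhdsWithin] with t ht
    exact lt_of_lt_of_le ha (csInf_le hSb ⟨t, ht, rfl⟩)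
  · intro a ha
    obtain ⟨_, ⟨r, hr, rfl⟩, hra⟩ := exists_lt_of_csInf_lt hSne ha
    have hr0 : (0 : ℝ) < r := hr
    simp only at hra
    -- for small `t`, `φ t / t ≤ φ r / (r - t)`
    have hlim : Tendsto (fun t : ℝ => φ r / (r - t)) (𝓝[>] 0) (𝓝 (φ r / r)) := by
      have : Tendsto (fun t : ℝ => φ r / (r - t)) (𝓝 0) (𝓝 (φ r / (r - 0))) := by
        apply Tendsto.div tendsto_const_nhds
        · exact tendsto_const_nhds.sub tendsto_id
        · simpa using hr0.ne'
      rw [sub_zero] at this
      exact this.mono_left nhdsWithin_le_nhds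
    have h1 := hlim.eventually_lt_const hra
    have h2 : ∀ᶠ t in 𝓝[>] (0 : ℝ), t < r := by
      have : Tendsto (fun ρ : ℝ => ρ) (𝓝[>] 0) (𝓝 0) := tendsto_id.mono_left nhdsWithin_le_nhds
      exact this.eventually_lt_const hr0
    filter_upwards [h1, h2, self_mem_nhdsWithin] with t h1 h2 ht
    have ht0 : (0 : ℝ) < t := ht
    refine lt_of_le_of_lt ?_ h1
    have hrt : 1 ≤ r / t := by rw [le_div_iff₀ ht0]; linarith
    obtain ⟨n, hn⟩ : ∃ n : ℕ, ⌊r / t⌋₊ = n + 1 := by
      have : 1 ≤ ⌊r / t⌋₊ := Nat.le_floor (by simpa using hrt)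
      exact ⟨⌊r / t⌋₊ - 1, by omega⟩
    have hn1 : (n : ℝ) + 1 ≤ r / t := by
      have := Nat.floor_le (show 0 ≤ r / t by positivity)
      rw [hn] at this; push_cast at this; exact this
    have hn2 : r / t < (n : ℝ) + 1 + 1 := by
      have := Nat.lt_floor_add_one (r / t)
      rw [hn] at this; push_cast at this; exact this
    have h3 : ((n : ℝ) + 1) * t ≤ r := by rwa [le_div_iff₀ ht0] at hn1
    have h4 : r < ((n : ℝ) + 1 + 1) * t := by rwa [div_lt_iff₀ ht0] at hn2
    have h5 := hmul n t ht0
    have h6 := hmono _ _ (by positivity) h3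
    have h7 : ((n : ℝ) + 1) * φ t ≤ φ r := h5.trans h6
    rw [div_le_div_iff₀ ht0 (by linarith)]
    have h8 : r - t ≤ ((n : ℝ) + 1) * t := by linarith
    have h9 := h0 t ht0
    nlinarith

theorem thick_thick {E : Type*} [NormedAddCommGroup E] [InnerProductSpace ℝ E]
    [FiniteDimensional ℝ E] [MeasurableSpace E] [BorelSpace E] (S : Set E) {s t : ℝ}
    (hs : 0 ≤ s) (ht : 0 ≤ t) : thick t (thick s S) = thick (s + t) S := by
  rw [thick_eq_add, thick_eq_add, thick_eq_add, add_assoc,
    closedBall_add_closedBall hs ht, add_zero]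

theorem slope_exists {n : ℕ} {K : Set (EuclideanSpace ℝ (Fin n))} (hK : IsCompact K)
    (hne : K.Nonempty) (hconv : Convex ℝ K) :
    ∃ L : ℝ, Tendsto (fun t => (volume.real (thick t K) - volume.real K) / t) (𝓝[>] 0) (𝓝 L) := by
  apply superadd_slope
  · intro t ht
    have := measureReal_mono (μ := volume) (subset_thick ht.le K)
      (isCompact_thick hK t).measure_lt_top.ne
    linarith
  · intro s t hs ht
    have hC := isCompact_thick hK s
    have h1 := shell_mono hne hK.isClosed hconv hC (subset_thick hs.le K) volume ht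
    have hfin : volume (thick t (thick s K) \ thick s K) ≠ ⊤ :=
      ((measure_mono diff_subset).trans_lt (isCompact_thick hC t).measure_lt_top).ne
    have h2 : volume.real (thick t K \ K) ≤ volume.real (thick t (thick s K) \ thick s K) :=
      ENNReal.toReal_mono hfin h1
    rw [shell_real hK ht.le, shell_real hC ht.le, thick_thick K hs.le ht.le] at h2
    linarith

end Pool.Agent.Helper872
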