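import Pool.Agent.Helper872.Induct

open MeasureTheory Metric Set Filter Topology
open scoped InnerProductSpace ENNReal NNReal Pointwise

set_option linter.unusedSectionVars false

namespace Pool.Agent.Helper872

theorem conv_real {c : ℝ} (hc : 0 ≤ c) {X1 X2 X3 X4 Y1 Y2 Y3 Y4 Y5 : ℝ≥0∞}
    (h1 : X1 ≠ ⊤) (h2 : X2 ≠ ⊤) (h3 : X3 ≠ ⊤) (h4 : X4 ≠ ⊤)
    (g1 : Y1 ≠ ⊤) (g2 : Y2 ≠ ⊤) (g3 : Y3 ≠ ⊤) (g4 : Y4 ≠ ⊤) (g5 : Y5 ≠ ⊤)
    (h : ENNReal.ofReal c * X1 + X2 + X3 + X4 ≤
      ENNReal.ofReal c * Y1 + Y2 + Y3 + Y4 + ENNReal.ofReal c * Y5) :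
    c * X1.toReal + X2.toReal + X3.toReal + X4.toReal ≤
      c * Y1.toReal + Y2.toReal + Y3.toReal + Y4.toReal + c * Y5.toReal := by
  lift X1 to ℝ≥0 using h1
  lift X2 to ℝ≥0 using h2
  lift X3 to ℝ≥0 using h3
  lift X4 to ℝ≥0 using h4
  lift Y1 to ℝ≥0 using g1
  lift Y2 to ℝ≥0 using g2
  lift Y3 to ℝ≥0 using g3
  lift Y4 to ℝ≥0 using g4
  lift Y5 to ℝ≥0 using g5
  lift c to ℝ≥0 using hc
  rw [ENNReal.ofReal_coe_nnreal] at h
  simp only [ENNReal.coe_toReal]
  exact_mod_cast h

theorem latPts_finite {n : ℕ} {K : Set (EuclideanSpace ℝ (Fin n))} {a b : Fin n → ℤ}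
    (h : K ⊆ box a b) : (latPts K).Finite := by
  apply (Set.finite_Icc a b).subset
  intro z hz
  have hz' := h hz
  rw [mem_Icc, Pi.le_def, Pi.le_def]
  constructor
  · intro i
    have := (hz' i).1
    simp only at this
    exact_mod_cast this
  · intro i
    have := (hz' i).2
    simp only at this
    exact_mod_cast this

theorem latPts_slice {n : ℕ} {K : Set (EuclideanSpace ℝ (Fin (n + 1)))} {a b : Fin (n + 1) → ℤ}
    (hab : ∀ i, a i ≤ b i) (h : K ⊆ box a b) :
    (latPts K).ncard ≤ ∑ t ∈ Finset.range ((b 0 - a 0).toNat + 1),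
      (latPts (sec (psi n (a 0) ⁻¹' K) (t : ℝ))).ncard := by
  classical
  have hsec : ∀ t : ℝ, sec (psi n (a 0) ⁻¹' K) t ⊆ box (fun i => a i.succ) (fun i => b i.succ) := by
    intro t x hx i
    have := h hx i.succ
    simpa using this
  have hfin : ∀ t : ℝ, (latPts (sec (psi n (a 0) ⁻¹' K) t)).Finite := fun t =>
    latPts_finite (hsec t)
  have hfinK := latPts_finite h
  rw [Set.ncard_eq_toFinset_card _ hfinK]
  have hsub : hfinK.toFinset ⊆ (Finset.range ((b 0 - a 0).toNat + 1)).biUnion (fun t =>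
      (hfin (t : ℝ)).toFinset.image (fun z' : Fin n → ℤ =>
        (Fin.cons ((t : ℤ) + a 0) z' : Fin (n + 1) → ℤ))) := by
    intro z hz
    rw [Set.Finite.mem_toFinset] at hz
    have hz0 := h hz 0
    simp only at hz0
    have hz1 : a 0 ≤ z 0 := by exact_mod_cast hz0.1
    have hz2 : z 0 ≤ b 0 := by exact_mod_cast hz0.2
    rw [Finset.mem_biUnion]
    refine ⟨(z 0 - a 0).toNat, ?_, ?_⟩
    · rw [Finset.mem_range]; omega
    · rw [Finset.mem_image]
      have hcast : (((z 0 - a 0).toNat : ℕ) : ℤ) = z 0 - a 0 := Int.toNat_of_nonneg (by omega)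
      have hcastR : (((z 0 - a 0).toNat : ℕ) : ℝ) = z 0 - a 0 := by
        have : ((((z 0 - a 0).toNat : ℕ) : ℤ) : ℝ) = ((z 0 - a 0 : ℤ) : ℝ) := by rw [hcast]
        push_cast at this
        exact this
      refine ⟨fun i => z i.succ, ?_, ?_⟩
      · rw [Set.Finite.mem_toFinset]
        change psi n (a 0) (WithLp.toLp 2 (fun i : Fin n => ((z i.succ : ℤ) : ℝ)), _) ∈ K
        have e : psi n (a 0) (WithLp.toLp 2 (fun i : Fin n => ((z i.succ : ℤ) : ℝ)),
            (((z 0 - a 0).toNat : ℕ) : ℝ)) = WithLp.toLp 2 (fun i => ((z i : ℤ) : ℝ)) := by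
          ext i
          refine Fin.cases ?_ (fun i => ?_) i
          · rw [psi_zero, hcastR]; simp
          · rw [psi_succ]
        rw [e]
        exact hz
      · ext i
        refine Fin.cases ?_ (fun i => ?_) i
        · simp only [Fin.cons_zero, hcast]; ring
        · simp only [Fin.cons_succ]
  refine (Finset.card_le_card hsub).trans (Finset.card_biUnion_le.trans ?_)
  apply Finset.sum_le_sum
  intro t _
  rw [Set.ncard_eq_toFinset_card _ (hfin t)]
  exact Finset.card_image_le

/-- The statement proved by induction on the dimension. -/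
def Good (n : ℕ) : Prop := ∀ (K : Set (EuclideanSpace ℝ (Fin n))), IsCompact K → Convex ℝ K →
  ∀ a b : Fin n → ℤ, (∀ i, a i ≤ b i) → K ⊆ box a b → ∀ ε > 0, ∀ᶠ ρ in 𝓝[>] (0:ℝ),
    ((latPts K).ncard : ℝ) ≤ volume.real K + (volume.real (thick ρ K) - volume.real K) / (2 * ρ)
      + LL (fun i => (b i : ℝ) - a i) + ε

theorem good_zero : Good 0 := by
  intro K hK hconv a b hab hKb ε hε
  filter_upwards [self_mem_nhdsWithin] with ρ hρ
  have hρ0 : (0 : ℝ) < ρ := hρ
  have hLL := LL_nonneg (m := fun i : Fin 0 => (b i : ℝ) - a i) (fun i => i.elim0)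
  rcases K.eq_empty_or_nonempty with h | h
  · subst h
    have : latPts (∅ : Set (EuclideanSpace ℝ (Fin 0))) = ∅ := by
      ext z; simp [latPts]
    rw [this, thick_empty]
    simp only [Set.ncard_empty, Nat.cast_zero, measureReal_empty, sub_self, zero_div, zero_add]
    linarith
  · have hKu : K = univ := by
      obtain ⟨x, hx⟩ := h
      ext y
      simp only [mem_univ, iff_true]
      rwa [Subsingleton.elim y x]
    have hT : thick ρ K = univ := by
      apply eq_univ_of_univ_subset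
      rw [← hKu]
      exact subset_thick hρ0.le K
    have hv : volume.real (univ : Set (EuclideanSpace ℝ (Fin 0))) = 1 := by
      rw [Measure.real, volume_euclideanSpace_eq_dirac]
      simp
    have hcard : (latPts K).ncard ≤ 1 := by
      have hfin : (latPts K).Finite := Set.toFinite _
      refine (Set.ncard_le_one_iff hfin).2 ?_
      intro x y _ _
      exact Subsingleton.elim x y
    have hcard' : ((latPts K).ncard : ℝ) ≤ 1 := by exact_mod_cast hcard
    rw [hT, hKu, hv] at *
    simp only [sub_self, zero_div, add_zero]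
    rw [← hKu] at *
    linarith

theorem good_succ {n : ℕ} (ih : Good n) : Good (n + 1) := by
  intro K hK hconv a b hab hKb ε hε
  have hLLn := LL_nonneg (m := fun i : Fin (n + 1) => (b i : ℝ) - a i)
    (fun i => by have : (a i : ℝ) ≤ b i := by exact_mod_cast hab i
                 linarith)
  rcases K.eq_empty_or_nonempty with h | hne
  · subst h
    filter_upwards with ρ
    have : latPts (∅ : Set (EuclideanSpace ℝ (Fin (n + 1)))) = ∅ := by
      ext z; simp [latPts]
    rw [this, thick_empty]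
    simp only [Set.ncard_empty, Nat.cast_zero, measureReal_empty, sub_self, zero_div, zero_add]
    linarith
  set M := (b 0 - a 0).toNat with hM
  have hMZ : (M : ℤ) = b 0 - a 0 := Int.toNat_of_nonneg (by have := hab 0; omega)
  have hMR : (M : ℝ) = b 0 - a 0 := by
    have : ((M : ℤ) : ℝ) = ((b 0 - a 0 : ℤ) : ℝ) := by rw [hMZ]
    push_cast at this
    exact this
  set H : Set (EuclideanSpace ℝ (Fin n) × ℝ) := psi n (a 0) ⁻¹' K with hH
  set a' : Fin n → ℤ := fun i => a i.succ with ha'
  set b' : Fin n → ℤ := fun i => b i.succ with hb'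
  have hab' : ∀ i, a' i ≤ b' i := fun i => hab _
  have hHM : ∀ q ∈ H, 0 ≤ q.2 ∧ q.2 ≤ (M : ℝ) := by
    intro q hq
    have := hKb hq 0
    rw [psi_zero] at this
    rw [hMR]
    constructor <;> linarith [this.1, this.2]
  have hHb : ∀ q ∈ H, q.1 ∈ box a' b' := by
    intro q hq i
    have := hKb hq i.succ
    rw [psi_succ] at this
    exact this
  have hHc : IsCompact H := by
    apply IsCompact.of_isClosed_subset ((isCompact_box a' b').prod (isCompact_Icc (a := 0) (b := (M : ℝ))))
    · exact hK.isClosed.preimage (psi_continuous n _)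
    · intro q hq
      exact ⟨hHb q hq, hHM q hq⟩
  have hHconv : Convex ℝ H := by
    intro q hq q' hq' u v hu hv huv
    change psi n (a 0) (u • q + v • q') ∈ K
    rw [psi_comb n _ q q' huv]
    exact hconv hq hq' hu hv huv
  have hHne : H.Nonempty := by
    obtain ⟨y, hy⟩ := hne
    obtain ⟨q, hq⟩ := psi_surj n (a 0) y
    exact ⟨q, by change psi n (a 0) q ∈ K; rwa [hq]⟩
  have hbase_ne : (base H).Nonempty := by
    obtain ⟨q, hq⟩ := hHne
    exact ⟨q.1, q.2, hq⟩
  have hbase_sub : base H ⊆ box a' b' := by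
    rintro x ⟨s, hs⟩
    exact hHb _ hs
  have hsec_sub : ∀ t : ℝ, sec H t ⊆ box a' b' := by
    intro t x hx
    exact hHb _ hx
  -- the error terms
  have herr1 : Tendsto (fun ρ : ℝ => ∑ j ∈ Finset.range M, volume.real (ush ρ H j)) (𝓝[>] 0) (𝓝 0) := by
    have : Tendsto (fun ρ : ℝ => ∑ j ∈ Finset.range M,
        (volume.real (thick ρ (up H (j + 1))) - volume.real (up H (j + 1)))) (𝓝[>] 0)
        (𝓝 (∑ j ∈ Finset.range M, 0)) := by
      apply tendsto_finsetSum
      intro j _
      exact shell_tendsto (up_compact hHc _)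
    simp only [Finset.sum_const_zero] at this
    refine this.congr' ?_
    filter_upwards [self_mem_nhdsWithin] with ρ hρ
    apply Finset.sum_congr rfl
    intro j _
    exact (shell_real (up_compact hHc _) (le_of_lt hρ)).symm
  have hfc := flip_compact hHc (M : ℝ)
  have herr2 : Tendsto (fun ρ : ℝ => ∑ j ∈ Finset.range M, volume.real (ush ρ (flip (M : ℝ) H) j))
      (𝓝[>] 0) (𝓝 0) := by
    have : Tendsto (fun ρ : ℝ => ∑ j ∈ Finset.range M,
        (volume.real (thick ρ (up (flip (M : ℝ) H) (j + 1))) - volume.real (up (flip (M : ℝ) H) (j + 1))))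
        (𝓝[>] 0) (𝓝 (∑ j ∈ Finset.range M, 0)) := by
      apply tendsto_finsetSum
      intro j _
      exact shell_tendsto (up_compact hfc _)
    simp only [Finset.sum_const_zero] at this
    refine this.congr' ?_
    filter_upwards [self_mem_nhdsWithin] with ρ hρ
    apply Finset.sum_congr rfl
    intro j _
    exact (shell_real (up_compact hfc _) (le_of_lt hρ)).symm
  have herr : ∀ᶠ ρ in 𝓝[>] (0:ℝ), ∑ j ∈ Finset.range M, volume.real (ush ρ H j) +
      ∑ j ∈ Finset.range M, volume.real (ush ρ (flip (M : ℝ) H) j) < ε / 3 := by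
    have := herr1.add herr2
    rw [add_zero] at this
    exact this.eventually_lt_const (by positivity)
  have hD : ∀ᶠ ρ in 𝓝[>] (0:ℝ), (∏ i, (((b' i : ℝ) - a' i) + 2 * ρ) - ∏ i, ((b' i : ℝ) - a' i)) / (2 * ρ)
      < DD (fun i => (b' i : ℝ) - a' i) + ε / 3 :=
    (prod_deriv (fun i => (b' i : ℝ) - a' i)).eventually_lt_const (by linarith)
  have hIH : ∀ᶠ ρ in 𝓝[>] (0:ℝ), ∀ t ∈ Finset.range (M + 1),
      ((latPts (sec H (t : ℝ))).ncard : ℝ) ≤ volume.real (sec H (t : ℝ)) +
        (volume.real (thick ρ (sec H (t : ℝ))) - volume.real (sec H (t : ℝ))) / (2 * ρ)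
        + LL (fun i => (b' i : ℝ) - a' i) + ε / (3 * (M + 1)) := by
    rw [Filter.eventually_all_finset]
    intro t _
    exact ih (sec H t) (sec_compact hHc _) (sec_convex hHconv _) a' b' hab' (hsec_sub _) _
      (by positivity)
  have hρ1 : ∀ᶠ ρ in 𝓝[>] (0:ℝ), ρ < 1 := by
    have : Tendsto (fun ρ : ℝ => ρ) (𝓝[>] 0) (𝓝 0) := tendsto_id.mono_left nhdsWithin_le_nhds
    exact this.eventually_lt_const (by norm_num)
  filter_upwards [herr, hD, hIH, hρ1, self_mem_nhdsWithin] with ρ h1 h2 h3 h4 h5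
  have hρ : (0 : ℝ) < ρ := h5
  set T : Set (EuclideanSpace ℝ (Fin n) × ℝ) := psi n (a 0) ⁻¹' (thick ρ K) with hT
  have hKt := isCompact_thick hK ρ
  have hKtconv := convex_thick hconv ρ
  have hTm : MeasurableSet T := (hKt.isClosed.preimage (psi_continuous n _)).measurableSet
  have hTconv : Convex ℝ T := by
    intro q hq q' hq' u v hu hv huv
    change psi n (a 0) (u • q + v • q') ∈ thick ρ K
    rw [psi_comb n _ q q' huv]
    exact hKtconv hq hq' hu hv huv
  have hTfib : ∀ x, Convex ℝ (Prod.mk x ⁻¹' T) := by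
    intro x s hs s' hs' u v hu hv huv
    change (x, u • s + v • s') ∈ T
    have h := hTconv hs hs' hu hv huv
    simp only [Prod.smul_mk, Prod.mk_add_mk] at h
    rw [← add_smul, huv, one_smul] at h
    exact h
  have hT1 : ∀ x x' s, (x', s) ∈ H → ‖x - x'‖ ≤ ρ → (x, s) ∈ T := by
    intro x x' s hs hx
    refine ⟨psi n (a 0) (x', s), hs, ?_⟩
    have e := psi_norm n (a 0) (x, s) (x', s)
    simp only [sub_self, ne_eq, OfNat.ofNat_ne_zero, not_false_eq_true, zero_pow, add_zero] at e
    have : ‖psi n (a 0) (x, s) - psi n (a 0) (x', s)‖ ^ 2 ≤ ρ ^ 2 := by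
      rw [e]; gcongr
    exact le_of_sq_le_sq this hρ.le
  have hT2 : ∀ x s s', (x, s) ∈ H → |s' - s| ≤ ρ → (x, s') ∈ T := by
    intro x s s' hs hx
    refine ⟨psi n (a 0) (x, s), hs, ?_⟩
    have e := psi_norm n (a 0) (x, s') (x, s)
    simp only [sub_self, norm_zero, ne_eq, OfNat.ofNat_ne_zero, not_false_eq_true, zero_pow,
      zero_add] at e
    have : ‖psi n (a 0) (x, s') - psi n (a 0) (x, s)‖ ^ 2 ≤ ρ ^ 2 := by
      rw [e, ← sq_abs]; gcongr
    exact le_of_sq_le_sq this hρ.le
  have hcore := core hHc hHconv hHM T hTm hTfib hT1 hT2 hρ h4.le volume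
  have hvH : ((volume : Measure (EuclideanSpace ℝ (Fin n))).prod (volume : Measure ℝ)) H = volume K :=
    (psi_measurePreserving n (a 0)).measure_preimage hK.isClosed.measurableSet.nullMeasurableSet
  have hvT : ((volume : Measure (EuclideanSpace ℝ (Fin n))).prod (volume : Measure ℝ)) T =
      volume (thick ρ K) :=
    (psi_measurePreserving n (a 0)).measure_preimage hKt.isClosed.measurableSet.nullMeasurableSet
  rw [hvH, hvT] at hcore
  have f1 : ∀ t ∈ Finset.range (M + 1), volume (sec H (t : ℝ)) ≠ ⊤ := fun t _ =>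
    (sec_compact hHc _).measure_lt_top.ne
  have f2 : ∀ t ∈ Finset.range (M + 1), volume (thick ρ (sec H (t : ℝ))) ≠ ⊤ := fun t _ =>
    (isCompact_thick (sec_compact hHc _) ρ).measure_lt_top.ne
  have f3 : ∀ j ∈ Finset.range M, volume (ush ρ H j) ≠ ⊤ := fun j _ =>
    ((measure_mono diff_subset).trans_lt
        (isCompact_thick (up_compact hHc _) ρ).measure_lt_top).ne
  have f4 : ∀ j ∈ Finset.range M, volume (ush ρ (flip (M : ℝ) H) j) ≠ ⊤ := fun j _ =>
    ((measure_mono diff_subset).trans_lt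
        (isCompact_thick (up_compact hfc _) ρ).measure_lt_top).ne
  have hreal := conv_real (by positivity) (ENNReal.sum_ne_top.2 f1) (ENNReal.sum_ne_top.2 f2)
    hK.measure_lt_top.ne (base_compact hHc).measure_lt_top.ne
    hK.measure_lt_top.ne hKt.measure_lt_top.ne
    (isCompact_thick (base_compact hHc) ρ).measure_lt_top.ne (ENNReal.sum_ne_top.2 f1)
    (ENNReal.add_ne_top.2 ⟨ENNReal.sum_ne_top.2 f3, ENNReal.sum_ne_top.2 f4⟩) hcore
  rw [ENNReal.toReal_add (ENNReal.sum_ne_top.2 f3) (ENNReal.sum_ne_top.2 f4),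
    ENNReal.toReal_sum f1, ENNReal.toReal_sum f2, ENNReal.toReal_sum f3, ENNReal.toReal_sum f4] at hreal
  change 2 * ρ * ∑ t ∈ Finset.range (M + 1), volume.real (sec H (t : ℝ)) +
      ∑ t ∈ Finset.range (M + 1), volume.real (thick ρ (sec H (t : ℝ))) + volume.real K +
      volume.real (base H) ≤
    2 * ρ * volume.real K + volume.real (thick ρ K) + volume.real (thick ρ (base H)) +
      ∑ t ∈ Finset.range (M + 1), volume.real (sec H (t : ℝ)) +
      2 * ρ * (∑ j ∈ Finset.range M, volume.real (ush ρ H j) +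
        ∑ j ∈ Finset.range M, volume.real (ush ρ (flip (M : ℝ) H) j)) at hreal
  have hbb := shell_box_bound (base_compact hHc) hbase_ne (base_convex hHconv) hab' hbase_sub hρ
  -- sum the induction hypotheses
  have hcount : ((latPts K).ncard : ℝ) ≤ ∑ t ∈ Finset.range (M + 1),
      ((latPts (sec H (t : ℝ))).ncard : ℝ) := by
    have := latPts_slice hab hKb
    exact_mod_cast this
  have hsumIH := Finset.sum_le_sum h3
  rw [Finset.sum_add_distrib, Finset.sum_add_distrib, Finset.sum_add_distrib, ← Finset.sum_div,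
    Finset.sum_sub_distrib, Finset.sum_const, Finset.sum_const, Finset.card_range, nsmul_eq_mul,
    nsmul_eq_mul] at hsumIH
  have hM1 : (0 : ℝ) < (M : ℝ) + 1 := by positivity
  have hε3 : ((M + 1 : ℕ) : ℝ) * (ε / (3 * (M + 1))) = ε / 3 := by
    push_cast
    field_simp
  rw [hε3] at hsumIH
  have hLL := LL_succ (fun i : Fin (n + 1) => (b i : ℝ) - a i)
  have hLL' : LL (fun i : Fin (n + 1) => (b i : ℝ) - a i) =
      DD (fun i => (b' i : ℝ) - a' i) + (1 + (M : ℝ)) * LL (fun i => (b' i : ℝ) - a' i) := by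
    rw [hLL, hMR]
  rw [hLL']
  set S1 := ∑ t ∈ Finset.range (M + 1), volume.real (sec H (t : ℝ)) with hS1
  set S2 := ∑ t ∈ Finset.range (M + 1), volume.real (thick ρ (sec H (t : ℝ))) with hS2
  set e := ∑ j ∈ Finset.range M, volume.real (ush ρ H j) +
        ∑ j ∈ Finset.range M, volume.real (ush ρ (flip (M : ℝ) H) j) with he
  have h2ρ : 0 < 2 * ρ := by positivity
  have hdiv : S1 + (S2 - S1) / (2 * ρ) ≤ volume.real K +
      (volume.real (thick ρ K) - volume.real K) / (2 * ρ) +
      (volume.real (thick ρ (base H)) - volume.real (base H)) / (2 * ρ) + e := by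
    have h7 : S1 + (S2 - S1) / (2 * ρ) = (2 * ρ * S1 + (S2 - S1)) / (2 * ρ) := by
      field_simp
    have h8 : volume.real K +
      (volume.real (thick ρ K) - volume.real K) / (2 * ρ) +
      (volume.real (thick ρ (base H)) - volume.real (base H)) / (2 * ρ) + e =
      (2 * ρ * volume.real K + (volume.real (thick ρ K) - volume.real K) +
        (volume.real (thick ρ (base H)) - volume.real (base H)) + 2 * ρ * e) / (2 * ρ) := by
      field_simp
    rw [h7, h8]
    apply div_le_div_of_nonneg_right _ h2ρ.le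
    linarith
  have hbb' : (volume.real (thick ρ (base H)) - volume.real (base H)) / (2 * ρ) ≤
      (∏ i, (((b' i : ℝ) - a' i) + 2 * ρ) - ∏ i, ((b' i : ℝ) - a' i)) / (2 * ρ) :=
    div_le_div_of_nonneg_right hbb h2ρ.le
  push_cast at hsumIH
  linarith

theorem good_all : ∀ n, Good n := by
  intro n
  induction n with
  | zero => exact good_zero
  | succ n ih => exact good_succ ih

end Pool.Agent.Helper872
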