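import Pool.Agent.Helper872.Core

open MeasureTheory Metric Set Filter Topology
open scoped InnerProductSpace ENNReal NNReal Pointwise

set_option linter.unusedSectionVars false

namespace Pool.Agent.Helper872

/-- the map putting a height in coordinate `0`, shifted by `c` -/
noncomputable def psi (n : ℕ) (c : ℝ) (q : EuclideanSpace ℝ (Fin n) × ℝ) :
    EuclideanSpace ℝ (Fin (n + 1)) :=
  WithLp.toLp 2 (Fin.cons (q.2 + c) (fun i => q.1 i) : Fin (n + 1) → ℝ)

@[simp] theorem psi_zero (n : ℕ) (c : ℝ) (q : EuclideanSpace ℝ (Fin n) × ℝ) :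
    psi n c q 0 = q.2 + c := by
  simp [psi]

@[simp] theorem psi_succ (n : ℕ) (c : ℝ) (q : EuclideanSpace ℝ (Fin n) × ℝ) (i : Fin n) :
    psi n c q i.succ = q.1 i := by
  simp [psi]

theorem psi_norm (n : ℕ) (c : ℝ) (q q' : EuclideanSpace ℝ (Fin n) × ℝ) :
    ‖psi n c q - psi n c q'‖ ^ 2 = ‖q.1 - q'.1‖ ^ 2 + (q.2 - q'.2) ^ 2 := by
  rw [EuclideanSpace.real_norm_sq_eq, EuclideanSpace.real_norm_sq_eq, Fin.sum_univ_succ]
  simp only [PiLp.sub_apply, psi_zero, psi_succ]
  ring

theorem psi_continuous (n : ℕ) (c : ℝ) : Continuous (psi n c) := by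
  have h : LipschitzWith 2 (psi n c) := by
    apply LipschitzWith.of_dist_le_mul
    intro q q'
    rw [dist_eq_norm]
    have h1 := psi_norm n c q q'
    have h2 : ‖q.1 - q'.1‖ ≤ dist q q' := by
      rw [← dist_eq_norm, Prod.dist_eq]; exact le_max_left _ _
    have h3 : |q.2 - q'.2| ≤ dist q q' := by
      rw [← Real.dist_eq, Prod.dist_eq]; exact le_max_right _ _
    have h4 : (q.2 - q'.2) ^ 2 ≤ (dist q q') ^ 2 := by
      rw [← sq_abs]; gcongr
    have h5 : ‖q.1 - q'.1‖ ^ 2 ≤ (dist q q') ^ 2 := by gcongr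
    have h0 : 0 ≤ dist q q' := dist_nonneg
    have h6 : ‖psi n c q - psi n c q'‖ ^ 2 ≤ (2 * dist q q') ^ 2 := by nlinarith
    exact le_of_sq_le_sq h6 (by positivity)
  exact h.continuous

theorem psi_comb (n : ℕ) (c : ℝ) (q q' : EuclideanSpace ℝ (Fin n) × ℝ) {a b : ℝ}
    (hab : a + b = 1) : psi n c (a • q + b • q') = a • psi n c q + b • psi n c q' := by
  ext i
  refine Fin.cases ?_ (fun i => ?_) i
  · simp only [psi_zero, PiLp.add_apply, PiLp.smul_apply, smul_eq_mul, Prod.snd_add, Prod.smul_snd]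
    have : c = (a + b) * c := by rw [hab, one_mul]
    calc a * q.2 + b * q'.2 + c = a * q.2 + b * q'.2 + (a + b) * c := by rw [← this]
      _ = _ := by ring
  · simp only [psi_succ, PiLp.add_apply, PiLp.smul_apply, smul_eq_mul, Prod.fst_add, Prod.smul_fst]

theorem psi_surj (n : ℕ) (c : ℝ) (y : EuclideanSpace ℝ (Fin (n + 1))) :
    ∃ q, psi n c q = y := by
  refine ⟨(WithLp.toLp 2 (fun i => y i.succ), y 0 - c), ?_⟩
  ext i
  refine Fin.cases ?_ (fun i => ?_) i
  · simp
  · simp

theorem psi_measurePreserving (n : ℕ) (c : ℝ) :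
    MeasurePreserving (psi n c)
      ((volume : Measure (EuclideanSpace ℝ (Fin n))).prod (volume : Measure ℝ)) volume := by
  have h1 : MeasurePreserving (Prod.swap : EuclideanSpace ℝ (Fin n) × ℝ → _)
      ((volume : Measure (EuclideanSpace ℝ (Fin n))).prod (volume : Measure ℝ))
      ((volume : Measure ℝ).prod (volume : Measure (EuclideanSpace ℝ (Fin n)))) :=
    Measure.measurePreserving_swap
  have h2 : MeasurePreserving (Prod.map (fun t : ℝ => t + c)
      (@WithLp.ofLp 2 (Fin n → ℝ)))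
      ((volume : Measure ℝ).prod (volume : Measure (EuclideanSpace ℝ (Fin n))))
      ((volume : Measure ℝ).prod (volume : Measure (Fin n → ℝ))) :=
    (measurePreserving_add_right volume c).prod (PiLp.volume_preserving_ofLp (Fin n))
  have h3 := (volume_preserving_piFinSuccAbove (fun _ : Fin (n + 1) => ℝ) 0).symm
  have h4 := PiLp.volume_preserving_toLp (Fin (n + 1))
  have h := (h4.comp (h3.comp (h2.comp h1)))
  have e : psi n c = (@WithLp.toLp 2 (Fin (n + 1) → ℝ)) ∘
      ((MeasurableEquiv.piFinSuccAbove (fun _ : Fin (n + 1) => ℝ) 0).symm ∘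
        (Prod.map (fun t : ℝ => t + c) (@WithLp.ofLp 2 (Fin n → ℝ)) ∘ Prod.swap)) := by
    ext q i
    refine Fin.cases ?_ (fun i => ?_) i
    · simp [MeasurableEquiv.piFinSuccAbove]
    · simp [MeasurableEquiv.piFinSuccAbove]
  rw [e]
  exact h

end Pool.Agent.Helper872
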