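import Mathlib

open MeasureTheory Metric Set Filter Topology
open scoped InnerProductSpace ENNReal NNReal

set_option linter.unusedSectionVars false

namespace Pool.Agent.Helper872

section Ray

variable {E : Type*} [NormedAddCommGroup E] [InnerProductSpace ℝ E] [FiniteDimensional ℝ E]
  [MeasurableSpace E] [BorelSpace E]

theorem exists_proj {B : Set E} (hne : B.Nonempty) (hc : IsClosed B) (hconv : Convex ℝ B) :
    ∃ P : E → E, ∀ x, P x ∈ B ∧ ∀ w ∈ B, ⟪x - P x, w - P x⟫_ℝ ≤ 0 := by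
  have h : ∀ x : E, ∃ v ∈ B, ∀ w ∈ B, ⟪x - v, w - v⟫_ℝ ≤ 0 := by
    intro x
    obtain ⟨v, hv, hmin⟩ := exists_norm_eq_iInf_of_complete_convex hne hc.isComplete hconv x
    exact ⟨v, hv, (norm_eq_iInf_iff_real_inner_le_zero hconv hv).1 hmin⟩
  choose P hP1 hP2 using h
  exact ⟨P, fun x => ⟨hP1 x, hP2 x⟩⟩

variable {B : Set E} {P : E → E}

theorem proj_lipschitz (hP : ∀ x, P x ∈ B ∧ ∀ w ∈ B, ⟪x - P x, w - P x⟫_ℝ ≤ 0) (x y : E) :
    ‖P x - P y‖ ≤ ‖x - y‖ := by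
  have h1 := (hP x).2 (P y) (hP y).1
  have h2 := (hP y).2 (P x) (hP x).1
  have h3 : ‖P x - P y‖ ^ 2 ≤ ⟪x - y, P x - P y⟫_ℝ := by
    rw [← real_inner_self_eq_norm_sq]
    have e1 : ⟪x - P x, P y - P x⟫_ℝ = ⟪x, P y⟫_ℝ - ⟪x, P x⟫_ℝ - ⟪P x, P y⟫_ℝ + ⟪P x, P x⟫_ℝ := by
      simp only [inner_sub_left, inner_sub_right]; ring
    have e2 : ⟪y - P y, P x - P y⟫_ℝ = ⟪y, P x⟫_ℝ - ⟪y, P y⟫_ℝ - ⟪P x, P y⟫_ℝ + ⟪P y, P y⟫_ℝ := by
      simp only [inner_sub_left, inner_sub_right]; rw [real_inner_comm (P x) (P y)]; ring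
    have e3 : ⟪x - y, P x - P y⟫_ℝ = ⟪x, P x⟫_ℝ - ⟪x, P y⟫_ℝ - ⟪y, P x⟫_ℝ + ⟪y, P y⟫_ℝ := by
      simp only [inner_sub_left, inner_sub_right]; ring
    have e4 : ⟪P x - P y, P x - P y⟫_ℝ = ⟪P x, P x⟫_ℝ - 2 * ⟪P x, P y⟫_ℝ + ⟪P y, P y⟫_ℝ := by
      simp only [inner_sub_left, inner_sub_right]; rw [real_inner_comm (P x) (P y)]; ring
    linarith
  have h4 := real_inner_le_norm (x - y) (P x - P y)
  by_cases h0 : ‖P x - P y‖ = 0
  · rw [h0]; positivity
  · have hpos : 0 < ‖P x - P y‖ := lt_of_le_of_ne (norm_nonneg _) (Ne.symm h0)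
    nlinarith

theorem proj_continuous (hP : ∀ x, P x ∈ B ∧ ∀ w ∈ B, ⟪x - P x, w - P x⟫_ℝ ≤ 0) :
    Continuous P := by
  have : LipschitzWith 1 P := by
    apply LipschitzWith.of_dist_le_mul
    intro x y
    rw [dist_eq_norm, dist_eq_norm]
    simpa using proj_lipschitz hP x y
  exact this.continuous

theorem proj_min (hP : ∀ x, P x ∈ B ∧ ∀ w ∈ B, ⟪x - P x, w - P x⟫_ℝ ≤ 0) (x : E) {y : E}
    (hy : y ∈ B) : ‖x - P x‖ ≤ ‖x - y‖ := by
  have h1 := (hP x).2 y hy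
  have h2 : ‖x - y‖ ^ 2 = ‖x - P x‖ ^ 2 - 2 * ⟪x - P x, y - P x⟫_ℝ + ‖y - P x‖ ^ 2 := by
    rw [← @norm_sub_sq_real]
    congr 2
    abel
  have h3 : ‖x - P x‖ ^ 2 ≤ ‖x - y‖ ^ 2 := by nlinarith [sq_nonneg ‖y - P x‖]
  exact le_of_sq_le_sq h3 (norm_nonneg _) 

theorem proj_eq (hP : ∀ x, P x ∈ B ∧ ∀ w ∈ B, ⟪x - P x, w - P x⟫_ℝ ≤ 0) (x p : E)
    (hp : p ∈ B) (h : ∀ w ∈ B, ⟪x - p, w - p⟫_ℝ ≤ 0) : P x = p := by
  have h1 := (hP x).2 p hp
  have h2 := h (P x) (hP x).1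
  have h3 : ‖P x - p‖ ^ 2 ≤ 0 := by
    rw [← real_inner_self_eq_norm_sq]
    have e1 : ⟪x - P x, p - P x⟫_ℝ = ⟪x, p⟫_ℝ - ⟪x, P x⟫_ℝ - ⟪P x, p⟫_ℝ + ⟪P x, P x⟫_ℝ := by
      simp only [inner_sub_left, inner_sub_right]; ring
    have e2 : ⟪x - p, P x - p⟫_ℝ = ⟪x, P x⟫_ℝ - ⟪x, p⟫_ℝ - ⟪P x, p⟫_ℝ + ⟪p, p⟫_ℝ := by
      simp only [inner_sub_left, inner_sub_right]; rw [real_inner_comm (P x) p]; ring
    have e4 : ⟪P x - p, P x - p⟫_ℝ = ⟪P x, P x⟫_ℝ - 2 * ⟪P x, p⟫_ℝ + ⟪p, p⟫_ℝ := by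
      simp only [inner_sub_left, inner_sub_right]; rw [real_inner_comm (P x) p]; ring
    linarith
  have h4 : ‖P x - p‖ = 0 := by
    have := sq_nonneg ‖P x - p‖
    exact pow_eq_zero_iff (two_ne_zero) |>.1 (le_antisymm h3 this)
  exact sub_eq_zero.1 (norm_eq_zero.1 h4)

/-- outward unit direction at a point outside -/
noncomputable def dir (P : E → E) (x : E) : E := (‖x - P x‖)⁻¹ • (x - P x)

theorem not_mem_iff (hP : ∀ x, P x ∈ B ∧ ∀ w ∈ B, ⟪x - P x, w - P x⟫_ℝ ≤ 0) (x : E) :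
    x ∉ B ↔ 0 < ‖x - P x‖ := by
  constructor
  · intro hx
    rcases (norm_nonneg (x - P x)).eq_or_lt with h | h
    · exfalso
      have : x = P x := sub_eq_zero.1 (norm_eq_zero.1 h.symm)
      exact hx (this ▸ (hP x).1)
    · exact h
  · intro h hx
    have := proj_min hP x hx
    simp at this
    rw [sub_eq_zero] at this
    rw [← this] at h
    simp at h

theorem norm_dir {x : E} (hx : 0 < ‖x - P x‖) : ‖dir P x‖ = 1 := by
  unfold dir
  rw [norm_smul, norm_inv, norm_norm]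
  field_simp

theorem smul_dir {x : E} (hx : 0 < ‖x - P x‖) : ‖x - P x‖ • dir P x = x - P x := by
  unfold dir
  rw [smul_smul, mul_inv_cancel₀ hx.ne', one_smul]

theorem dir_normal (hP : ∀ x, P x ∈ B ∧ ∀ w ∈ B, ⟪x - P x, w - P x⟫_ℝ ≤ 0) (x : E) :
    ∀ w ∈ B, ⟪dir P x, w - P x⟫_ℝ ≤ 0 := by
  intro w hw
  unfold dir
  rw [real_inner_smul_left]
  have := (hP x).2 w hw
  have h0 : 0 ≤ (‖x - P x‖)⁻¹ := by positivity
  exact mul_nonpos_of_nonneg_of_nonpos h0 this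

theorem dir_subgrad (hP : ∀ x, P x ∈ B ∧ ∀ w ∈ B, ⟪x - P x, w - P x⟫_ℝ ≤ 0) {x : E}
    (hx : 0 < ‖x - P x‖) (y : E) :
    ⟪dir P x, y - x⟫_ℝ ≤ ‖y - P y‖ - ‖x - P x‖ := by
  have e : y - x = (y - P y) + (P y - P x) - (x - P x) := by abel
  rw [e, inner_sub_right, inner_add_right]
  have h1 : ⟪dir P x, y - P y⟫_ℝ ≤ ‖y - P y‖ := by
    have := real_inner_le_norm (dir P x) (y - P y)
    rwa [norm_dir hx, one_mul] at this
  have h2 := dir_normal hP x (P y) (hP y).1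
  have h3 : ⟪dir P x, x - P x⟫_ℝ = ‖x - P x‖ := by
    unfold dir
    rw [real_inner_smul_left, real_inner_self_eq_norm_sq]
    field_simp
  linarith

theorem push_expand (hP : ∀ x, P x ∈ B ∧ ∀ w ∈ B, ⟪x - P x, w - P x⟫_ℝ ≤ 0) {x y : E}
    (hx : 0 < ‖x - P x‖) (hy : 0 < ‖y - P y‖) {δ : ℝ} (hδ : 0 ≤ δ) :
    ‖x - y‖ ≤ ‖(x + δ • dir P x) - (y + δ • dir P y)‖ := by
  have h1 := dir_subgrad hP hx y
  have h2 := dir_subgrad hP hy x
  have h3 : 0 ≤ ⟪x - y, dir P x - dir P y⟫_ℝ := by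
    have e1 : ⟪x - y, dir P x - dir P y⟫_ℝ = - ⟪dir P x, y - x⟫_ℝ - ⟪dir P y, x - y⟫_ℝ := by
      rw [real_inner_comm, inner_sub_left]
      have : x - y = -(y - x) := by abel
      rw [this, inner_neg_right, ← this]
      
    rw [e1]; linarith
  have e : (x + δ • dir P x) - (y + δ • dir P y) = (x - y) + δ • (dir P x - dir P y) := by
    rw [smul_sub]; abel
  rw [e]
  have h4 : ‖x - y‖ ^ 2 ≤ ‖(x - y) + δ • (dir P x - dir P y)‖ ^ 2 := by
    rw [@norm_add_sq_real, real_inner_smul_right]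
    nlinarith [sq_nonneg ‖δ • (dir P x - dir P y)‖, mul_nonneg hδ h3]
  exact le_of_sq_le_sq h4 (norm_nonneg _)


theorem proj_push (hP : ∀ x, P x ∈ B ∧ ∀ w ∈ B, ⟪x - P x, w - P x⟫_ℝ ≤ 0) {x : E}
    (hx : 0 < ‖x - P x‖) {δ : ℝ} (hδ : 0 ≤ δ) : P (x + δ • dir P x) = P x := by
  apply proj_eq hP _ _ (hP x).1
  intro w hw
  have e : x + δ • dir P x - P x = (x - P x) + δ • dir P x := by abel
  rw [e, inner_add_left, real_inner_smul_left]
  have h1 := (hP x).2 w hw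
  have h2 := dir_normal hP x w hw
  nlinarith

theorem norm_push (hP : ∀ x, P x ∈ B ∧ ∀ w ∈ B, ⟪x - P x, w - P x⟫_ℝ ≤ 0) {x : E}
    (hx : 0 < ‖x - P x‖) {δ : ℝ} (hδ : 0 ≤ δ) :
    ‖(x + δ • dir P x) - P (x + δ • dir P x)‖ = ‖x - P x‖ + δ := by
  rw [proj_push hP hx hδ]
  have e : x + δ • dir P x - P x = (‖x - P x‖ + δ) • dir P x := by
    rw [add_smul, smul_dir hx]; abel
  rw [e, norm_smul, norm_dir hx, mul_one, Real.norm_eq_abs, abs_of_nonneg (by positivity)]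

theorem push_eq {x : E} (hx : 0 < ‖x - P x‖) {δ : ℝ} :
    x + δ • dir P x = P x + (‖x - P x‖ + δ) • dir P x := by
  rw [add_smul, smul_dir hx]; abel

variable (μ : Measure E) [μ.IsAddHaarMeasure]

theorem measure_le_image_of_expand (μ : Measure E) [μ.IsAddHaarMeasure] (f : E → E) (G : Set E)
    (h : ∀ x ∈ G, ∀ y ∈ G, ‖x - y‖ ≤ ‖f x - f y‖) : μ G ≤ μ (f '' G) := by
  have hμ : μ = μ.addHaarScalarFactor (μH[Module.finrank ℝ E]) • (μH[Module.finrank ℝ E]) :=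
    Measure.isAddLeftInvariant_eq_smul _ _
  rw [hμ]
  rcases G.eq_empty_or_nonempty with hG | hG
  · simp [hG]
  obtain ⟨x0, hx0⟩ := hG
  haveI : Nonempty E := ⟨x0⟩
  have hinj : InjOn f G := by
    intro x hx y hy hxy
    have := h x hx y hy
    rw [hxy, sub_self, norm_zero] at this
    exact sub_eq_zero.1 (norm_le_zero_iff.1 this)
  set g := Function.invFunOn f G with hg
  have hL : LipschitzOnWith 1 g (f '' G) := by
    apply LipschitzOnWith.of_dist_le_mul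
    rintro _ ⟨x, hx, rfl⟩ _ ⟨y, hy, rfl⟩
    have e1 : g (f x) = x := hinj.leftInvOn_invFunOn hx
    have e2 : g (f y) = y := hinj.leftInvOn_invFunOn hy
    rw [e1, e2, dist_eq_norm, dist_eq_norm]
    simpa using h x hx y hy
  have himg : g '' (f '' G) = G := by
    rw [image_image]
    have : ∀ x ∈ G, g (f x) = x := fun x hx => hinj.leftInvOn_invFunOn hx
    rw [image_congr this, image_id']
  have := hL.hausdorffMeasure_image_le (d := (Module.finrank ℝ E : ℝ)) (by positivity)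
  rw [himg] at this
  simp only [ENNReal.coe_one, ENNReal.one_rpow, one_mul] at this
  simp only [Measure.smul_apply]
  gcongr


theorem measurable_dir (hP : ∀ x, P x ∈ B ∧ ∀ w ∈ B, ⟪x - P x, w - P x⟫_ℝ ≤ 0) :
    Measurable (dir P) := by
  have h := (proj_continuous hP)
  unfold dir
  apply Measurable.smul
  · apply Measurable.inv
    exact (by fun_prop : Continuous fun x => ‖x - P x‖).measurable
  · exact (by fun_prop : Continuous fun x => x - P x).measurable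

/-- shell number `k` -/
def shell (P : E → E) (ρ : ℝ) (k : ℕ) : Set E :=
  {x | k * ρ < ‖x - P x‖ ∧ ‖x - P x‖ ≤ (k + 1) * ρ}

theorem measurableSet_shell (hP : ∀ x, P x ∈ B ∧ ∀ w ∈ B, ⟪x - P x, w - P x⟫_ℝ ≤ 0)
    (ρ : ℝ) (k : ℕ) : MeasurableSet (shell P ρ k) := by
  have h := (proj_continuous hP)
  have h1 : Measurable fun x => ‖x - P x‖ := (by fun_prop : Continuous fun x => ‖x - P x‖).measurable
  exact (measurableSet_lt measurable_const h1).inter (measurableSet_le h1 measurable_const)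

theorem shell_step (hP : ∀ x, P x ∈ B ∧ ∀ w ∈ B, ⟪x - P x, w - P x⟫_ℝ ≤ 0)
    (μ : Measure E) [μ.IsAddHaarMeasure] {ρ : ℝ} (hρ : 0 < ρ) (k : ℕ) (I : E → ℝ≥0∞)
    (hI : Measurable I) :
    ∫⁻ x in shell P ρ 0, I (x + ((k : ℝ) * ρ) • dir P x) ∂μ ≤ ∫⁻ x in shell P ρ k, I x ∂μ := by
  have hm : Measurable fun x => x + ((k : ℝ) * ρ) • dir P x := by
    have := measurable_dir hP
    fun_prop
  rw [← lintegral_map hI hm]
  apply lintegral_mono'
  · rw [Measure.le_iff]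
    intro F hF
    rw [Measure.map_apply hm hF, Measure.restrict_apply hF, Measure.restrict_apply (hm hF)]
    calc μ ((fun x => x + ((k : ℝ) * ρ) • dir P x) ⁻¹' F ∩ shell P ρ 0)
        ≤ μ ((fun x => x + ((k : ℝ) * ρ) • dir P x) ''
            ((fun x => x + ((k : ℝ) * ρ) • dir P x) ⁻¹' F ∩ shell P ρ 0)) := by
          apply measure_le_image_of_expand
          rintro x ⟨-, hx⟩ y ⟨-, hy⟩
          simp only [shell, mem_setOf_eq, Nat.cast_zero, zero_mul] at hx hy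
          exact push_expand hP hx.1 hy.1 (by positivity)
      _ ≤ μ (F ∩ shell P ρ k) := by
          apply measure_mono
          rintro _ ⟨x, ⟨hxF, hx⟩, rfl⟩
          simp only [shell, mem_setOf_eq, Nat.cast_zero, zero_mul, zero_add, one_mul] at hx
          refine ⟨hxF, ?_⟩
          simp only [shell, mem_setOf_eq]
          rw [norm_push hP hx.1 (by positivity)]
          constructor
          · linarith [hx.1]
          · linarith [hx.2]
  · exact le_refl _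

theorem ray_lemma (hne : B.Nonempty) (hc : IsClosed B) (hconv : Convex ℝ B)
    (μ : Measure E) [μ.IsAddHaarMeasure] {ρ : ℝ} (hρ : 0 < ρ) (I : E → ℝ≥0∞)
    (hI : Measurable I) (c : ℝ≥0∞)
    (h : ∀ p ∈ B, ∀ ν : E, ‖ν‖ = 1 → (∀ w ∈ B, ⟪ν, w - p⟫_ℝ ≤ 0) → ∀ r : ℝ, 0 < r → r ≤ ρ →
      c ≤ ∑' k : ℕ, I (p + (r + k * ρ) • ν)) :
    c * μ ({x | ∃ y ∈ B, ‖x - y‖ ≤ ρ} \ B) ≤ ∫⁻ x in Bᶜ, I x ∂μ := by
  obtain ⟨P, hP⟩ := exists_proj hne hc hconv
  have hS : {x | ∃ y ∈ B, ‖x - y‖ ≤ ρ} \ B = shell P ρ 0 := by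
    ext x
    simp only [shell, mem_diff, mem_setOf_eq, Nat.cast_zero, zero_mul, zero_add, one_mul]
    rw [not_mem_iff hP x]
    constructor
    · rintro ⟨⟨y, hy, hxy⟩, h2⟩
      exact ⟨h2, (proj_min hP x hy).trans hxy⟩
    · rintro ⟨h1, h2⟩
      exact ⟨⟨P x, (hP x).1, h2⟩, h1⟩
  rw [hS]
  calc c * μ (shell P ρ 0) = ∫⁻ x in shell P ρ 0, c ∂μ := by simp
    _ ≤ ∫⁻ x in shell P ρ 0, ∑' k : ℕ, I (x + ((k : ℝ) * ρ) • dir P x) ∂μ := by
        apply setLIntegral_mono' (measurableSet_shell hP ρ 0)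
        intro x hx
        simp only [shell, mem_setOf_eq, Nat.cast_zero, zero_mul, zero_add, one_mul] at hx
        have := h (P x) (hP x).1 (dir P x) (norm_dir hx.1) (dir_normal hP x) ‖x - P x‖ hx.1 hx.2
        refine this.trans (le_of_eq ?_)
        congr 1
        ext k
        rw [push_eq hx.1]
    _ = ∑' k : ℕ, ∫⁻ x in shell P ρ 0, I (x + ((k : ℝ) * ρ) • dir P x) ∂μ := by
        rw [lintegral_tsum]
        intro k
        have := measurable_dir hP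
        exact (by fun_prop : Measurable _).aemeasurable
    _ ≤ ∑' k : ℕ, ∫⁻ x in shell P ρ k, I x ∂μ := by
        exact ENNReal.tsum_le_tsum fun k => shell_step hP μ hρ k I hI
    _ = ∫⁻ x in ⋃ k, shell P ρ k, I x ∂μ := by
        rw [lintegral_iUnion (fun k => measurableSet_shell hP ρ k)]
        intro i j hij
        rw [Function.onFun, Set.disjoint_left]
        intro x hx hx'
        simp only [shell, mem_setOf_eq] at hx hx'
        apply hij
        have h1 : (i : ℝ) < j + 1 := by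
          have := hx.1.trans_le hx'.2
          exact lt_of_mul_lt_mul_right this hρ.le
        have h2 : (j : ℝ) < i + 1 := by
          have := hx'.1.trans_le hx.2
          exact lt_of_mul_lt_mul_right this hρ.le
        have h1' : i < j + 1 := by exact_mod_cast h1
        have h2' : j < i + 1 := by exact_mod_cast h2
        omega
    _ ≤ ∫⁻ x in Bᶜ, I x ∂μ := by
        apply lintegral_mono_set
        apply iUnion_subset
        intro k x hx
        simp only [shell, mem_setOf_eq] at hx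
        rw [mem_compl_iff, not_mem_iff hP x]
        exact lt_of_le_of_lt (by positivity) hx.1

end Ray

end Pool.Agent.Helper872
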