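import Pool.Agent.Helper872.Sec

open MeasureTheory Metric Set Filter Topology
open scoped InnerProductSpace ENNReal NNReal Pointwise

set_option linter.unusedSectionVars false

namespace Pool.Agent.Helper872

/-- clamp to the unit interval -/
noncomputable def cl (y : ℝ) : ℝ := min (max y 0) 1

theorem cl_nonneg (y : ℝ) : 0 ≤ cl y := by
  unfold cl; exact le_min (le_max_right _ _) zero_le_one

theorem cl_le_one (y : ℝ) : cl y ≤ 1 := min_le_right _ _

theorem cl_of_mem {y : ℝ} (h0 : 0 ≤ y) (h1 : y ≤ 1) : cl y = y := by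
  unfold cl; rw [max_eq_left h0, min_eq_left h1]

theorem cl_of_nonpos {y : ℝ} (h0 : y ≤ 0) : cl y = 0 := by
  unfold cl; rw [max_eq_right h0, min_eq_left zero_le_one]

theorem cl_of_one_le {y : ℝ} (h0 : 1 ≤ y) : cl y = 1 := by
  unfold cl; rw [max_eq_left (by linarith), min_eq_right h0]

theorem cl_mono {y z : ℝ} (h : y ≤ z) : cl y ≤ cl z := by
  unfold cl; exact min_le_min_right _ (max_le_max_right _ h)

theorem cl_measurable : Measurable cl := by
  unfold cl; fun_prop

theorem sum_arith (r ρ : ℝ) (N : ℕ) :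
    2 * ∑ k ∈ Finset.range N, (r + k * ρ) = 2 * N * r + ρ * N * (N - 1) := by
  induction N with
  | zero => simp
  | succ n ih =>
    rw [Finset.sum_range_succ, mul_add, ih]
    push_cast; ring

section RayI

variable {E : Type*} [NormedAddCommGroup E] [InnerProductSpace ℝ E] [FiniteDimensional ℝ E]
  [MeasurableSpace E] [BorelSpace E]

open Classical in
noncomputable def rayI (K : Set (E × ℝ)) (ρ : ℝ) (j : ℕ) (x : E) : ℝ≥0∞ :=
  if x ∈ up K j then
    ENNReal.ofReal (2 * ρ * cl (topf K x - j) +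
      max 0 (cl (topf (hthick ρ K) x - j) - cl (topf K x - j) - ρ))
  else if x ∈ thick ρ (base K) then ENNReal.ofReal (cl (topf (hthick ρ K) x - j)) else 0

variable {K : Set (E × ℝ)}

theorem rayI_measurable (hK : IsCompact K) (ρ : ℝ) (j : ℕ) : Measurable (rayI K ρ j) := by
  unfold rayI
  have h1 := topf_measurable hK
  have h2 := topf_measurable (hthick_compact hK ρ)
  have h3 := cl_measurable
  apply Measurable.ite (up_compact hK j).isClosed.measurableSet
  · fun_prop
  · apply Measurable.ite (isCompact_thick (base_compact hK) ρ).isClosed.measurableSet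
    · fun_prop
    · exact measurable_const

theorem rayI_tsum (hK : IsCompact K) (hconv : Convex ℝ K) {ρ : ℝ} (hρ : 0 < ρ) (j : ℕ)
    {p : E} (hp : p ∈ up K (j + 1)) {ν : E} (hν : ‖ν‖ = 1)
    (hn : ∀ w ∈ up K (j + 1), ⟪ν, w - p⟫_ℝ ≤ 0) {r : ℝ} (hr : 0 < r) (hrρ : r ≤ ρ) :
    ENNReal.ofReal (1 - ρ) ≤ ∑' k : ℕ, rayI K ρ j (p + (r + k * ρ) • ν) := by
  classical
  set x : ℕ → E := fun k => p + (r + k * ρ) • ν with hx
  have hout : ∀ k, x k ∉ up K (j + 1) := by
    intro k hk
    have := hn _ hk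
    simp only [hx, add_sub_cancel_left, real_inner_smul_right, real_inner_self_eq_norm_sq, hν] at this
    have h2 : 0 < r + k * ρ := by positivity
    nlinarith
  have hex : ∃ k : ℕ, x k ∉ up K j := by
    by_contra hcon
    push Not at hcon
    obtain ⟨R, hR⟩ := (up_compact hK j).isBounded.exists_norm_le
    obtain ⟨k, hk⟩ := exists_nat_gt ((R + ‖p‖) / ρ)
    have h1 := hR _ (hcon k)
    have h2 : ‖(r + k * ρ) • ν‖ ≤ ‖x k‖ + ‖p‖ := by
      have := norm_sub_le (p + (r + k * ρ) • ν) p
      simpa using this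
    rw [norm_smul, hν, mul_one, Real.norm_eq_abs, abs_of_nonneg (by positivity)] at h2
    rw [div_lt_iff₀ hρ] at hk
    linarith
  set N := Nat.find hex with hN
  have hN1 : x N ∉ up K j := Nat.find_spec hex
  have hN2 : ∀ k < N, x k ∈ up K j := by
    intro k hk
    by_contra hcon
    exact Nat.find_min hex hk hcon
  have hKρ := hthick_compact hK ρ
  set z : ℕ → ℝ := fun k => topf K (x k) with hz
  set zρ : ℕ → ℝ := fun k => topf (hthick ρ K) (x k) with hzρ
  have hz1 : ∀ k < N, (j : ℝ) ≤ z k ∧ z k < j + 1 := by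
    intro k hk
    have h1 := (mem_up_iff hK).1 (hN2 k hk)
    refine ⟨h1.2, ?_⟩
    by_contra hcon
    push Not at hcon
    exact hout k ((mem_up_iff hK).2 ⟨h1.1, hcon⟩)
  set g : ℕ → ℝ := fun k => if k = 0 then 1 else z (k - 1) - j with hg
  have hg0 : g 0 = 1 := by simp [hg]
  have hgs : ∀ k, g (k + 1) = z k - j := by intro k; simp [hg]
  have hgN : ∀ k ≤ N, 0 ≤ g k ∧ g k ≤ 1 := by
    intro k hk
    rcases k with _ | k
    · rw [hg0]; norm_num
    · rw [hgs]; have := hz1 k (by omega); constructor <;> linarith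
  -- neighbours
  have hmemρ : ∀ k ≤ N, x k ∈ thick ρ (base K) ∧ g k ≤ zρ k - j := by
    intro k hk
    rcases k with _ | k
    · have h1 : x 0 ∈ thick ρ (up K (j + 1)) := by
        refine ⟨p, hp, ?_⟩
        simp only [hx, Nat.cast_zero, zero_mul, add_zero, add_sub_cancel_left]
        rw [norm_smul, hν, mul_one, Real.norm_eq_abs, abs_of_nonneg hr.le]
        exact hrρ
      rw [← up_hthick, mem_up_iff hKρ] at h1
      rw [base_hthick] at h1
      refine ⟨h1.1, ?_⟩
      rw [hg0]
      have := h1.2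
      simp only [hzρ]
      linarith
    · have hk' : k < N := by omega
      have h1 := (mem_up_iff hK).1 (hN2 k hk')
      have h2 : ‖x (k + 1) - x k‖ ≤ ρ := by
        have e : x (k + 1) - x k = ρ • ν := by
          simp only [hx]
          push_cast
          rw [add_sub_add_left_eq_sub, ← sub_smul]
          congr 1; ring
        rw [e, norm_smul, hν, mul_one, Real.norm_eq_abs, abs_of_nonneg hρ.le]
      refine ⟨⟨x k, h1.1, h2⟩, ?_⟩
      rw [hgs]
      have h3 : (x (k + 1), z k) ∈ hthick ρ K := ⟨x k, h2, topf_mem hK h1.1⟩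
      have h4 := le_topf hKρ h3
      simp only [hzρ]
      linarith
  have hclρ : ∀ k ≤ N, g k ≤ cl (zρ k - j) := by
    intro k hk
    have h1 := (hmemρ k hk).2
    have h2 := hgN k hk
    calc g k = cl (g k) := (cl_of_mem h2.1 h2.2).symm
      _ ≤ cl (zρ k - j) := cl_mono h1
  set a : ℕ → ℝ := fun k => 2 * ρ * cl (z k - j) + max 0 (cl (zρ k - j) - cl (z k - j) - ρ) with ha
  have ha0 : ∀ k, 0 ≤ a k := by
    intro k
    simp only [ha]
    have := cl_nonneg (z k - j)
    positivity
  have ha1 : ∀ k < N, 2 * ρ * g (k + 1) + (g k - g (k + 1) - ρ) ≤ a k := by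
    intro k hk
    have h1 := hz1 k hk
    have e : cl (z k - j) = g (k + 1) := by
      rw [hgs]; exact cl_of_mem (by linarith) (by linarith)
    simp only [ha]
    rw [e]
    have h2 := hclρ k hk.le
    have h3 := le_max_right 0 (cl (zρ k - j) - g (k + 1) - ρ)
    linarith
  have hI1 : ∀ k < N, rayI K ρ j (x k) = ENNReal.ofReal (a k) := by
    intro k hk
    unfold rayI
    rw [if_pos (hN2 k hk)]
  have hI2 : ENNReal.ofReal (g N) ≤ rayI K ρ j (x N) := by
    unfold rayI
    rw [if_neg hN1, if_pos (hmemρ N le_rfl).1]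
    exact ENNReal.ofReal_le_ofReal (hclρ N le_rfl)
  -- concavity along the ray
  have hconc : ∀ k < N, 1 - (r + k * ρ) / (r + (N - 1) * ρ) ≤ g (k + 1) := by
    intro k hk
    obtain ⟨m, hm⟩ : ∃ m, N = m + 1 := ⟨N - 1, by omega⟩
    have hRm : r + ((N : ℝ) - 1) * ρ = r + m * ρ := by rw [hm]; push_cast; ring
    rw [hRm]
    have hRpos : 0 < r + m * ρ := by positivity
    set lam := (r + k * ρ) / (r + m * ρ) with hlam
    have hlam0 : 0 ≤ lam := by positivity
    have hlam1 : lam ≤ 1 := by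
      rw [hlam, div_le_one hRpos]
      have : (k : ℝ) ≤ m := by exact_mod_cast (by omega : k ≤ m)
      nlinarith
    obtain ⟨s, hs1, hs2⟩ := hp
    have hmN : m < N := by omega
    have h1 := (mem_up_iff hK).1 (hN2 m hmN)
    have h2 := topf_mem hK h1.1
    have h3 := hconv hs2 h2 (by linarith : (0 : ℝ) ≤ 1 - lam) hlam0 (by ring)
    simp only [Prod.smul_mk, Prod.mk_add_mk, smul_eq_mul] at h3
    have e : (1 - lam) • p + lam • x m = x k := by
      simp only [hx]
      rw [smul_add, smul_smul, ← add_assoc, ← add_smul]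
      have e1 : (1 - lam + lam) = 1 := by ring
      have e2 : lam * (r + m * ρ) = r + k * ρ := by
        rw [hlam]; field_simp
      rw [e1, e2, one_smul]
    rw [e] at h3
    have h4 := le_topf hK h3
    rw [hgs]
    simp only [hz]
    have h5 : (j : ℝ) ≤ topf K (x m) := h1.2
    have h6 : (1 - lam) * (j + 1) ≤ (1 - lam) * s :=
      mul_le_mul_of_nonneg_left hs1 (by linarith)
    have h7 : lam * j ≤ lam * topf K (x m) := mul_le_mul_of_nonneg_left h5 hlam0
    nlinarith
  have hsum : -1 ≤ ∑ k ∈ Finset.range N, (2 * g (k + 1) - 1) := by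
    rcases Nat.eq_zero_or_pos N with h0 | h0
    · rw [h0]; simp
    · have hR : 0 < r + ((N : ℝ) - 1) * ρ := by
        have : (1 : ℝ) ≤ N := by exact_mod_cast h0
        have : 0 ≤ ((N : ℝ) - 1) * ρ := by
          apply mul_nonneg _ hρ.le; linarith
        linarith
      have h1 : ∑ k ∈ Finset.range N, (2 * (1 - (r + k * ρ) / (r + ((N : ℝ) - 1) * ρ)) - 1) ≤
          ∑ k ∈ Finset.range N, (2 * g (k + 1) - 1) := by
        apply Finset.sum_le_sum
        intro k hk
        have := hconc k (Finset.mem_range.1 hk)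
        linarith
      refine le_trans ?_ h1
      have h2 : ∑ k ∈ Finset.range N, (2 * (1 - (r + k * ρ) / (r + ((N : ℝ) - 1) * ρ)) - 1) =
          N - (2 * ∑ k ∈ Finset.range N, (r + k * ρ)) / (r + ((N : ℝ) - 1) * ρ) := by
        rw [Finset.mul_sum, Finset.sum_div]
        have e3 : ∀ k ∈ Finset.range N, (2 * (1 - (r + k * ρ) / (r + ((N : ℝ) - 1) * ρ)) - 1) =
            1 - 2 * (r + k * ρ) / (r + ((N : ℝ) - 1) * ρ) := by
          intro k _; ring
        rw [Finset.sum_congr rfl e3, Finset.sum_sub_distrib]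
        simp
      rw [h2, sum_arith]
      have hN1' : (1 : ℝ) ≤ N := by exact_mod_cast h0
      have h3 : (2 * N * r + ρ * N * (N - 1)) / (r + ((N : ℝ) - 1) * ρ) ≤ N + 1 := by
        rw [div_le_iff₀ hR]
        nlinarith [mul_nonneg (sub_nonneg.2 hN1') (sub_nonneg.2 hrρ)]
      linarith
  have hreal : 1 - ρ ≤ ∑ k ∈ Finset.range N, a k + g N := by
    have h1 : ∑ k ∈ Finset.range N, (2 * ρ * g (k + 1) + (g k - g (k + 1) - ρ)) ≤
        ∑ k ∈ Finset.range N, a k :=
      Finset.sum_le_sum fun k hk => ha1 k (Finset.mem_range.1 hk)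
    have h2 : ∑ k ∈ Finset.range N, (2 * ρ * g (k + 1) + (g k - g (k + 1) - ρ)) =
        ρ * ∑ k ∈ Finset.range N, (2 * g (k + 1) - 1) + (g 0 - g N) := by
      rw [← Finset.sum_range_sub' g N, Finset.mul_sum, ← Finset.sum_add_distrib]
      apply Finset.sum_congr rfl
      intro k _
      ring
    rw [h2, hg0] at h1
    nlinarith
  calc ENNReal.ofReal (1 - ρ) ≤ ENNReal.ofReal (∑ k ∈ Finset.range N, a k + g N) :=
        ENNReal.ofReal_le_ofReal hreal
    _ = ∑ k ∈ Finset.range N, ENNReal.ofReal (a k) + ENNReal.ofReal (g N) := by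
        rw [ENNReal.ofReal_add (Finset.sum_nonneg fun k _ => ha0 k) (hgN N le_rfl).1,
          ENNReal.ofReal_sum_of_nonneg fun k _ => ha0 k]
    _ ≤ ∑ k ∈ Finset.range N, rayI K ρ j (x k) + rayI K ρ j (x N) := by
        gcongr with k hk
        exact (hI1 k (Finset.mem_range.1 hk)).ge
    _ = ∑ k ∈ Finset.range (N + 1), rayI K ρ j (x k) := by rw [Finset.sum_range_succ]
    _ ≤ ∑' k : ℕ, rayI K ρ j (x k) := ENNReal.sum_le_tsum _

theorem rayI_integral (hK : IsCompact K) (hconv : Convex ℝ K) {ρ : ℝ} (hρ : 0 < ρ) (j : ℕ)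
    (μ : Measure E) [μ.IsAddHaarMeasure] :
    ENNReal.ofReal (1 - ρ) * μ (thick ρ (up K (j + 1)) \ up K (j + 1)) ≤
      ∫⁻ x in (up K (j + 1))ᶜ, rayI K ρ j x ∂μ := by
  rcases (up K (j + 1)).eq_empty_or_nonempty with h | h
  · rw [h, thick_empty]; simp
  · apply ray_lemma h (up_compact hK _).isClosed (up_convex hconv _) μ hρ _
      (rayI_measurable hK ρ j)
    intro p hp ν hν hn r hr hrρ
    exact rayI_tsum hK hconv hρ j hp hν hn hr hrρ

end RayI

end Pool.Agent.Helper872
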