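import Pool.Agent.Helper872.Thick

open MeasureTheory Metric Set Filter Topology
open scoped InnerProductSpace ENNReal NNReal Pointwise

set_option linter.unusedSectionVars false

namespace Pool.Agent.Helper872

section Sec

variable {E : Type*} [NormedAddCommGroup E] [InnerProductSpace ℝ E] [FiniteDimensional ℝ E]
  [MeasurableSpace E] [BorelSpace E]

/-- horizontal section at height `t` -/
def sec (K : Set (E × ℝ)) (t : ℝ) : Set E := {x | (x, t) ∈ K}

/-- projection to `E` -/
def base (K : Set (E × ℝ)) : Set E := {x | ∃ s, (x, s) ∈ K}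

/-- points below which `K` reaches height at least `t` -/
def up (K : Set (E × ℝ)) (t : ℝ) : Set E := {x | ∃ s, t ≤ s ∧ (x, s) ∈ K}

/-- horizontal `ρ`-neighbourhood -/
def hthick (ρ : ℝ) (K : Set (E × ℝ)) : Set (E × ℝ) :=
  {q | ∃ x' : E, ‖q.1 - x'‖ ≤ ρ ∧ (x', q.2) ∈ K}

/-- height of the top point over `x` -/
noncomputable def topf (K : Set (E × ℝ)) (x : E) : ℝ := sSup {s | (x, s) ∈ K}

/-- reflection in the last coordinate -/
def flip (M : ℝ) (K : Set (E × ℝ)) : Set (E × ℝ) := {q | (q.1, M - q.2) ∈ K}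

variable {K : Set (E × ℝ)}

theorem fiber_compact (hK : IsCompact K) (x : E) : IsCompact {s | (x, s) ∈ K} := by
  have : {s | (x, s) ∈ K} = Prod.snd '' (K ∩ ({x} ×ˢ univ)) := by
    ext s
    constructor
    · intro h; exact ⟨(x, s), ⟨h, ⟨rfl, trivial⟩⟩, rfl⟩
    · rintro ⟨⟨a, b⟩, ⟨h, h1, -⟩, rfl⟩
      have : a = x := h1
      subst this; exact h
  rw [this]
  apply IsCompact.image _ continuous_snd
  exact hK.inter_right (isClosed_singleton.prod isClosed_univ)

theorem topf_mem (hK : IsCompact K) {x : E} (hx : x ∈ base K) : (x, topf K x) ∈ K := by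
  have := (fiber_compact hK x).sSup_mem hx
  exact this

theorem le_topf (hK : IsCompact K) {x : E} {s : ℝ} (hs : (x, s) ∈ K) : s ≤ topf K x := by
  exact le_csSup (fiber_compact hK x).bddAbove hs

theorem mem_up_iff (hK : IsCompact K) {x : E} {t : ℝ} :
    x ∈ up K t ↔ x ∈ base K ∧ t ≤ topf K x := by
  constructor
  · rintro ⟨s, hts, hs⟩
    exact ⟨⟨s, hs⟩, hts.trans (le_topf hK hs)⟩
  · rintro ⟨hx, ht⟩
    exact ⟨_, ht, topf_mem hK hx⟩

theorem base_compact (hK : IsCompact K) : IsCompact (base K) := by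
  have : base K = Prod.fst '' K := by
    ext x; simp [base]
  rw [this]
  exact hK.image continuous_fst

theorem up_compact (hK : IsCompact K) (t : ℝ) : IsCompact (up K t) := by
  have : up K t = Prod.fst '' (K ∩ (univ ×ˢ Ici t)) := by
    ext x
    simp only [up, mem_image, mem_inter_iff, mem_prod, mem_univ, true_and, mem_Ici, Prod.exists,
      exists_and_right, exists_eq_right]
    constructor
    · rintro ⟨s, h1, h2⟩; exact ⟨s, h2, h1⟩
    · rintro ⟨s, h1, h2⟩; exact ⟨s, h2, h1⟩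
  rw [this]
  exact (hK.inter_right (isClosed_univ.prod isClosed_Ici)).image continuous_fst

theorem sec_compact (hK : IsCompact K) (t : ℝ) : IsCompact (sec K t) := by
  have : sec K t = Prod.fst '' (K ∩ (univ ×ˢ {t})) := by
    ext x
    constructor
    · intro h; exact ⟨(x, t), ⟨h, ⟨trivial, rfl⟩⟩, rfl⟩
    · rintro ⟨⟨a, b⟩, ⟨h, -, h1⟩, rfl⟩
      have : b = t := h1
      subst this; exact h
  rw [this]
  exact (hK.inter_right (isClosed_univ.prod isClosed_singleton)).image continuous_fst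

theorem base_convex (hK : Convex ℝ K) : Convex ℝ (base K) := by
  rintro x ⟨s, hs⟩ y ⟨t, ht⟩ a b ha hb hab
  exact ⟨a • s + b • t, by simpa using hK hs ht ha hb hab⟩

theorem up_convex (hK : Convex ℝ K) (r : ℝ) : Convex ℝ (up K r) := by
  rintro x ⟨s, hrs, hs⟩ y ⟨t, hrt, ht⟩ a b ha hb hab
  refine ⟨a • s + b • t, ?_, by simpa using hK hs ht ha hb hab⟩
  simp only [smul_eq_mul]
  have h1 : a * r ≤ a * s := mul_le_mul_of_nonneg_left hrs ha
  have h2 : b * r ≤ b * t := mul_le_mul_of_nonneg_left hrt hb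
  have h3 : a * r + b * r = r := by rw [← add_mul, hab, one_mul]
  linarith

theorem sec_convex (hK : Convex ℝ K) (r : ℝ) : Convex ℝ (sec K r) := by
  intro x hx y hy a b ha hb hab
  have := hK hx hy ha hb hab
  simp only [Prod.smul_mk, Prod.mk_add_mk, smul_eq_mul] at this
  have e : a * r + b * r = r := by rw [← add_mul, hab, one_mul]
  rw [e] at this
  exact this

theorem hthick_eq_add (ρ : ℝ) (K : Set (E × ℝ)) :
    hthick ρ K = K + (closedBall (0 : E) ρ) ×ˢ {(0 : ℝ)} := by
  ext ⟨x, s⟩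
  simp only [hthick, Set.mem_add, mem_prod, mem_closedBall, dist_zero_right, mem_singleton_iff]
  constructor
  · rintro ⟨y, h, hy⟩
    exact ⟨(y, s), hy, (x - y, 0), ⟨h, rfl⟩, by simp⟩
  · rintro ⟨⟨y, t⟩, hy, ⟨b, u⟩, ⟨hb, hu⟩, h⟩
    simp only [Prod.mk_add_mk, Prod.mk.injEq] at h
    simp only at hu
    obtain ⟨h1, h2⟩ := h
    subst hu
    refine ⟨y, ?_, ?_⟩
    · rw [← h1]; simpa using hb
    · rw [← h2]; simpa using hy

theorem hthick_compact (hK : IsCompact K) (ρ : ℝ) : IsCompact (hthick ρ K) := by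
  rw [hthick_eq_add]
  exact hK.add ((isCompact_closedBall 0 ρ).prod isCompact_singleton)

theorem up_hthick (ρ : ℝ) (K : Set (E × ℝ)) (t : ℝ) : up (hthick ρ K) t = thick ρ (up K t) := by
  ext x
  simp only [up, hthick, thick, mem_setOf_eq]
  constructor
  · rintro ⟨s, hs, x', h1, h2⟩; exact ⟨x', ⟨s, hs, h2⟩, h1⟩
  · rintro ⟨x', ⟨s, hs, h2⟩, h1⟩; exact ⟨s, hs, x', h1, h2⟩

theorem base_hthick (ρ : ℝ) (K : Set (E × ℝ)) : base (hthick ρ K) = thick ρ (base K) := by
  ext x
  simp only [base, hthick, thick, mem_setOf_eq]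
  constructor
  · rintro ⟨s, x', h1, h2⟩; exact ⟨x', ⟨s, h2⟩, h1⟩
  · rintro ⟨x', ⟨s, h2⟩, h1⟩; exact ⟨s, x', h1, h2⟩

theorem sec_hthick (ρ : ℝ) (K : Set (E × ℝ)) (t : ℝ) : sec (hthick ρ K) t = thick ρ (sec K t) := by
  ext x
  simp only [sec, hthick, thick, mem_setOf_eq]
  constructor
  · rintro ⟨x', h1, h2⟩; exact ⟨x', h2, h1⟩
  · rintro ⟨x', h2, h1⟩; exact ⟨x', h1, h2⟩

theorem topf_measurable (hK : IsCompact K) : Measurable (topf K) := by
  apply measurable_of_Ici
  intro t
  have : topf K ⁻¹' Ici t = up K t ∪ ((base K)ᶜ ∩ {x | t ≤ 0}) := by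
    ext x
    simp only [mem_preimage, mem_Ici, mem_union, mem_inter_iff, mem_compl_iff, mem_setOf_eq]
    by_cases hx : x ∈ base K
    · rw [mem_up_iff hK]; simp [hx]
    · rw [mem_up_iff hK]
      have : {s | (x, s) ∈ K} = ∅ := by
        ext s
        simp only [mem_setOf_eq, mem_empty_iff_false, iff_false]
        intro h; exact hx ⟨s, h⟩
      have h0 : topf K x = 0 := by unfold topf; rw [this, Real.sSup_empty]
      simp [hx, h0]
  rw [this]
  apply MeasurableSet.union (up_compact hK t).isClosed.measurableSet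
  apply MeasurableSet.inter (base_compact hK).isClosed.measurableSet.compl
  by_cases h : t ≤ 0
  · simp [h]
  · simp [h]

theorem flip_compact (hK : IsCompact K) (M : ℝ) : IsCompact (flip M K) := by
  have : flip M K = (fun q : E × ℝ => (q.1, M - q.2)) '' K := by
    ext ⟨x, s⟩
    simp only [flip, mem_setOf_eq, mem_image, Prod.mk.injEq, Prod.exists]
    constructor
    · intro h; exact ⟨x, M - s, h, rfl, by ring⟩
    · rintro ⟨a, b, h, rfl, rfl⟩; simpa using h
  rw [this]
  exact hK.image (by fun_prop)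

theorem flip_convex (hK : Convex ℝ K) (M : ℝ) : Convex ℝ (flip M K) := by
  rintro ⟨x, s⟩ hx ⟨y, t⟩ hy a b ha hb hab
  simp only [flip, mem_setOf_eq] at hx hy ⊢
  have := hK hx hy ha hb hab
  simp only [Prod.smul_mk, Prod.mk_add_mk, smul_eq_mul] at this ⊢
  have e : a * (M - s) + b * (M - t) = M - (a * s + b * t) := by
    have : M = (a + b) * M := by rw [hab, one_mul]
    calc a * (M - s) + b * (M - t) = (a + b) * M - (a * s + b * t) := by ring
      _ = M - (a * s + b * t) := by rw [← this]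
  rw [e] at this
  exact this

theorem base_flip (M : ℝ) (K : Set (E × ℝ)) : base (flip M K) = base K := by
  ext x
  simp only [base, flip, mem_setOf_eq]
  constructor
  · rintro ⟨s, hs⟩; exact ⟨_, hs⟩
  · rintro ⟨s, hs⟩; exact ⟨M - s, by simpa using hs⟩

theorem hthick_flip (M ρ : ℝ) (K : Set (E × ℝ)) : hthick ρ (flip M K) = flip M (hthick ρ K) := by
  ext ⟨x, s⟩
  simp only [hthick, flip, mem_setOf_eq]

end Sec

end Pool.Agent.Helper872
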