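import Pool.Agent.Helper872.Ray

open MeasureTheory Metric Set Filter Topology
open scoped InnerProductSpace ENNReal NNReal Pointwise

set_option linter.unusedSectionVars false

namespace Pool.Agent.Helper872

section Thick

variable {E : Type*} [NormedAddCommGroup E] [InnerProductSpace ℝ E] [FiniteDimensional ℝ E]
  [MeasurableSpace E] [BorelSpace E]

/-- closed `ρ`-neighbourhood -/
def thick (ρ : ℝ) (S : Set E) : Set E := {x | ∃ y ∈ S, ‖x - y‖ ≤ ρ}

theorem thick_eq_add (ρ : ℝ) (S : Set E) : thick ρ S = S + closedBall (0 : E) ρ := by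
  ext x
  simp only [thick, Set.mem_add, mem_closedBall, dist_zero_right]
  constructor
  · rintro ⟨y, hy, h⟩
    exact ⟨y, hy, x - y, h, by abel⟩
  · rintro ⟨y, hy, b, hb, rfl⟩
    exact ⟨y, hy, by simpa using hb⟩

theorem thick_empty (ρ : ℝ) : thick ρ (∅ : Set E) = ∅ := by
  ext x; simp [thick]

theorem isCompact_thick {S : Set E} (hS : IsCompact S) (ρ : ℝ) : IsCompact (thick ρ S) := by
  rw [thick_eq_add]
  exact hS.add (isCompact_closedBall 0 ρ)

theorem convex_thick {S : Set E} (hS : Convex ℝ S) (ρ : ℝ) : Convex ℝ (thick ρ S) := by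
  rw [thick_eq_add]
  exact hS.add (convex_closedBall 0 ρ)

theorem subset_thick {ρ : ℝ} (hρ : 0 ≤ ρ) (S : Set E) : S ⊆ thick ρ S := by
  intro x hx
  exact ⟨x, hx, by simpa using hρ⟩

theorem thick_mono (ρ : ℝ) {S T : Set E} (h : S ⊆ T) : thick ρ S ⊆ thick ρ T := by
  rintro x ⟨y, hy, hxy⟩
  exact ⟨y, h hy, hxy⟩

theorem thick_eq_cthickening {S : Set E} (hS : IsCompact S) {ρ : ℝ} (hρ : 0 ≤ ρ) :
    thick ρ S = cthickening ρ S := by
  rw [hS.cthickening_eq_biUnion_closedBall hρ]
  ext x
  simp [thick, dist_eq_norm]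

/-- the volume of the outer parallel shell is monotone under inclusion of convex bodies -/
theorem shell_mono {A C : Set E} (hA : A.Nonempty) (hAc : IsClosed A) (hAconv : Convex ℝ A)
    (hC : IsCompact C) (hAC : A ⊆ C) (μ : Measure E) [μ.IsAddHaarMeasure] {ρ : ℝ} (hρ : 0 < ρ) :
    μ (thick ρ A \ A) ≤ μ (thick ρ C \ C) := by
  have hmeas : MeasurableSet (thick ρ C \ C) :=
    (isCompact_thick hC ρ).isClosed.measurableSet.diff hC.isClosed.measurableSet
  have key := ray_lemma hA hAc hAconv μ hρ ((thick ρ C \ C).indicator 1)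
    (measurable_one.indicator hmeas) 1 ?_
  · rw [one_mul] at key
    refine key.trans ?_
    calc ∫⁻ x in Aᶜ, (thick ρ C \ C).indicator 1 x ∂μ
        ≤ ∫⁻ x, (thick ρ C \ C).indicator 1 x ∂μ := setLIntegral_le_lintegral _ _
      _ = μ (thick ρ C \ C) := by rw [lintegral_indicator_one hmeas]
  · intro p hp ν hν _ r hr hrρ
    -- the ray leaves `C`
    have hex : ∃ k : ℕ, p + (r + k * ρ) • ν ∉ C := by
      by_contra hcon
      push Not at hcon
      obtain ⟨R, hR⟩ := hC.isBounded.exists_norm_le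
      obtain ⟨k, hk⟩ := exists_nat_gt ((R + ‖p‖) / ρ)
      have h1 := hR _ (hcon k)
      have h2 : ‖(r + k * ρ) • ν‖ ≤ ‖p + (r + k * ρ) • ν‖ + ‖p‖ := by
        have := norm_sub_le (p + (r + k * ρ) • ν) p
        simpa using this
      rw [norm_smul, hν, mul_one, Real.norm_eq_abs, abs_of_nonneg (by positivity)] at h2
      rw [div_lt_iff₀ hρ] at hk
      linarith
    classical
    set k := Nat.find hex with hk
    have hk1 : p + (r + k * ρ) • ν ∉ C := Nat.find_spec hex
    have hk2 : p + (r + k * ρ) • ν ∈ thick ρ C := by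
      rcases Nat.eq_zero_or_pos k with h0 | h0
      · refine ⟨p, hAC hp, ?_⟩
        rw [h0]
        simp only [Nat.cast_zero, zero_mul, add_zero, add_sub_cancel_left]
        rw [norm_smul, hν, mul_one, Real.norm_eq_abs, abs_of_nonneg hr.le]
        exact hrρ
      · obtain ⟨m, hm⟩ : ∃ m, k = m + 1 := ⟨k - 1, by omega⟩
        have hmem : p + (r + m * ρ) • ν ∈ C := by
          by_contra hcon
          exact Nat.find_min hex (by omega : m < k) hcon
        refine ⟨_, hmem, ?_⟩
        rw [hm]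
        have e : p + (r + ((m + 1 : ℕ) : ℝ) * ρ) • ν - (p + (r + m * ρ) • ν) = ρ • ν := by
          push_cast
          rw [add_sub_add_left_eq_sub, ← sub_smul]
          congr 1; ring
        rw [e, norm_smul, hν, mul_one, Real.norm_eq_abs, abs_of_nonneg hρ.le]
    calc (1 : ℝ≥0∞) = (thick ρ C \ C).indicator 1 (p + (r + k * ρ) • ν) := by
          have hmem : p + (r + k * ρ) • ν ∈ thick ρ C \ C := ⟨hk2, hk1⟩
          rw [indicator_of_mem hmem]; rfl
      _ ≤ ∑' k : ℕ, (thick ρ C \ C).indicator 1 (p + (r + k * ρ) • ν) :=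
          ENNReal.le_tsum k

end Thick

end Pool.Agent.Helper872
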