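import Mathlib

set_option autoImplicit false

namespace TriGap
open Matrix

theorem herm_lower {ι : Type*} [Fintype ι] [DecidableEq ι] (C : Matrix ι ι ℂ) (hC : C.IsHermitian)
    (x y : ℝ) (hy : 0 ≤ y) (h : ∀ r, y ≤ |hC.eigenvalues r + x|) (v : ι → ℂ) :
    y^2 * ∑ i, ‖v i‖^2 ≤ ∑ i, ‖((C + (x:ℂ) • (1 : Matrix ι ι ℂ)) *ᵥ v) i‖^2 := by
  classical
  set b := hC.eigenvectorBasis with hb
  let V : EuclideanSpace ℂ ι := WithLp.toLp 2 v
  let W : EuclideanSpace ℂ ι := WithLp.toLp 2 ((C + (x:ℂ) • (1 : Matrix ι ι ℂ)) *ᵥ v)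
  have h1 : ∑ i, ‖v i‖^2 = ‖V‖^2 := by
    rw [EuclideanSpace.norm_sq_eq]
  have h2 : ∑ i, ‖((C + (x:ℂ) • (1 : Matrix ι ι ℂ)) *ᵥ v) i‖^2 = ‖W‖^2 := by
    rw [EuclideanSpace.norm_sq_eq]
  rw [h1, h2, ← b.sum_sq_norm_inner_right V, ← b.sum_sq_norm_inner_right W, Finset.mul_sum]
  apply Finset.sum_le_sum
  intro r _
  have key : inner ℂ (b r) W = ((hC.eigenvalues r + x : ℝ) : ℂ) * inner ℂ (b r) V := by
    have e1 : C *ᵥ (b r).ofLp = ((hC.eigenvalues r : ℝ) : ℂ) • (b r).ofLp := by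
      have := hC.mulVec_eigenvectorBasis r
      simpa using this
    have e2 : inner ℂ (b r) W = star ((b r).ofLp) ⬝ᵥ ((C + (x:ℂ) • (1 : Matrix ι ι ℂ)) *ᵥ v) := by
      simp [PiLp.inner_apply, dotProduct, W, mul_comm]
    have e3 : inner ℂ (b r) V = star ((b r).ofLp) ⬝ᵥ v := by
      simp [PiLp.inner_apply, dotProduct, V, mul_comm]
    rw [e2, e3, dotProduct_mulVec]
    have e4 : star ((b r).ofLp) ᵥ* (C + (x:ℂ) • (1 : Matrix ι ι ℂ)) = ((hC.eigenvalues r + x : ℝ) : ℂ) • star ((b r).ofLp) := by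
      have h5 : star ((b r).ofLp) ᵥ* C = star (C *ᵥ (b r).ofLp) := by
        rw [star_mulVec, hC.eq]
      rw [vecMul_add, h5, e1, vecMul_smul, vecMul_one]
      ext i
      simp [add_mul]
    rw [e4, smul_dotProduct, smul_eq_mul]
  rw [key, norm_mul, mul_pow]
  apply mul_le_mul_of_nonneg_right _ (by positivity)
  rw [Complex.norm_real, Real.norm_eq_abs]
  exact pow_le_pow_left₀ hy (h r) 2

theorem herm_det {ι : Type*} [Fintype ι] [DecidableEq ι] (C : Matrix ι ι ℂ) (hC : C.IsHermitian)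
    (z : ℂ) : (C + z • (1 : Matrix ι ι ℂ)).det = ∏ r, (z + (hC.eigenvalues r : ℂ)) := by
  have h := congrArg (Polynomial.eval (-z)) hC.charpoly_eq
  rw [eval_charpoly, Polynomial.eval_prod] at h
  have h2 : (C + z • (1 : Matrix ι ι ℂ)) = -((scalar ι) (-z) - C) := by
    ext i j
    by_cases hij : i = j
    · subst hij; simp [add_comm]
    · simp [hij]
  rw [h2, det_neg, h]
  rw [← Finset.card_univ, ← Finset.prod_const, ← Finset.prod_mul_distrib]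
  apply Finset.prod_congr rfl
  intro r _
  simp [add_comm]

theorem pencil {ι : Type*} [Fintype ι] [DecidableEq ι] (S : Matrix ι ι ℂ) (hS : S.IsHermitian)
    (d : ι → ℝ) (hd : ∀ i, 1 ≤ d i) :
    ∃ t : ι → ℝ,
      (∀ z : ℂ, (S + z • diagonal (fun i => (d i : ℂ))).det = (∏ i, (d i : ℂ)) * ∏ r, (z - (t r : ℂ))) ∧
      ∀ (x y : ℝ), 0 ≤ y → (∀ r, y ≤ |x - t r|) → ∀ v : ι → ℂ,
        y^2 * ∑ i, ‖v i‖^2 ≤
          ∑ i, ‖((S + (x:ℂ) • diagonal (fun i => (d i : ℂ))) *ᵥ v) i‖^2 := by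
  classical
  let e : ι → ℝ := fun i => Real.sqrt (d i)
  have he1 : ∀ i, 1 ≤ e i := fun i => by
    show 1 ≤ Real.sqrt (d i)
    rw [Real.one_le_sqrt]; exact hd i
  have he0 : ∀ i, e i ≠ 0 := fun i => by have := he1 i; positivity
  have he2 : ∀ i, e i * e i = d i := fun i => Real.mul_self_sqrt (by linarith [hd i])
  let E : Matrix ι ι ℂ := diagonal (fun i => (e i : ℂ))
  let F : Matrix ι ι ℂ := diagonal (fun i => ((e i)⁻¹ : ℂ))
  have hEF : E * F = 1 := by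
    simp only [E, F, diagonal_mul_diagonal]
    rw [← diagonal_one]; congr 1; ext i
    have := he0 i
    rw [mul_inv_cancel₀]; exact_mod_cast this
  have hFE : F * E = 1 := by
    simp only [E, F, diagonal_mul_diagonal]
    rw [← diagonal_one]; congr 1; ext i
    have := he0 i
    rw [inv_mul_cancel₀]; exact_mod_cast this
  have hEE : E * E = diagonal (fun i => (d i : ℂ)) := by
    simp only [E, diagonal_mul_diagonal]
    congr 1; ext i; exact_mod_cast he2 i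
  let C : Matrix ι ι ℂ := F * S * F
  have hF : F.IsHermitian := by
    apply IsHermitian.ext
    intro i j
    by_cases hij : i = j
    · subst hij; simp [F]
    · simp [F, diagonal_apply_ne _ hij, diagonal_apply_ne _ (Ne.symm hij)]
  have hC : C.IsHermitian := by
    have : C = F * S * Fᴴ := by rw [hF.eq]
    rw [this]
    exact isHermitian_mul_mul_conjTranspose F hS
  have hS2 : ∀ z : ℂ, S + z • diagonal (fun i => (d i : ℂ)) = E * (C + z • 1) * E := by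
    intro z
    have : E * C * E = S := by
      simp only [C]
      calc E * (F * S * F) * E = (E * F) * S * (F * E) := by simp only [Matrix.mul_assoc]
        _ = S := by rw [hEF, hFE, Matrix.one_mul, Matrix.mul_one]
    rw [Matrix.mul_add, Matrix.add_mul, this, Matrix.mul_smul, Matrix.smul_mul, Matrix.mul_one, hEE]
  refine ⟨fun r => - hC.eigenvalues r, ?_, ?_⟩
  · intro z
    rw [hS2 z, det_mul, det_mul, herm_det C hC z]
    have hdet : E.det = ∏ i, (e i : ℂ) := by simp [E]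
    rw [hdet]
    have : (∏ i, (d i : ℂ)) = (∏ i, (e i : ℂ)) * (∏ i, (e i : ℂ)) := by
      rw [← Finset.prod_mul_distrib]
      apply Finset.prod_congr rfl
      intro i _
      exact_mod_cast (he2 i).symm
    rw [this]
    have h3 : ∏ r, (z - ((- hC.eigenvalues r : ℝ) : ℂ)) = ∏ r, (z + (hC.eigenvalues r : ℂ)) := by
      apply Finset.prod_congr rfl
      intro r _
      simp
    rw [h3]; ring
  · intro x y hy h v
    have h1 := herm_lower C hC x y hy (fun r => by have := h r; rwa [sub_neg_eq_add, add_comm] at this) (E *ᵥ v)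
    have hmono : ∀ u : ι → ℂ, ∀ i, ‖u i‖^2 ≤ ‖(E *ᵥ u) i‖^2 := by
      intro u i
      simp only [E, mulVec_diagonal, norm_mul, Complex.norm_real, mul_pow]
      have : 1 ≤ ‖e i‖^2 := by
        rw [Real.norm_eq_abs, sq_abs]
        nlinarith [he1 i]
      nlinarith [sq_nonneg ‖u i‖]
    calc y^2 * ∑ i, ‖v i‖^2 ≤ y^2 * ∑ i, ‖(E *ᵥ v) i‖^2 := by
          apply mul_le_mul_of_nonneg_left _ (by positivity)
          exact Finset.sum_le_sum (fun i _ => hmono v i)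
      _ ≤ _ := h1
      _ ≤ _ := by
          apply Finset.sum_le_sum
          intro i _
          have := hmono ((C + (x:ℂ) • (1 : Matrix ι ι ℂ)) *ᵥ (E *ᵥ v)) i
          rw [hS2 (x:ℂ)]
          rw [mulVec_mulVec, mulVec_mulVec] at this
          rw [mulVec_mulVec, Matrix.mul_assoc]
          exact this


/-- tridiagonal -/
def Tri {n : ℕ} (H : Matrix (Fin n) (Fin n) ℂ) : Prop :=
  ∀ i j : Fin n, (i : ℕ) + 1 < j ∨ (j : ℕ) + 1 < i → H i j = 0

def nearL {n : ℕ} (H : Matrix (Fin n) (Fin n) ℂ) (r : ℝ) (k : ℕ) : Prop :=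
  ∃ u : Fin n → ℂ, u ≠ 0 ∧ (∀ i : Fin n, k ≤ i → u i = 0) ∧
    ∑ i : Fin n, (if (i : ℕ) < k then ‖(H *ᵥ u) i‖^2 else 0) ≤ r^2 * ∑ i, ‖u i‖^2

def nearR {n : ℕ} (H : Matrix (Fin n) (Fin n) ℂ) (r : ℝ) (k : ℕ) : Prop :=
  ∃ u : Fin n → ℂ, u ≠ 0 ∧ (∀ i : Fin n, (i : ℕ) < k → u i = 0) ∧
    ∑ i : Fin n, (if k ≤ (i : ℕ) then ‖(H *ᵥ u) i‖^2 else 0) ≤ r^2 * ∑ i, ‖u i‖^2

theorem site {n : ℕ} (H : Matrix (Fin n) (Fin n) ℂ) (hT : Tri H) (r : ℝ) (s : Fin n)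
    (x : Fin n → ℂ) (hx : x ≠ 0) (hs : x s = 0)
    (h : ∑ i, ‖(H *ᵥ x) i‖^2 ≤ r^2 * ∑ i, ‖x i‖^2) :
    nearL H r s ∨ nearR H r (s + 1) := by
  classical
  let xL : Fin n → ℂ := fun i => if (i : ℕ) < s then x i else 0
  let xR : Fin n → ℂ := fun i => if (s : ℕ) + 1 ≤ i then x i else 0
  have hsum : ∀ i, x i = xL i + xR i := by
    intro i
    simp only [xL, xR]
    rcases lt_trichotomy (i : ℕ) (s : ℕ) with h1 | h1 | h1
    · rw [if_pos h1, if_neg (by omega)]; simp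
    · have : i = s := Fin.ext h1
      subst this; simp [hs]
    · rw [if_neg (by omega), if_pos (by omega)]; simp
  have hxx : x = xL + xR := funext hsum
  have hLi : ∀ i : Fin n, (i : ℕ) < s → (H *ᵥ x) i = (H *ᵥ xL) i := by
    intro i hi
    rw [hxx, mulVec_add, Pi.add_apply]
    have : (H *ᵥ xR) i = 0 := by
      simp only [mulVec, dotProduct]
      apply Finset.sum_eq_zero
      intro j _
      by_cases hj : (s : ℕ) + 1 ≤ j
      · rw [hT i j (Or.inl (by omega)), zero_mul]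
      · have h0 : xR j = 0 := if_neg hj
        rw [h0, mul_zero]
    rw [this, add_zero]
  have hRi : ∀ i : Fin n, (s : ℕ) + 1 ≤ i → (H *ᵥ x) i = (H *ᵥ xR) i := by
    intro i hi
    rw [hxx, mulVec_add, Pi.add_apply]
    have : (H *ᵥ xL) i = 0 := by
      simp only [mulVec, dotProduct]
      apply Finset.sum_eq_zero
      intro j _
      by_cases hj : (j : ℕ) < s
      · rw [hT i j (Or.inr (by omega)), zero_mul]
      · have h0 : xL j = 0 := if_neg hj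
        rw [h0, mul_zero]
    rw [this, zero_add]
  have hnorm : ∑ i, ‖x i‖^2 = ∑ i, ‖xL i‖^2 + ∑ i, ‖xR i‖^2 := by
    rw [← Finset.sum_add_distrib]
    apply Finset.sum_congr rfl
    intro i _
    simp only [xL, xR]
    rcases lt_trichotomy (i : ℕ) (s : ℕ) with h1 | h1 | h1
    · rw [if_pos h1, if_neg (by omega)]; simp
    · have : i = s := Fin.ext h1
      subst this; simp [hs]
    · rw [if_neg (by omega), if_pos (by omega)]; simp
  have hle : ∑ i : Fin n, (if (i : ℕ) < s then ‖(H *ᵥ xL) i‖^2 else 0) +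
      ∑ i : Fin n, (if (s : ℕ) + 1 ≤ (i : ℕ) then ‖(H *ᵥ xR) i‖^2 else 0) ≤ ∑ i, ‖(H *ᵥ x) i‖^2 := by
    rw [← Finset.sum_add_distrib]
    apply Finset.sum_le_sum
    intro i _
    rcases lt_trichotomy (i : ℕ) (s : ℕ) with h1 | h1 | h1
    · rw [if_pos h1, if_neg (by omega), hLi i h1]; simp
    · rw [if_neg (by omega), if_neg (by omega)]; simp
    · rw [if_neg (by omega), if_pos (by omega), hRi i (by omega)]; simp
  rw [hnorm, mul_add] at h
  by_cases hL : ∑ i : Fin n, (if (i : ℕ) < s then ‖(H *ᵥ xL) i‖^2 else 0) ≤ r^2 * ∑ i, ‖xL i‖^2 ∧ xL ≠ 0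
  · left
    refine ⟨xL, hL.2, ?_, hL.1⟩
    intro i hi
    exact if_neg (not_lt.mpr hi)
  · right
    refine ⟨xR, ?_, ?_, ?_⟩
    · intro hR0
      by_cases hL0 : xL = 0
      · apply hx; rw [hxx, hL0, hR0]; simp
      · have h3 : ¬ (∑ i : Fin n, (if (i : ℕ) < s then ‖(H *ᵥ xL) i‖^2 else 0) ≤ r^2 * ∑ i, ‖xL i‖^2) :=
          fun hc => hL ⟨hc, hL0⟩
        have h4 : ∑ i, ‖xR i‖^2 = 0 := by rw [hR0]; simp
        have h5 : (0:ℝ) ≤ ∑ i : Fin n, (if (s : ℕ) + 1 ≤ (i : ℕ) then ‖(H *ᵥ xR) i‖^2 else 0) := by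
          apply Finset.sum_nonneg; intro i _; split_ifs <;> positivity
        rw [h4, mul_zero, add_zero] at h
        exact h3 (by linarith)
    · intro i hi
      simp only [xR]; rw [if_neg (by omega)]
    · by_cases hL0 : xL = 0
      · have h4 : ∑ i, ‖xL i‖^2 = 0 := by rw [hL0]; simp
        have h5 : (0:ℝ) ≤ ∑ i : Fin n, (if (i : ℕ) < s then ‖(H *ᵥ xL) i‖^2 else 0) := by
          apply Finset.sum_nonneg; intro i _; split_ifs <;> positivity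
        rw [h4, mul_zero, zero_add] at h
        have h6 : (0:ℝ) ≤ ∑ i, ‖(H *ᵥ x) i‖^2 := by positivity
        linarith
      · have h3 : ¬ (∑ i : Fin n, (if (i : ℕ) < s then ‖(H *ᵥ xL) i‖^2 else 0) ≤ r^2 * ∑ i, ‖xL i‖^2) :=
          fun hc => hL ⟨hc, hL0⟩
        push Not at h3
        linarith

theorem cut {n : ℕ} (H : Matrix (Fin n) (Fin n) ℂ) (hT : Tri H) (r : ℝ) (hn : 0 < n)
    (h : ∀ s : Fin n, ∃ x : Fin n → ℂ, x ≠ 0 ∧ x s = 0 ∧ ∑ i, ‖(H *ᵥ x) i‖^2 ≤ r^2 * ∑ i, ‖x i‖^2) :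
    ∃ k : ℕ, 1 ≤ k ∧ k < n ∧ nearL H r k ∧ nearR H r k := by
  classical
  have hsite : ∀ s : ℕ, s < n → nearL H r s ∨ nearR H r (s + 1) := by
    intro s hs
    obtain ⟨x, hx, hxs, hx2⟩ := h ⟨s, hs⟩
    exact site H hT r ⟨s, hs⟩ x hx hxs hx2
  have hL0 : ¬ nearL H r 0 := by
    rintro ⟨u, hu, hu0, -⟩
    exact hu (funext fun i => hu0 i (Nat.zero_le _))
  have hRn : ¬ nearR H r n := by
    rintro ⟨u, hu, hu0, -⟩
    exact hu (funext fun i => hu0 i i.2)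
  have hex : ∃ k, nearL H r k := by
    rcases hsite (n - 1) (by omega) with h1 | h1
    · exact ⟨_, h1⟩
    · exfalso; apply hRn; rwa [Nat.sub_add_cancel hn] at h1
  have hk := Nat.find_spec hex
  have hkmin := fun m (hm : m < Nat.find hex) => Nat.find_min hex hm
  set k := Nat.find hex with hkdef
  have hk1 : 1 ≤ k := by
    rcases Nat.eq_zero_or_pos k with h0 | h0
    · rw [h0] at hk; exact absurd hk hL0
    · exact h0
  have hkn : k < n := by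
    by_contra hc
    push Not at hc
    rcases hsite (n - 1) (by omega) with h1 | h1
    · exact hkmin (n-1) (by omega) h1
    · apply hRn; rwa [Nat.sub_add_cancel hn] at h1
  refine ⟨k, hk1, hkn, hk, ?_⟩
  rcases hsite (k - 1) (by omega) with h1 | h1
  · exact absurd h1 (hkmin (k-1) (by omega))
  · rwa [Nat.sub_add_cancel hk1] at h1

abbrev CutIdx (n k : ℕ) := {j : Fin n // k ≤ (j : ℕ)} × {i : Fin n // (i : ℕ) < k}

def cutM {n : ℕ} (H : Matrix (Fin n) (Fin n) ℂ) (k : ℕ) : Matrix (CutIdx n k) (CutIdx n k) ℂ :=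
  fun p q => (if p.2 = q.2 then H p.1 q.1 else 0) - (if p.1 = q.1 then H p.2 q.2 else 0)

theorem sum_sub {n : ℕ} {M : Type*} [AddCommMonoid M] (p : Fin n → Prop) [DecidablePred p]
    (f : Fin n → M) : ∑ j : {j : Fin n // p j}, f j = ∑ j, if p j then f j else 0 := by
  rw [← Finset.sum_filter]
  exact (Finset.sum_subtype (Finset.univ.filter p) (by simp) f).symm

theorem sum_right {n k : ℕ} (f : Fin n → ℂ) (hf : ∀ i : Fin n, (i : ℕ) < k → f i = 0) :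
    ∑ j : {j : Fin n // k ≤ (j : ℕ)}, f j = ∑ j, f j := by
  rw [sum_sub (fun j : Fin n => k ≤ (j : ℕ)) f]
  apply Finset.sum_congr rfl
  intro i _
  split_ifs with h
  · rfl
  · exact (hf i (by omega)).symm

theorem sum_left {n k : ℕ} (f : Fin n → ℂ) (hf : ∀ i : Fin n, k ≤ (i : ℕ) → f i = 0) :
    ∑ j : {j : Fin n // (j : ℕ) < k}, f j = ∑ j, f j := by
  rw [sum_sub (fun j : Fin n => (j : ℕ) < k) f]
  apply Finset.sum_congr rfl
  intro i _
  split_ifs with h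
  · rfl
  · exact (hf i (by omega)).symm

theorem cutM_mulVec {n : ℕ} (H : Matrix (Fin n) (Fin n) ℂ) (k : ℕ) (c : ℂ) (u w : Fin n → ℂ)
    (hu : ∀ i : Fin n, k ≤ (i : ℕ) → u i = 0) (hw : ∀ i : Fin n, (i : ℕ) < k → w i = 0)
    (p : CutIdx n k) :
    (cutM H k *ᵥ (fun q => w q.1 * u q.2)) p =
      ((H - c • (1 : Matrix (Fin n) (Fin n) ℂ)) *ᵥ w) p.1 * u p.2 -
        w p.1 * ((H - c • (1 : Matrix (Fin n) (Fin n) ℂ)) *ᵥ u) p.2 := by
  classical
  have h1 : (cutM H k *ᵥ (fun q => w q.1 * u q.2)) p =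
      (∑ j : {j : Fin n // k ≤ (j : ℕ)}, H p.1 j * w j) * u p.2 -
        w p.1 * (∑ i : {i : Fin n // (i : ℕ) < k}, H p.2 i * u i) := by
    simp only [mulVec, dotProduct, cutM, Fintype.sum_prod_type, sub_mul, Finset.sum_sub_distrib]
    congr 1
    · rw [Finset.sum_mul]
      apply Finset.sum_congr rfl
      intro j _
      simp [ite_mul, Finset.sum_ite_eq, mul_assoc]
    · rw [Finset.sum_comm, Finset.mul_sum]
      apply Finset.sum_congr rfl
      intro i _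
      simp [ite_mul, Finset.sum_ite_eq]
      ring
  rw [h1, sum_right (fun j => H p.1 j * w j) (fun i hi => by simp [hw i hi]),
    sum_left (fun i => H p.2 i * u i) (fun i hi => by simp [hu i hi])]
  simp only [sub_mulVec, smul_mulVec, one_mulVec, Pi.sub_apply, Pi.smul_apply, smul_eq_mul]
  simp only [mulVec, dotProduct]
  ring

theorem near_cut {n : ℕ} (H : Matrix (Fin n) (Fin n) ℂ) (k : ℕ) (c : ℂ) (r : ℝ)
    (hL : nearL (H - c • (1 : Matrix (Fin n) (Fin n) ℂ)) r k)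
    (hR : nearR (H - c • (1 : Matrix (Fin n) (Fin n) ℂ)) r k) :
    ∃ X : CutIdx n k → ℂ, 0 < ∑ p, ‖X p‖^2 ∧
      ∑ p, ‖(cutM H k *ᵥ X) p‖^2 ≤ (2*r)^2 * ∑ p, ‖X p‖^2 := by
  classical
  obtain ⟨u, hu0, hu, huN⟩ := hL
  obtain ⟨w, hw0, hw, hwN⟩ := hR
  have hsR := fun f : Fin n → ℝ => sum_sub (fun j : Fin n => k ≤ (j : ℕ)) f
  have hsL := fun f : Fin n → ℝ => sum_sub (fun j : Fin n => (j : ℕ) < k) f
  have hwS : ∑ j : {j : Fin n // k ≤ (j : ℕ)}, ‖w j‖^2 = ∑ j, ‖w j‖^2 := by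
    rw [hsR (fun j => ‖w j‖^2)]
    apply Finset.sum_congr rfl
    intro i _
    split_ifs with h
    · rfl
    · simp [hw i (by omega)]
  have huS : ∑ j : {j : Fin n // (j : ℕ) < k}, ‖u j‖^2 = ∑ j, ‖u j‖^2 := by
    rw [hsL (fun j => ‖u j‖^2)]
    apply Finset.sum_congr rfl
    intro i _
    split_ifs with h
    · rfl
    · simp [hu i (by omega)]
  have hX : ∑ p : CutIdx n k, ‖w p.1 * u p.2‖^2 = (∑ j, ‖w j‖^2) * ∑ i, ‖u i‖^2 := by
    rw [← hwS, ← huS, Finset.sum_mul_sum, Fintype.sum_prod_type]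
    apply Finset.sum_congr rfl; intro j _
    apply Finset.sum_congr rfl; intro i _
    rw [norm_mul, mul_pow]
  have hpos : ∀ v : Fin n → ℂ, v ≠ 0 → 0 < ∑ i, ‖v i‖^2 := by
    intro v hv
    obtain ⟨i, hi⟩ := Function.ne_iff.mp hv
    apply Finset.sum_pos' (fun _ _ => by positivity)
    exact ⟨i, Finset.mem_univ _, by have : v i ≠ 0 := hi; positivity⟩
  refine ⟨fun p => w p.1 * u p.2, ?_, ?_⟩
  · rw [hX]; exact mul_pos (hpos w hw0) (hpos u hu0)
  · rw [hX]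
    set Hc := (H - c • (1 : Matrix (Fin n) (Fin n) ℂ)) with hHc
    have h1 : ∀ p : CutIdx n k, ‖(cutM H k *ᵥ (fun q => w q.1 * u q.2)) p‖^2 ≤
        2 * (‖(Hc *ᵥ w) p.1‖^2 * ‖u p.2‖^2) + 2 * (‖w p.1‖^2 * ‖(Hc *ᵥ u) p.2‖^2) := by
      intro p
      rw [cutM_mulVec H k c u w hu hw p]
      have h2 := norm_sub_le ((Hc *ᵥ w) p.1 * u p.2) (w p.1 * (Hc *ᵥ u) p.2)
      have h3 : ‖(Hc *ᵥ w) p.1 * u p.2 - w p.1 * (Hc *ᵥ u) p.2‖^2 ≤
          (‖(Hc *ᵥ w) p.1 * u p.2‖ + ‖w p.1 * (Hc *ᵥ u) p.2‖)^2 := pow_le_pow_left₀ (norm_nonneg _) h2 2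
      rw [norm_mul, norm_mul] at h3
      nlinarith [sq_nonneg (‖(Hc *ᵥ w) p.1‖ * ‖u p.2‖ - ‖w p.1‖ * ‖(Hc *ᵥ u) p.2‖)]
    calc ∑ p, ‖(cutM H k *ᵥ (fun q => w q.1 * u q.2)) p‖^2
        ≤ ∑ p : CutIdx n k, (2 * (‖(Hc *ᵥ w) p.1‖^2 * ‖u p.2‖^2) + 2 * (‖w p.1‖^2 * ‖(Hc *ᵥ u) p.2‖^2)) :=
          Finset.sum_le_sum (fun p _ => h1 p)
      _ = 2 * ((∑ j : {j : Fin n // k ≤ (j : ℕ)}, ‖(Hc *ᵥ w) j‖^2) * ∑ i : {i : Fin n // (i : ℕ) < k}, ‖u i‖^2) +
          2 * ((∑ j : {j : Fin n // k ≤ (j : ℕ)}, ‖w j‖^2) * ∑ i : {i : Fin n // (i : ℕ) < k}, ‖(Hc *ᵥ u) i‖^2) := by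
          rw [Finset.sum_add_distrib, ← Finset.mul_sum, ← Finset.mul_sum, Finset.sum_mul_sum, Finset.sum_mul_sum,
            Fintype.sum_prod_type, Fintype.sum_prod_type]
      _ ≤ 2 * ((r^2 * ∑ i, ‖w i‖^2) * ∑ i, ‖u i‖^2) + 2 * ((∑ i, ‖w i‖^2) * (r^2 * ∑ i, ‖u i‖^2)) := by
          rw [hwS, huS, hsR (fun j => ‖(Hc *ᵥ w) j‖^2), hsL (fun j => ‖(Hc *ᵥ u) j‖^2)]
          gcongr
      _ = _ := by ring

theorem two_vec {n : ℕ} (H : Matrix (Fin n) (Fin n) ℂ) (hH : H.IsHermitian) (a b : Fin n) (hab : a ≠ b)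
    (s : Fin n) :
    ∃ x : Fin n → ℂ, x ≠ 0 ∧ x s = 0 ∧
      ∑ i, ‖((H - (((hH.eigenvalues a + hH.eigenvalues b)/2 : ℝ) : ℂ) • (1 : Matrix (Fin n) (Fin n) ℂ)) *ᵥ x) i‖^2
        ≤ ((hH.eigenvalues a - hH.eigenvalues b)/2)^2 * ∑ i, ‖x i‖^2 := by
  classical
  set B := hH.eigenvectorBasis with hB
  set la := hH.eigenvalues a
  set lb := hH.eigenvalues b
  set c : ℝ := (la + lb)/2 with hc
  obtain ⟨α, β, hne, hs⟩ : ∃ α β : ℂ, (α ≠ 0 ∨ β ≠ 0) ∧ α * (B a).ofLp s + β * (B b).ofLp s = 0 := by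
    by_cases h : (B a).ofLp s = 0
    · exact ⟨1, 0, Or.inl one_ne_zero, by rw [h]; ring⟩
    · exact ⟨(B b).ofLp s, -(B a).ofLp s, Or.inr (neg_ne_zero.mpr h), by ring⟩
  have hn1 : ∀ α β : ℂ, ‖α • B a + β • B b‖^2 = ‖α‖^2 + ‖β‖^2 := by
    intro α β
    have ho := B.orthonormal
    have h1 : ‖B a‖ = 1 := ho.1 a
    have h2 : ‖B b‖ = 1 := ho.1 b
    have h3 : inner ℂ (B a) (B b) = 0 := ho.2 hab
    have h4 : inner ℂ (α • B a) (β • B b) = 0 := by
      rw [inner_smul_left, inner_smul_right, h3]; simp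
    have h5 := norm_add_sq_eq_norm_sq_add_norm_sq_of_inner_eq_zero (α • B a) (β • B b) h4
    rw [norm_smul, norm_smul, h1, h2] at h5
    nlinarith [h5]
  let V : EuclideanSpace ℂ (Fin n) := α • B a + β • B b
  have hVx : ∀ i, V.ofLp i = α * (B a).ofLp i + β * (B b).ofLp i := by intro i; simp [V]
  refine ⟨V.ofLp, ?_, ?_, ?_⟩
  · intro h0
    have h1 : V = 0 := by
      ext i; rw [h0]; simp
    have h2 := hn1 α β
    have h3 : ‖V‖^2 = 0 := by rw [h1]; simp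
    have h4 : ‖α‖^2 + ‖β‖^2 = 0 := by rw [← h2]; exact h3
    rcases hne with h | h
    · have : 0 < ‖α‖ := norm_pos_iff.mpr h
      nlinarith [sq_nonneg ‖β‖]
    · have : 0 < ‖β‖ := norm_pos_iff.mpr h
      nlinarith [sq_nonneg ‖α‖]
  · rw [hVx s]; exact hs
  · have hm : (H - ((c : ℝ) : ℂ) • (1 : Matrix (Fin n) (Fin n) ℂ)) *ᵥ V.ofLp =
        ((α * ((la - c : ℝ) : ℂ)) • B a + (β * ((lb - c : ℝ) : ℂ)) • B b).ofLp := by
      have ea : H *ᵥ (B a).ofLp = ((la : ℝ) : ℂ) • (B a).ofLp := by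
        simpa using hH.mulVec_eigenvectorBasis a
      have eb : H *ᵥ (B b).ofLp = ((lb : ℝ) : ℂ) • (B b).ofLp := by
        simpa using hH.mulVec_eigenvectorBasis b
      have hV2 : V.ofLp = α • (B a).ofLp + β • (B b).ofLp := by
        ext i; simp [V]
      rw [hV2, sub_mulVec, mulVec_add, mulVec_smul, mulVec_smul, ea, eb, smul_mulVec, one_mulVec]
      ext i
      simp
      ring
    have e1 : ∑ i, ‖((H - ((c : ℝ) : ℂ) • (1 : Matrix (Fin n) (Fin n) ℂ)) *ᵥ V.ofLp) i‖^2 =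
        ‖(α * ((la - c : ℝ) : ℂ)) • B a + (β * ((lb - c : ℝ) : ℂ)) • B b‖^2 := by
      rw [hm, EuclideanSpace.norm_sq_eq]
    have e2 : ∑ i, ‖V.ofLp i‖^2 = ‖V‖^2 := by rw [EuclideanSpace.norm_sq_eq]
    rw [e1, e2, hn1, hn1, norm_mul, norm_mul, Complex.norm_real, Complex.norm_real, Real.norm_eq_abs,
      Real.norm_eq_abs, mul_pow, mul_pow, sq_abs, sq_abs, hc]
    apply le_of_eq
    ring

theorem cutM_add {n : ℕ} (A : Matrix (Fin n) (Fin n) ℂ) (z : ℂ) (e : Fin n → ℝ) (k : ℕ) :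
    cutM (A + z • diagonal (fun i => (e i : ℂ))) k =
      cutM A k + z • diagonal (fun p : CutIdx n k => ((e p.1 - e p.2 : ℝ) : ℂ)) := by
  ext p q
  rcases p with ⟨p1, p2⟩
  rcases q with ⟨q1, q2⟩
  by_cases h1 : p1 = q1 <;> by_cases h2 : p2 = q2
  · subst h1; subst h2; simp [cutM]; ring
  · subst h1; simp [cutM, h2, diagonal_apply]
    have : (p2 : Fin n) ≠ q2 := fun h => h2 (Subtype.ext h)
    simp [this]
  · subst h2; simp [cutM, h1, diagonal_apply]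
    have : (p1 : Fin n) ≠ q1 := fun h => h1 (Subtype.ext h)
    simp [this]
  · simp [cutM, h1, h2]

theorem cutM_herm {n : ℕ} (A : Matrix (Fin n) (Fin n) ℂ) (hA : A.IsHermitian) (k : ℕ) :
    (cutM A k).IsHermitian := by
  apply IsHermitian.ext
  rintro ⟨p1, p2⟩ ⟨q1, q2⟩
  have h1 := hA.apply p1 q1
  have h2 := hA.apply p2 q2
  simp only [cutM, star_sub]
  congr 1
  · by_cases h : p2 = q2
    · rw [if_pos h, if_pos h.symm]; exact h1
    · rw [if_neg h, if_neg (Ne.symm h)]; simp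
  · by_cases h : p1 = q1
    · rw [if_pos h, if_pos h.symm]; exact h2
    · rw [if_neg h, if_neg (Ne.symm h)]; simp

/-- the main resonance theorem -/
theorem resonance {n : ℕ} (A : Matrix (Fin n) (Fin n) ℂ) (hA : A.IsHermitian) (hT : Tri A) :
    ∃ τ : (k : ℕ) → CutIdx n k → ℝ,
      (∀ (k : ℕ) (z : ℂ), (cutM (A + z • diagonal (fun i : Fin n => (((i : ℕ) : ℝ) : ℂ))) k).det =
        (∏ p : CutIdx n k, (((((p.1 : Fin n) : ℕ) : ℝ) - (((p.2 : Fin n) : ℕ) : ℝ) : ℝ) : ℂ)) *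
          ∏ p : CutIdx n k, (z - (τ k p : ℂ))) ∧
      ∀ (t y : ℝ), 0 ≤ y → (∀ k, 1 ≤ k → k < n → ∀ p : CutIdx n k, y ≤ |t - τ k p|) →
        ∀ (hH : (A + (t : ℂ) • diagonal (fun i : Fin n => (((i : ℕ) : ℝ) : ℂ))).IsHermitian) (a b : Fin n),
          a ≠ b → y ≤ |hH.eigenvalues a - hH.eigenvalues b| := by
  classical
  have hd : ∀ k, ∀ p : CutIdx n k, (1:ℝ) ≤ (((p.1 : Fin n) : ℕ) : ℝ) - (((p.2 : Fin n) : ℕ) : ℝ) := by
    intro k p
    have h1 := p.1.2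
    have h2 := p.2.2
    have h3 : ((p.2 : Fin n) : ℕ) + 1 ≤ ((p.1 : Fin n) : ℕ) := by omega
    have h4 : (((p.2 : Fin n) : ℕ) : ℝ) + 1 ≤ (((p.1 : Fin n) : ℕ) : ℝ) := by exact_mod_cast h3
    linarith
  have hp := fun k : ℕ => pencil (cutM A k) (cutM_herm A hA k)
    (fun p : CutIdx n k => (((p.1 : Fin n) : ℕ) : ℝ) - (((p.2 : Fin n) : ℕ) : ℝ)) (hd k)
  choose τ hτ1 hτ2 using hp
  refine ⟨τ, ?_, ?_⟩
  · intro k z
    rw [cutM_add A z (fun i : Fin n => ((i : ℕ) : ℝ)) k]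
    exact hτ1 k z
  · intro t y hy hfar hH a b hab
    have hn : 0 < n := lt_of_le_of_lt (Nat.zero_le _) a.2
    have hTH : Tri (A + (t : ℂ) • diagonal (fun i : Fin n => (((i : ℕ) : ℝ) : ℂ))) := by
      intro i j hij
      have hne : i ≠ j := by rintro rfl; omega
      simp [hT i j hij, hne]
    have hTc : ∀ c : ℂ, Tri (A + (t : ℂ) • diagonal (fun i : Fin n => (((i : ℕ) : ℝ) : ℂ)) - c • (1 : Matrix (Fin n) (Fin n) ℂ)) := by
      intro c i j hij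
      have hne : i ≠ j := by rintro rfl; omega
      rw [Matrix.sub_apply, hTH i j hij]
      simp [hne]
    obtain ⟨k, hk1, hkn, hL, hR⟩ := cut _ (hTc _) _ hn (fun s => two_vec _ hH a b hab s)
    obtain ⟨X, hX0, hX⟩ := near_cut _ k _ _ hL hR
    have h2 := hτ2 k t y hy (hfar k hk1 hkn) X
    rw [cutM_add A (t:ℂ) (fun i : Fin n => ((i : ℕ) : ℝ)) k] at hX
    have h3 : y^2 * ∑ p, ‖X p‖^2 ≤ (2*((hH.eigenvalues a - hH.eigenvalues b)/2))^2 * ∑ p, ‖X p‖^2 := h2.trans hX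
    have h4 := le_of_mul_le_mul_right h3 hX0
    have h5 : 2*((hH.eigenvalues a - hH.eigenvalues b)/2) = hH.eigenvalues a - hH.eigenvalues b := by ring
    rw [h5] at h4
    have h6 := Real.sqrt_le_sqrt h4
    rw [Real.sqrt_sq hy, Real.sqrt_sq_eq_abs] at h6
    exact h6

end TriGap
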